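import Pool.Agent.Lib.FQ.Kit2

/-! Row ARM: waiting until the enlarged scale fits. -/

set_option autoImplicit false

open scoped Topology ENNReal NNReal RealInnerProductSpace Classical
open Metric Filter MeasureTheory Set

noncomputable section

namespace Pool.Agent.Lib.FQ

namespace ARM91

variable {m : ℕ} {κ : Cst} {S : St m}

/-- the child -/
def ach (κ : Cst) (S : St m) (k' : ℕ) (j' : Ix m) : St m :=
  { k := k', j := j', A := S.A, b := S.b, a := κ.H * S.a, tag := 3 }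

/-- the step -/
def astep (κ : Cst) (S : St m) : Step m where
  inc _ := 0
  adm k' _ := S.k + 3 ≤ k' ∧ κ.H * S.a * sd k' ≤ κ.c * dd S.y / 2
  ch := ach κ S
  suc _ _ := False
  W _ := ENNReal.ofReal ((1 - κ.δ) * psi κ S)

theorem geom (hκ : κ.OK m) (hS : Valid κ S) : Geom κ.K S (astep κ S) where
  lip := ⟨0, LipschitzWith.const 0⟩
  supp _ _ h := absurd rfl h
  der := ae_of_all _ fun z => ⟨S.A, (S.A.hasFDerivAt.add_const S.b).add_const 0, hS.good hκ⟩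
  late _ _ h := h.1
  chk _ _ := ⟨rfl, rfl⟩
  aff _ _ _ _ _ _ _ := (add_zero _).symm
  cov := ae_of_all _ fun x _ => by
    have h1 : 0 < κ.H * S.a := mul_pos (by linarith [hκ.H_ge]) hS.a_pos
    have h2 : 0 < κ.c * dd S.y / 2 := half_pos (mul_pos hκ.c_pos (hS.dd_pos hκ))
    obtain ⟨k0, hk0⟩ := exists_sd_lt (div_pos h2 h1)
    refine ⟨max (S.k + 3) k0, le_max_left _ _, ?_⟩
    have h3 := (sd_anti (le_max_right (S.k + 3) k0)).trans hk0.le
    rw [le_div_iff₀ h1] at h3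
    linarith

theorem near (hκ : κ.OK m) (hS : Valid κ S) {z : P m} (hz : z.1 ∈ S.D) (h0 : 0 ≤ z.2)
    (h1 : z.2 ≤ sd S.k) : dd S.y / 2 ≤ dd (S.L z) :=
  hS.disp hκ ((hS.box hκ hz h0 h1).trans (by nlinarith [hS.lam_pos]))

theorem valid (hκ : κ.OK m) (hS : Valid κ S) (ht : S.tag = 1 ∨ S.tag = 2) {k' : ℕ} {j' : Ix m}
    (h : (astep κ S).adm k' j') (hs : cell k' j' ⊆ S.D) : Valid κ (ach κ S k' j') := by
  have hH : 0 < κ.H := by linarith [hκ.H_ge]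
  have ha := hS.a_pos
  have h1 : 0 < κ.H * S.a := mul_pos hH ha
  have hu : ∀ z, ‖S.A z‖ ≤ κ.H * S.a * ‖z‖ / 4 := fun z => by
    have := mul_le_mul_of_nonneg_right hκ.hH' (mul_nonneg ha.le (norm_nonneg z))
    linarith [hS.upper hκ z]
  refine ⟨h1, ?_, hS.det, fun _ => (by have := h.1; omega : 0 < k'), Nat.le_add_left 3 m,
    fun h3 => absurd (show 3 ≤ 1 from h3) (by omega),
    fun h3 => absurd (show 3 = 2 from h3) (by omega), fun _ => ⟨fun z => ⟨?_, ?_⟩,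
      (κ.H * S.a)⁻¹ • S.A, fun _ => 0, fun _ => 0, fun z => ?_, fun l hl => absurd hl (by simp [ach]),
      fun l hl => absurd hl (by simp [ach]), fun l hl => absurd hl (by simp [ach]), fun z => ?_⟩⟩
  · have h2 := near hκ hS (z := (ctr k' j', 0)) (hs (ctr_mem k' j')) le_rfl (sd_pos _).le
    have h3 := mul_le_mul_of_nonneg_left h2 hκ.c_pos.le
    have h4 := h.2
    change κ.H * S.a * sd k' ≤ κ.c * dd (S.L (ctr k' j', 0))
    linarith
  · change κ.H * S.a * ‖z‖ ≤ κ.Λ 0 * ‖S.A z‖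
    have h2 : S.a * ‖z‖ ≤ κ.K1 * ‖S.A z‖ := by
      rcases ht with ht | ht
      · exact (hS.iso0 ht.le z).1.trans (mul_le_mul_of_nonneg_right hκ.K0_le_K1 (norm_nonneg _))
      · exact (hS.iso2 ht z).1
    rw [hκ.Λ0, mul_assoc, mul_assoc]
    exact mul_le_mul_of_nonneg_left h2 hH.le
  · change ‖S.A z‖ ≤ κ.K0 * (κ.H * S.a) * ‖z‖
    nlinarith [hu z, hκ.K0_ge, mul_nonneg h1.le (norm_nonneg z)]
  · rw [smul_apply, norm_smul, Real.norm_eq_abs, abs_of_pos (inv_pos.2 h1),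
      inv_mul_le_iff₀ h1]
    linarith [hu z]
  · change S.A z = (κ.H * S.a) • (((κ.H * S.a)⁻¹ • S.A) z + ∑ l ∈ Finset.range 0, _)
    rw [Finset.sum_range_zero, add_zero, smul_apply, smul_smul,
      mul_inv_cancel₀ h1.ne', one_smul]

theorem first (hS : Valid κ S) {k' : ℕ} (h : S.k + 3 ≤ k')
    (hf : ∀ k'' < k', ¬ (S.k + 3 ≤ k'' ∧ κ.H * S.a * sd k'' ≤ κ.c * dd S.y / 2)) {ρ : ℝ}
    (h1 : 8 * ρ ≤ κ.H) (h2 : ρ * S.lam ≤ κ.c * dd S.y / 4) : ρ * S.lam ≤ κ.H * S.a * sd k' := by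
  rcases h.eq_or_lt with h3 | h3
  · rw [← h3, sd_three]
    have := mul_le_mul_of_nonneg_right h1 hS.lam_pos.le
    unfold St.lam at this ⊢
    linarith
  · obtain ⟨k, rfl⟩ : ∃ k, k' = k + 1 := ⟨k' - 1, by omega⟩
    have h4 := not_le.1 fun h5 => hf k (by omega) ⟨by omega, h5⟩
    rw [sd_succ]
    linarith

theorem psi_le (hκ : κ.OK m) (hS : Valid κ S) {k' : ℕ} {j' : Ix m} {ρ : ℝ} (hρ : 0 < ρ)
    (h : ρ * S.lam ≤ κ.H * S.a * sd k') :
    psi κ (ach κ S k' j') ≤ (1 + κ.γ - κ.g) * ρ ^ (-κ.θ) * S.lam ^ (-κ.θ) := by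
  have h1 : kap κ (ach κ S k' j') = 1 + κ.γ - κ.g := by
    rw [kap_std (i := 0) rfl]; simp
  have h2 : (κ.H * S.a * sd k') ^ (-κ.θ) ≤ (ρ * S.lam) ^ (-κ.θ) :=
    Real.rpow_le_rpow_of_nonpos (mul_pos hρ hS.lam_pos) h (by linarith [hκ.θ_pos])
  rw [Real.mul_rpow hρ.le hS.lam_pos.le] at h2
  rw [psi, h1, mul_assoc]
  exact mul_le_mul_of_nonneg_left h2 (by linarith [hκ.γ_pos, hκ.g_le'])

theorem pot (hκ : κ.OK m) (hS : Valid κ S)
    (ht : S.tag = 2 ∨ (S.tag = 1 ∧ S.lam < κ.c0 ∧ ¬ Steer κ S)) {k' : ℕ} {j' : Ix m}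
    (h : S.k + 3 ≤ k')
    (hf : ∀ k'' < k', ¬ (S.k + 3 ≤ k'' ∧ κ.H * S.a * sd k'' ≤ κ.c * dd S.y / 2)) :
    psi κ (ach κ S k' j') ≤ (1 - κ.δ) * psi κ S := by
  have hl : 0 ≤ S.lam ^ (-κ.θ) := Real.rpow_nonneg hS.lam_pos.le _
  have g1 := hκ.g_pos
  have g2 := hκ.g_le'
  have g3 := hκ.γ_pos
  have g4 := hκ.γ_le
  have g5 := hκ.δ_le
  have g6 := hκ.δ_pos
  change _ ≤ (1 - κ.δ) * (kap κ S * S.lam ^ (-κ.θ))
  rw [← mul_assoc]
  by_cases hn : S.tag = 1 ∧ Nice κ S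
  · have h1 : S.lam * (4 * κ.G) ≤ κ.c * dd S.y := by
      rcases ht with ht | ⟨-, h2, h3⟩
      · omega
      · rcases hn.2 with h4 | h4 | h4
        · exact absurd h4 (not_le.2 h2)
        · exact absurd h4 h3
        · exact h4
    have hG : 0 < κ.G := by linarith [hκ.G_ge]
    refine (psi_le hκ hS hG (first hS h hf hκ.hH (by linarith))).trans
      (mul_le_mul_of_nonneg_right ?_ hl)
    rw [kap_nice hn.1 hn.2]
    nlinarith [hκ.hG, Real.rpow_nonneg hG.le (-κ.θ)]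
  · have h1 : kap κ S = 1 + κ.γ := by
      unfold kap
      rw [if_neg (by omega), if_neg hn, if_pos (by omega)]
    have h2 : ((1 : ℝ) / 4) ^ (-κ.θ) ≤ 1 + 2 * κ.θ * 2 := by
      rw [one_div, Real.inv_rpow (by norm_num), Real.rpow_neg (by norm_num), inv_inv]
      exact rpow_le_one_add (by norm_num) (by norm_num) (by norm_num) hκ.θ_pos.le hκ.θ_half
    have h3 : 512 * κ.θ ≤ κ.g := by nlinarith [hκ.θ_le, hκ.q_le]
    refine (psi_le hκ hS (ρ := 1 / 4) (by norm_num) (first hS h hf (by linarith [hκ.H_ge])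
      (by linarith [hS.size]))).trans (mul_le_mul_of_nonneg_right ?_ hl)
    rw [h1]
    refine (mul_le_mul_of_nonneg_left h2 (by linarith)).trans ?_
    nlinarith [hκ.θ_pos]

end ARM91

open ARM91 in
theorem r_ARM : R_ARM := by
  intro m κ hκ S hS ht
  have ht' : S.tag = 1 ∨ S.tag = 2 := by omega
  refine ⟨astep κ S, geom hκ hS, fun z hz h0 h1 => ?_, fun k' j' h hs => valid hκ hS ht' h hs,
    measurable_const, (setLIntegral_const _ _).le, fun x _ k' h hf => Or.inr ?_,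
    fun _ _ h => h.elim, fun h => absurd h (hS.k_pos (by omega)).ne'⟩
  · change ‖S.L z + 0‖ ≤ 1
    rw [add_zero]
    exact norm_le_one_of_dd (by linarith [near hκ hS hz h0 h1, hS.dd_pos hκ])
  · exact ENNReal.ofReal_le_ofReal (pot hκ hS ht h.1 hf)

end Pool.Agent.Lib.FQ
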