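import Pool.Agent.Lib.FQ.Kit2

/-! Transfer from the cube to the ball. -/

set_option autoImplicit false

open scoped Topology ENNReal NNReal RealInnerProductSpace Classical
open Metric Filter MeasureTheory Set
open Pool.Agent.Lib.MP_ec86f1_an

noncomputable section

namespace Pool.Agent.Lib.FQ

namespace BALL56

variable {m : ℕ}

theorem sup_pos {z : E m} (hz : z ≠ 0) : 0 < sup z := by
  have h1 := norm_le_sup z
  have h2 : 0 < ‖z‖ := norm_pos_iff.2 hz
  have h3 : (0 : ℝ) < (m : ℝ) + 1 := by positivity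
  exact pos_of_mul_pos_left (by linarith [mul_comm ((m : ℝ) + 1) (sup z)]) h3.le

theorem sup_Phi (z : E m) : sup (Phi z) = ‖z‖ / 2 := by
  by_cases hz : z = 0
  · subst hz
    simp [Phi, sup]
  · have h := sup_pos hz
    rw [Phi, sup_smul, abs_of_nonneg (by positivity)]
    field_simp

theorem goodE_comp {K K' : ℝ} {A B : E m →L[ℝ] E m} (hA : GoodE K A) (hB : GoodE K' B) :
    GoodE (max K 0 * max K' 0) (A.comp B) := by
  obtain ⟨hA0, a, ha, hA⟩ := hA
  obtain ⟨hB0, b, hb, hB⟩ := hB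
  have k1 : K ≤ max K 0 := le_max_left _ _
  have k2 : K' ≤ max K' 0 := le_max_left _ _
  have k3 : 0 ≤ max K 0 := le_max_right _ _
  have k4 : 0 ≤ max K' 0 := le_max_right _ _
  generalize max K 0 = L at k1 k3 ⊢
  generalize max K' 0 = L' at k2 k4 ⊢
  refine ⟨?_, a * b, mul_pos ha hb, fun v => ⟨?_, ?_⟩⟩
  · have : (A.comp B).det = A.det * B.det :=
      LinearMap.det_comp (A : E m →ₗ[ℝ] E m) (B : E m →ₗ[ℝ] E m)
    rw [this]
    exact mul_pos hA0 hB0
  · have h1 : b * ‖v‖ ≤ L' * ‖B v‖ := (hB v).1.trans (by gcongr)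
    have h2 : a * ‖B v‖ ≤ L * ‖A (B v)‖ := (hA (B v)).1.trans (by gcongr)
    calc a * b * ‖v‖ = a * (b * ‖v‖) := by ring
      _ ≤ a * (L' * ‖B v‖) := by gcongr
      _ = L' * (a * ‖B v‖) := by ring
      _ ≤ L' * (L * ‖A (B v)‖) := by gcongr
      _ = L * L' * ‖A.comp B v‖ := by rw [ContinuousLinearMap.comp_apply]; ring
  · have h1 : ‖B v‖ ≤ L' * b * ‖v‖ := (hB v).2.trans (by gcongr)
    have h2 : ‖A (B v)‖ ≤ L * a * ‖B v‖ := (hA (B v)).2.trans (by gcongr)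
    calc ‖A.comp B v‖ ≤ L * a * ‖B v‖ := h2
      _ ≤ L * a * (L' * b * ‖v‖) := by gcongr
      _ = L * L' * (a * b) * ‖v‖ := by ring

/-- almost every radius meets a set of full measure -/
theorem ae_sphere {p : E m → Prop} (h : ∀ᵐ z : E m, p z) :
    ∀ᵐ (ξ : sphere (0 : E m) 1) ∂(volume : Measure (E m)).toSphere,
      ∃ r : ℝ, 0 < r ∧ p (r • (ξ : E m)) := by
  have h1 := Measure.measurePreserving_homeomorphUnitSphereProd (volume : Measure (E m))
  have h2 := MeasurePreserving.symm (homeomorphUnitSphereProd (E m)).toMeasurableEquiv h1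
  have h3 : ∀ᵐ z : ({0}ᶜ : Set (E m)) ∂(volume : Measure (E m)).comap (↑), p z :=
    (ae_restrict_iff_subtype (measurableSet_singleton _).compl).1 (ae_restrict_of_ae h)
  have h4 := Measure.ae_ae_of_ae_prod (h2.quasiMeasurePreserving.ae h3)
  have h5 : (ae (Measure.volumeIoiPow (Module.finrank ℝ (E m) - 1))).NeBot := by
    refine ae_neBot.2 fun h0 => ?_
    have h6 := Measure.volumeIoiPow_apply_Iio (Module.finrank ℝ (E m) - 1) ⟨1, mem_Ioi.2 one_pos⟩
    rw [h0] at h6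
    have h7 := ENNReal.ofReal_eq_zero.1 h6.symm
    exact absurd h7 (not_le.2 (by positivity))
  filter_upwards [h4] with ξ hξ
  obtain ⟨r, hr⟩ := hξ.exists
  exact ⟨r.1, r.2, hr⟩

theorem Phi_smul {s : ℝ} (hs : 0 < s) {ξ : E m} (hξ : ‖ξ‖ = 1) {r : ℝ} (hr : 0 < r) :
    Phi (s • ξ) = s • (2 * sup (r • ξ))⁻¹ • r • ξ := by
  have h0 : ξ ≠ 0 := by
    rintro rfl
    simp at hξ
  have h := sup_pos h0
  rw [Phi, sup_smul, sup_smul, norm_smul, hξ, Real.norm_eq_abs, abs_of_pos hs, abs_of_pos hr,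
    smul_smul, smul_smul, smul_smul]
  congr 1
  field_simp

end BALL56

open BALL56 in
theorem r_BALL : R_BALL := by
  intro h1 h2 hq m K cs F hF hO
  obtain ⟨⟨C, hC⟩, -, hN⟩ := h1 m
  obtain ⟨K', hK'⟩ := h2 m
  refine ⟨hq m (max K 0 * max K' 0) _ (fun ρ hρ => ?_) ?_, ?_, ?_⟩
  · obtain ⟨C', hC'⟩ := hF.loc (ρ / 2) (by linarith)
    refine ⟨C' * C, hC'.comp hC.lipschitzOnWith fun z hz => ?_⟩
    have := mem_ball_zero_iff.1 hz
    change sup (Phi z) < ρ / 2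
    rw [sup_Phi]
    linarith
  · have h3 : ∀ᵐ z : E m, sup (Phi z) < 1 / 2 → ∃ A, HasFDerivAt F A (Phi z) ∧ GoodE K A :=
      hN _ hF.der
    filter_upwards [h3, hK'] with z hz hz' hb
    obtain ⟨B, hB, gB⟩ := hz'
    obtain ⟨A, hA, gA⟩ := hz (by
      have := mem_ball_zero_iff.1 hb
      rw [sup_Phi]
      linarith)
    exact ⟨A.comp B, hA.comp z hB, goodE_comp gA gB⟩
  · obtain ⟨R, hR⟩ := hF.bd
    refine (isBounded_iff_forall_norm_le).2 ⟨R, ?_⟩
    rintro _ ⟨z, hz, rfl⟩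
    refine hR _ ?_
    have := mem_ball_zero_iff.1 hz
    rw [sup_Phi]
    linarith
  · filter_upwards [ae_sphere hO] with ξ hξ ρ hρ
    obtain ⟨r, hr, hξ⟩ := hξ
    obtain ⟨s₁, hs₁, s₂, hs₂, h⟩ := hξ (max ρ 0) (max_lt hρ one_pos)
    have hn : ‖(ξ : E m)‖ = 1 := mem_sphere_zero_iff_norm.1 ξ.2
    refine ⟨s₁, ⟨(le_max_left _ _).trans_lt hs₁.1, hs₁.2⟩, s₂,
      ⟨(le_max_left _ _).trans_lt hs₂.1, hs₂.2⟩, ?_⟩
    simp only [Function.comp_apply]
    rw [Phi_smul ((le_max_right _ _).trans_lt hs₁.1) hn hr,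
      Phi_smul ((le_max_right _ _).trans_lt hs₂.1) hn hr]
    exact h

end Pool.Agent.Lib.FQ
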