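import Pool.Agent.Lib.FQ.Kit2

/-! The choice of the constants. -/

set_option autoImplicit false

namespace Pool.Agent.Lib.FQ

namespace CONST87

/-- the recursively defined distortion bounds -/
noncomputable def lam (a : ℝ) : ℕ → ℝ
  | 0 => a
  | i + 1 => lam a i * (1 + lam a i * (2 + 8 ^ i))

theorem lam_nonneg {a : ℝ} (ha : 0 ≤ a) : ∀ i, 0 ≤ lam a i
  | 0 => ha
  | i + 1 => by
    have := lam_nonneg ha i
    unfold lam
    positivity

end CONST87

theorem r_CONST : R_CONST := by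
  intro hW m hm
  set K0 : ℝ := ((m : ℝ) + 1) * (12 + 8 ^ m) with hK0
  set T : ℝ := 4 * 8 ^ m + 4 with hT
  set Ku : ℝ := K0 * (1 + T * (T + 2)) with hKu
  have K0p : 0 < K0 := by positivity
  have Tp : 0 < T := by positivity
  have Kup : 0 < Ku := by positivity
  set c : ℝ := 1 / (8 * K0 * T * (Ku + 1)) with hc
  have cp : 0 < c := by positivity
  obtain ⟨C1, hC1, hwh⟩ := hW m hm (8 / c) (by positivity)
  set q : ℝ := (1 / 8) ^ m with hq
  have qp : 0 < q := by positivity
  set g : ℝ := q / 4 * q / (2 * ((m : ℝ) + 1)) with hg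
  have gp : 0 < g := by positivity
  set θ : ℝ := g * q / (16 * (C1 + 4)) with hθ
  have θp : 0 < θ := by positivity
  set G : ℝ := (8 : ℝ) ^ (1 / θ) with hG
  have G1 : 1 ≤ G := Real.one_le_rpow (by norm_num) (by positivity)
  have Gp : 0 < G := by linarith
  set K1 : ℝ := G * K0 * (1 + G * T * (T + 2)) with hK1
  have K1p : 0 < K1 := by positivity
  set H : ℝ := 8 * G + 4 * Ku with hH
  have Hp : 0 < H := by positivity
  set c0 : ℝ := min (1 / (2 * G * K0 ^ 2 * T ^ 2)) (3 * c / (32 * G)) with hc0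
  have c0p : 0 < c0 := lt_min (by positivity) (by positivity)
  have hl := CONST87.lam_nonneg (a := H * K1) (by positivity)
  have hs : 0 ≤ ∑ i ∈ Finset.range (m + 2), CONST87.lam (H * K1) i :=
    Finset.sum_nonneg fun i _ => hl i
  refine ⟨⟨K0, T, Ku, c, 8 / c, C1, q, q / 4, g, g * q / 4, θ, G, K1, H, c0,
    Ku + K1 + ∑ i ∈ Finset.range (m + 2), CONST87.lam (H * K1) i, c0 / (8 * K0),
    CONST87.lam (H * K1)⟩,
    ⟨hm, rfl, rfl, rfl, cp, ?_, ?_, hC1, hwh, rfl, rfl, ?_, rfl, θp, ?_, G1, ?_, rfl, ?_, ?_, rfl,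
      fun _ => rfl, c0p, ?_, ?_, ?_, ?_, ?_, ?_⟩⟩
  · exact one_div_mul_cancel (by positivity)
  · exact div_mul_cancel₀ _ cp.ne'
  · exact div_mul_cancel₀ _ (by positivity)
  · show 16 * θ * (C1 + 4) ≤ g * q
    refine le_of_eq ?_
    rw [hθ]
    field_simp
  · show G ^ (-θ) ≤ 1 / 8
    rw [hG, ← Real.rpow_mul (by norm_num), mul_neg, one_div_mul_cancel θp.ne', Real.rpow_neg_one]
    norm_num
  · show 8 * G ≤ H
    linarith
  · show 4 * Ku ≤ H
    linarith
  · exact (le_div_iff₀ (by positivity)).mp (min_le_left _ _)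
  · exact (le_div_iff₀ (by positivity)).mp (min_le_right _ _)
  · show Ku ≤ Ku + K1 + _
    linarith
  · show K1 ≤ Ku + K1 + _
    linarith
  · intro i hi
    have := Finset.single_le_sum (f := CONST87.lam (H * K1)) (fun j _ => hl j)
      (Finset.mem_range.mpr (by omega : i < m + 2))
    show CONST87.lam (H * K1) i ≤ Ku + K1 + _
    linarith
  · exact div_mul_cancel₀ _ (by positivity)

end Pool.Agent.Lib.FQ
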