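import Pool.Agent.Lib.FQ.Kit2

/-! Row CUB1: regularity of the map on the cube. -/

set_option autoImplicit false

open scoped Topology ENNReal NNReal RealInnerProductSpace Classical
open Metric Filter MeasureTheory Set

noncomputable section

namespace Pool.Agent.Lib.FQ

namespace CUB113

variable {m : ℕ}

theorem sw_apply (i : Fin (m + 1)) (b : Bool) (z : E m) (j : Fin (m + 1)) :
    sw i b z j = sg b * z (Equiv.swap 0 i j) := rfl

theorem sw_sw (i : Fin (m + 1)) (b : Bool) (z : E m) : sw i b (sw i b z) = z := by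
  ext j
  rw [sw_apply, sw_apply, Equiv.swap_apply_self, ← mul_assoc, sg_sq, one_mul]

/-- the signed swap as a linear equivalence -/
def swE (i : Fin (m + 1)) (b : Bool) : E m ≃L[ℝ] E m :=
  LinearEquiv.toContinuousLinearEquiv
    { toFun := sw i b
      invFun := sw i b
      map_add' := fun z w => by ext j; simp only [sw_apply, PiLp.add_apply]; ring
      map_smul' := fun c z => by
        ext j; simp only [sw_apply, PiLp.smul_apply, smul_eq_mul, RingHom.id_apply]; ring
      left_inv := sw_sw i b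
      right_inv := sw_sw i b }

theorem swE_apply (i : Fin (m + 1)) (b : Bool) (z : E m) : swE i b z = sw i b z := rfl

theorem abs_sw (i : Fin (m + 1)) (b : Bool) (z : E m) (j : Fin (m + 1)) :
    |sw i b z j| = |z (Equiv.swap 0 i j)| := by rw [sw_apply, abs_mul, abs_sg, one_mul]

theorem norm_sw (i : Fin (m + 1)) (b : Bool) (z : E m) : ‖sw i b z‖ = ‖z‖ := by
  rw [EuclideanSpace.norm_eq, EuclideanSpace.norm_eq]
  simp only [Real.norm_eq_abs, abs_sw]
  rw [Equiv.sum_comp (Equiv.swap 0 i) fun j => |z j| ^ 2]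

theorem sup_sw_le (i : Fin (m + 1)) (b : Bool) (z : E m) : sup (sw i b z) ≤ sup z :=
  (sup_le_iff (sup_nonneg z)).2 fun j => by rw [abs_sw]; exact abs_le_sup z _

theorem sup_sw (i : Fin (m + 1)) (b : Bool) (z : E m) : sup (sw i b z) = sup z :=
  le_antisymm (sup_sw_le i b z) (by simpa only [sw_sw] using sup_sw_le i b (sw i b z))

theorem det_sq (i : Fin (m + 1)) (b : Bool) :
    LinearMap.det ((swE i b : E m →L[ℝ] E m) : E m →ₗ[ℝ] E m) *
      LinearMap.det ((swE i b : E m →L[ℝ] E m) : E m →ₗ[ℝ] E m) = 1 := by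
  rw [← LinearMap.det_comp, ← LinearMap.det_id (A := ℝ) (M := E m)]
  congr 1
  exact LinearMap.ext (sw_sw i b)

/-- the linear part of the chart of a sector -/
def Lp (p : Fin (m + 1) × Bool) : E m ≃L[ℝ] P m := (swE p.1 p.2).trans (J m)

/-- the chart of a sector -/
def Ps (p : Fin (m + 1) × Bool) (z : E m) : P m := Lp p z + (ctr 0 0, 1 / 2)

theorem norm_Lp (p : Fin (m + 1) × Bool) (z : E m) : ‖Lp p z‖ = sup z :=
  (norm_J _).trans (sup_sw _ _ _)

theorem map_eq (e : ℝ) (g : P m → E m) (z : E m) :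
    cubeMap e g z = e • z + ∑ p : Fin (m + 1) × Bool, swE p.1 p.2 (g (Ps p z)) := rfl

theorem Ps_snd (p : Fin (m + 1) × Bool) (z : E m) : (Ps p z).2 = sg p.2 * z p.1 + 1 / 2 := by
  have : (Ps p z).2 = sg p.2 * z (Equiv.swap 0 p.1 0) + 1 / 2 := rfl
  rw [this, Equiv.swap_apply_left]

theorem Ps_fst (p : Fin (m + 1) × Bool) (z : E m) : (Ps p z).1 - ctr 0 0 = (Lp p z).1 :=
  add_sub_cancel_right _ _

theorem abs_snd (p : Fin (m + 1) × Bool) (z : E m) : |(Ps p z).2 - 1 / 2| ≤ sup z := by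
  rw [Ps_snd, add_sub_cancel_right, abs_mul, abs_sg, one_mul]; exact abs_le_sup z _

theorem box (p : Fin (m + 1) × Bool) {z : E m} (hz : sup z < 1 / 2) :
    (Ps p z).1 ∈ cell 0 (0 : Ix m) ∧ 0 < (Ps p z).2 ∧ (Ps p z).2 ≤ 1 := by
  have h := abs_le.1 (abs_snd p z)
  refine ⟨mem_cell_of_norm_lt ?_, by linarith [h.1], by linarith [h.2]⟩
  rw [Ps_fst, sd_zero]
  exact ((norm_fst_le _).trans (norm_Lp p z).le).trans_lt hz

theorem start_Ps (e : ℝ) (p : Fin (m + 1) × Bool) (z : E m) :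
    (start m e).L (Ps p z) = e • swE p.1 p.2 z := by
  rw [start_L, Ps, add_sub_cancel_right]
  exact congrArg (e • ·) ((J m).symm_apply_apply _)

theorem cont_Ps (p : Fin (m + 1) × Bool) : Continuous (Ps p) :=
  (Lp p).continuous.add continuous_const

theorem cont_sup : Continuous (sup : E m → ℝ) := by
  have : (sup : E m → ℝ) = fun z => ‖J m z‖ := funext fun z => (norm_J z).symm
  rw [this]; exact (J m).continuous.norm

theorem ae_Ps (p : Fin (m + 1) × Bool) {Q : P m → Prop} (h : ∀ᵐ z : P m, Q z) :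
    ∀ᵐ z : E m, Q (Ps p z) := by
  have : (volume : Measure (P m)).IsAddHaarMeasure :=
    Measure.prod.instIsAddHaarMeasure (volume : Measure (X m)) (volume : Measure ℝ)
  have h1 : ∀ᵐ z : P m, Q (z + (ctr 0 0, 1 / 2)) :=
    (measurePreserving_add_right volume _).quasiMeasurePreserving.ae h
  have h2 : Measure.QuasiMeasurePreserving (Lp p) volume volume :=
    ⟨(Lp p).continuous.measurable, Measure.absolutelyContinuous_isAddHaarMeasure _ _⟩
  exact h2.ae h1

theorem ae_ne : ∀ᵐ z : E m, ∀ i j, i ≠ j → |z i| ≠ |z j| := by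
  refine ae_all_iff.2 fun i => ae_all_iff.2 fun j => ?_
  by_cases hij : i = j
  · exact Eventually.of_forall fun z h => absurd hij h
  have key : ∀ s : ℝ, ∀ᵐ z : E m, z i ≠ s * z j := fun s => by
    let φ : E m →L[ℝ] ℝ := EuclideanSpace.proj i - s • EuclideanSpace.proj j
    have h1 : LinearMap.ker (φ : E m →ₗ[ℝ] ℝ) ≠ ⊤ := fun h => by
      have h2 : EuclideanSpace.single i (1 : ℝ) ∈ LinearMap.ker (φ : E m →ₗ[ℝ] ℝ) :=
        h ▸ Submodule.mem_top
      simp [φ, Ne.symm hij] at h2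
    have h3 := Measure.addHaar_submodule (volume : Measure (E m)) _ h1
    refine measure_mono_null (fun z hz => ?_) h3
    have h4 : z i = s * z j := not_not.1 hz
    simp [φ, h4]
  filter_upwards [key 1, key (-1)] with z h1 h2 _ h
  rcases abs_eq_abs.1 h with h | h
  · exact h1 (by rw [h, one_mul])
  · exact h2 (by rw [h, neg_one_mul])

/-- the sector of a generic point -/
theorem sector (hm : 1 ≤ m) {z : E m} (hz : ∀ i j, i ≠ j → |z i| ≠ |z j|) :
    ∃ p : Fin (m + 1) × Bool, ∀ p', p' ≠ p → 1 / 2 < (Ps p' z).2 + ‖(Ps p' z).1 - ctr 0 0‖ := by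
  obtain ⟨i, hi⟩ := Finite.exists_max fun i => |z i|
  have hlt : ∀ j, j ≠ i → |z j| < |z i| := fun j hj => lt_of_le_of_ne (hi j) (hz j i hj)
  have hpos : 0 < |z i| := by
    have : Nontrivial (Fin (m + 1)) := Fin.nontrivial_iff_two_le.2 (by omega)
    obtain ⟨j, hj⟩ := exists_ne i
    exact (abs_nonneg _).trans_lt (hlt j hj)
  obtain ⟨b, hb⟩ := exists_sg (z i)
  refine ⟨(i, !b), fun p' hp' => ?_⟩
  obtain ⟨i', b'⟩ := p'
  rw [Ps_snd, Ps_fst]
  by_cases h : i' = i
  · subst h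
    have : b' = b := by
      cases b <;> cases b' <;> simp at hp' ⊢
    subst this
    linarith [norm_nonneg (Lp (i', b') z).1]
  · have h0 : Equiv.swap 0 i' i ≠ 0 := fun h1 => by
      have h2 := congrArg (Equiv.swap 0 i') h1
      rw [Equiv.swap_apply_self, Equiv.swap_apply_left] at h2
      exact h h2.symm
    obtain ⟨j, hj⟩ := Fin.exists_succ_eq.2 h0
    have h1 : |sw i' b' z j.succ| ≤ ‖(Lp (i', b') z).1‖ := norm_le_pi_norm (Lp (i', b') z).1 j
    rw [abs_sw, hj, Equiv.swap_apply_self] at h1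
    have h2 := neg_abs_le (sg b' * z i')
    rw [abs_mul, abs_sg, one_mul] at h2
    linarith [hlt i' h]

theorem good (p : Fin (m + 1) × Bool) {K : ℝ} {A : P m →L[ℝ] E m} (h : Good K A) :
    GoodE (|K| * (m + 1)) ((swE p.1 p.2 : E m →L[ℝ] E m).comp (A.comp (Lp p : E m →L[ℝ] P m))) := by
  obtain ⟨h1, a, ha, h2⟩ := h
  refine ⟨?_, a, ha, fun v => ?_⟩
  · have e1 : (((swE p.1 p.2 : E m →L[ℝ] E m).comp (A.comp (Lp p : E m →L[ℝ] P m)) :
        E m →L[ℝ] E m) : E m →ₗ[ℝ] E m) =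
        ((swE p.1 p.2 : E m →L[ℝ] E m) : E m →ₗ[ℝ] E m) ∘ₗ
          ((A.comp (J m : E m →L[ℝ] P m) : E m →L[ℝ] E m) : E m →ₗ[ℝ] E m) ∘ₗ
            ((swE p.1 p.2 : E m →L[ℝ] E m) : E m →ₗ[ℝ] E m) := rfl
    rw [ContinuousLinearMap.det, e1, LinearMap.det_comp, LinearMap.det_comp, mul_left_comm, det_sq,
      mul_one]
    exact h1
  · have e2 : ‖((swE p.1 p.2 : E m →L[ℝ] E m).comp (A.comp (Lp p : E m →L[ℝ] P m))) v‖ =
        ‖A (Lp p v)‖ := norm_sw _ _ _
    obtain ⟨h3, h4⟩ := h2 (Lp p v)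
    rw [norm_Lp] at h3 h4
    rw [e2]
    have h5 := norm_le_sup v
    have h6 := sup_le_norm v
    have h7 := sup_nonneg v
    have h8 : (0 : ℝ) ≤ m := Nat.cast_nonneg m
    have h9 := le_abs_self K
    have h10 := abs_nonneg K
    have h11 := norm_nonneg (A (Lp p v))
    constructor
    · calc a * ‖v‖ ≤ a * ((m + 1) * sup v) := by gcongr
        _ = (m + 1) * (a * sup v) := by ring
        _ ≤ (m + 1) * (|K| * ‖A (Lp p v)‖) :=
          mul_le_mul_of_nonneg_left (h3.trans (by gcongr)) (by linarith)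
        _ = _ := by ring
    · calc ‖A (Lp p v)‖ ≤ |K| * 1 * a * ‖v‖ := h4.trans (by rw [mul_one]; gcongr)
        _ ≤ _ := by gcongr; linarith

end CUB113

open CUB113 in
theorem r_CUB1 : R_CUB1 := by
  intro m hm K cs e g he h
  refine ⟨|K| * (m + 1), fun ρ hρ => ?_, ?_, ?_⟩
  · obtain ⟨C, hC⟩ := h.loc (1 / 2 - ρ) (by linarith)
    refine ⟨_, LipschitzOnWith.of_dist_le'
      (K := e + (Finset.univ : Finset (Fin (m + 1) × Bool)).card * C) fun z hz w hw => ?_⟩
    have h1 : ∀ p : Fin (m + 1) × Bool,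
        ‖swE p.1 p.2 (g (Ps p z)) - swE p.1 p.2 (g (Ps p w))‖ ≤ C * ‖z - w‖ := fun p => by
      have h2 : ∀ u : E m, sup u < ρ → Ps p u ∈ {y : P m | 1 / 2 - ρ < y.2} := fun u hu => by
        have := (abs_le.1 (abs_snd p u)).1
        show 1 / 2 - ρ < (Ps p u).2
        linarith
      have h3 := hC.dist_le_mul _ (h2 z hz) _ (h2 w hw)
      rw [dist_eq_norm, dist_eq_norm, Ps, Ps, add_sub_add_right_eq_sub, ← map_sub, norm_Lp] at h3
      rw [← map_sub, swE_apply, norm_sw]
      exact h3.trans (mul_le_mul_of_nonneg_left (sup_le_norm _) C.2)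
    rw [dist_eq_norm, dist_eq_norm, map_eq, map_eq, add_sub_add_comm, ← smul_sub,
      ← Finset.sum_sub_distrib, add_mul, mul_assoc, ← nsmul_eq_mul]
    refine (norm_add_le _ _).trans (add_le_add ?_ ?_)
    · rw [norm_smul, Real.norm_of_nonneg he.le]
    · exact (norm_sum_le _ _).trans (Finset.sum_le_card_nsmul _ _ _ fun p _ => h1 p)
  · refine ⟨e * (m + 1) + (Finset.univ : Finset (Fin (m + 1) × Bool)).card • (1 + e * (m + 1)),
      fun z hz => ?_⟩
    have h0 : e * ‖z‖ ≤ e * (m + 1) := by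
      have h1 := norm_le_sup z
      have h2 : (0 : ℝ) ≤ m := Nat.cast_nonneg m
      exact mul_le_mul_of_nonneg_left (by nlinarith) he.le
    rw [map_eq]
    refine (norm_add_le _ _).trans (add_le_add ?_ ?_)
    · rwa [norm_smul, Real.norm_of_nonneg he.le]
    · refine (norm_sum_le _ _).trans (Finset.sum_le_card_nsmul _ _ _ fun p _ => ?_)
      obtain ⟨b1, b2, b3⟩ := box p hz
      have h1 := h.bd _ b1 b2 b3
      have h2 := norm_sub_le ((start m e).L (Ps p z) + g (Ps p z)) ((start m e).L (Ps p z))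
      rw [add_sub_cancel_left] at h2
      have h3 : ‖(start m e).L (Ps p z)‖ = e * ‖z‖ := by
        rw [start_Ps, norm_smul, Real.norm_of_nonneg he.le, swE_apply, norm_sw]
      rw [swE_apply, norm_sw]
      linarith
  · filter_upwards [ae_ne, ae_all_iff.2 fun p => ae_Ps p h.der] with z h1 h2 hz
    obtain ⟨p, hp⟩ := sector hm h1
    obtain ⟨b1, b2, b3⟩ := box p hz
    obtain ⟨A, hA, hG⟩ := h2 p b1 b2 b3
    refine ⟨_, ?_, good p hG⟩
    have d1 : HasFDerivAt (Ps p) (Lp p : E m →L[ℝ] P m) z := (Lp p).hasFDerivAt.add_const _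
    refine ((swE p.1 p.2).hasFDerivAt.comp z (hA.comp z d1)).congr_of_eventuallyEq ?_
    have e1 : ∀ᶠ w in 𝓝 z, sup w < 1 / 2 := cont_sup.continuousAt.eventually (gt_mem_nhds hz)
    have e2 : ∀ᶠ w in 𝓝 z, ∀ p', p' ≠ p → 1 / 2 < (Ps p' w).2 + ‖(Ps p' w).1 - ctr 0 0‖ := by
      refine eventually_all.2 fun p' => ?_
      by_cases hp' : p' = p
      · exact Eventually.of_forall fun w hw => absurd hp' hw
      · have hc : Continuous fun w => (Ps p' w).2 + ‖(Ps p' w).1 - ctr 0 0‖ :=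
          (cont_Ps p').snd.add ((cont_Ps p').fst.sub continuous_const).norm
        exact (hc.continuousAt.eventually (lt_mem_nhds (hp p' hp'))).mono fun w hw _ => hw
    filter_upwards [e1, e2] with w w1 w2
    rw [map_eq, Finset.sum_eq_single p]
    · simp only [Function.comp_apply]
      rw [map_add, start_Ps, map_smul]
      simp only [swE_apply, sw_sw]
    · intro p' _ hp'
      have : g (Ps p' w) = 0 := by
        by_contra hn
        exact absurd (h.sec _ (box p' w1).2.1 hn) (not_le.2 (w2 p' hp'))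
      rw [this, map_zero]
    · exact fun hh => absurd (Finset.mem_univ p) hh

end Pool.Agent.Lib.FQ
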