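import Pool.Agent.Lib.FQ.Kit2

/-! Oscillation along almost every radius of the cube. -/

set_option autoImplicit false

open scoped Topology ENNReal NNReal RealInnerProductSpace Classical
open Metric Filter MeasureTheory Set

noncomputable section

namespace Pool.Agent.Lib.FQ

namespace CUB2h44

variable {m : ℕ}

/-- the signed swap as a linear map -/
def swl (i : Fin (m + 1)) (b : Bool) : E m →ₗ[ℝ] E m where
  toFun := sw i b
  map_add' z w := by ext j; simp [sw, mul_add]
  map_smul' c z := by ext j; simp [sw, mul_left_comm]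

theorem sw_apply (i : Fin (m + 1)) (b : Bool) (z : E m) (j : Fin (m + 1)) :
    sw i b z j = sg b * z (Equiv.swap 0 i j) := rfl

theorem sw_sw (i : Fin (m + 1)) (b : Bool) (z : E m) : sw i b (sw i b z) = z := by
  ext j
  rw [sw_apply, sw_apply, Equiv.swap_apply_self, ← mul_assoc, sg_sq, one_mul]

theorem norm_sw (i : Fin (m + 1)) (b : Bool) (z : E m) : ‖sw i b z‖ = ‖z‖ := by
  rw [EuclideanSpace.norm_eq, EuclideanSpace.norm_eq]
  congr 1
  simp only [sw_apply, norm_mul, Real.norm_eq_abs, abs_sg, one_mul]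
  exact Equiv.sum_comp (Equiv.swap 0 i) fun j => |z j| ^ 2

theorem abs_le_tail (i : Fin (m + 1)) (b : Bool) (w : E m) {i' : Fin (m + 1)} (h : i' ≠ i) :
    |w i'| ≤ ‖(J m (sw i b w)).1‖ := by
  have h0 : Equiv.swap 0 i i' ≠ 0 := fun h1 => h (by
    have := congrArg (Equiv.swap 0 i) h1
    rwa [Equiv.swap_apply_self, Equiv.swap_apply_left] at this)
  obtain ⟨j, hj⟩ := Fin.exists_succ_eq.2 h0
  refine le_trans (le_of_eq ?_) (norm_le_pi_norm _ j)
  rw [J_fst, hj, sw_apply, Equiv.swap_apply_self, Real.norm_eq_abs, abs_mul, abs_sg, one_mul]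

theorem J_sw_snd (i : Fin (m + 1)) (b : Bool) (w : E m) : (J m (sw i b w)).2 = sg b * w i := by
  rw [J_snd, sw_apply, Equiv.swap_apply_left]

/-- on an open sector only one term of the map is present -/
theorem sector {K cs e : ℝ} {g : P m → E m} (hc : Core K cs (start m e).L g)
    (i : Fin (m + 1)) (b : Bool) (w : E m) {q : P m}
    (hq : J m (sw i b w) + (ctr 0 0, 1 / 2) = q) (h0 : 0 < q.2)
    (h1 : q.2 + ‖q.1 - ctr 0 0‖ < 1 / 2) :
    cubeMap e g w = sw i b ((start m e).L q + g q) := by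
  have e1 : q.2 = sg b * w i + 1 / 2 := by rw [← hq, Prod.snd_add, J_sw_snd]
  have e2 : q.1 - ctr 0 0 = (J m (sw i b w)).1 := by
    rw [← hq, Prod.fst_add]; exact add_sub_cancel_right _ _
  rw [e2] at h1
  have hn := norm_nonneg (J m (sw i b w)).1
  have hwi : |w i| = -(sg b * w i) := by
    rw [← abs_of_neg (by linarith), abs_mul, abs_sg, one_mul]
  have hz : ∀ p : Fin (m + 1) × Bool, p ≠ (i, b) →
      sw p.1 p.2 (g (J m (sw p.1 p.2 w) + (ctr 0 0, 1 / 2))) = 0 := by
    rintro ⟨i', b'⟩ hp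
    have a1 : |w i'| ≤ -(sg b * w i) := by
      by_cases h : i' = i
      · rw [h, hwi]
      · linarith [abs_le_tail i b w h]
    have a2 : |sg b' * w i'| = |w i'| := by rw [abs_mul, abs_sg, one_mul]
    have a3 := neg_abs_le (sg b' * w i')
    have a4 : g (J m (sw i' b' w) + (ctr 0 0, 1 / 2)) = 0 := by
      by_contra hne
      have a5 := hc.sec _ (by rw [Prod.snd_add, J_sw_snd]; linarith) hne
      rw [Prod.snd_add, Prod.fst_add, J_sw_snd, add_sub_cancel_right] at a5
      have a6 := norm_nonneg (J m (sw i' b' w)).1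
      by_cases h : i' = i
      · subst h
        have a7 : sg b' = -sg b := by
          cases b <;> cases b' <;> simp [sg] at hp ⊢
        rw [a7] at a5
        linarith
      · linarith [abs_le_tail i' b' w (Ne.symm h), abs_le_tail i b w h]
    rw [a4]
    exact (swl i' b').map_zero
  have e3 : sw i b ((start m e).L q) = e • w := by
    rw [start_L, ← hq, add_sub_cancel_right, ContinuousLinearEquiv.symm_apply_apply]
    exact ((swl i b).map_smul e _).trans (congrArg _ (sw_sw i b w))
  unfold cubeMap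
  rw [Finset.sum_eq_single (i, b) (fun p _ hp => hz p hp) (fun h => absurd (Finset.mem_univ _) h),
    hq, ← e3]
  exact ((swl i b).map_add _ _).symm

/-- the cone over a null set of a face is null -/
theorem cone_null (i : Fin (m + 1)) (b : Bool) {N : Set (X m)} (hN : volume N = 0) :
    ∀ᵐ z : E m, ∀ x ∈ N, ∀ s : ℝ, J m (sw i b z) ≠ (s • (x - ctr 0 0), -s / 2) := by
  have : (volume : Measure (P m)).IsAddHaarMeasure := Measure.prod.instIsAddHaarMeasure _ _
  have h1 : volume (N ×ˢ (univ : Set ℝ) : Set (P m)) = 0 := by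
    rw [Measure.volume_eq_prod, Measure.prod_prod, hN, zero_mul]
  have h2 := addHaar_image_eq_zero_of_differentiableOn_of_addHaar_eq_zero volume
    (f := fun p : P m => (p.2 • (p.1 - ctr 0 0), -p.2 / 2)) (by fun_prop) h1
  let L : E m ≃L[ℝ] P m :=
    (LinearEquiv.ofInvolutive (swl i b) (sw_sw i b)).toContinuousLinearEquiv.trans (J m)
  have h3 := Measure.absolutelyContinuous_isAddHaarMeasure (Measure.map L volume) volume h2
  refine measure_mono_null (fun z hz => ?_)
    (le_antisymm ((Measure.le_map_apply L.continuous.aemeasurable _).trans h3.le) bot_le)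
  simp only [mem_compl_iff, mem_ofPred_eq, not_forall, not_not] at hz
  obtain ⟨x, hx, s, hs⟩ := hz
  exact ⟨(x, s), ⟨hx, trivial⟩, hs.symm⟩

end CUB2h44

open CUB2h44 in
theorem r_CUB2 : R_CUB2 := by
  intro m hm K cs e g _ hc
  have : Nonempty (Fin m) := ⟨⟨0, hm⟩⟩
  have hN := hc.osc.and (compl_mem_ae_iff.2
    (Measure.addHaar_sphere (volume : Measure (X m)) (ctr 0 0) (1 / 2)))
  have h0 : ∀ᵐ z : E m, z ≠ 0 := compl_mem_ae_iff.2 (measure_singleton (0 : E m))
  have h1 := ae_all_iff.2 fun p : Fin (m + 1) × Bool => cone_null p.1 p.2 hN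
  filter_upwards [h0, h1] with z hz0 hz ρ hρ
  have hs : 0 < sup z := by
    have := norm_le_sup z
    have h2 := norm_pos_iff.2 hz0
    by_contra h
    nlinarith [Nat.cast_nonneg (α := ℝ) m, not_lt.1 h]
  obtain ⟨i, -, hi⟩ := Finset.exists_max_image Finset.univ (fun i => |z i|) Finset.univ_nonempty
  have hi' : |z i| = sup z := le_antisymm (abs_le_sup z i)
    ((sup_le_iff (abs_nonneg _)).2 fun j => hi j (Finset.mem_univ _))
  obtain ⟨b, hb⟩ := exists_sg (-z i)
  rw [abs_neg, hi'] at hb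
  obtain ⟨y, hy⟩ : ∃ y, y = (2 * sup z)⁻¹ • (J m (sw i b z)).1 := ⟨_, rfl⟩
  have hJ : J m (sw i b z) = ((2 * sup z) • (ctr 0 0 + y - ctr 0 0), -(2 * sup z) / 2) := by
    refine Prod.ext ?_ ?_
    · rw [add_sub_cancel_left, hy, smul_inv_smul₀ (by positivity)]
    · rw [J_sw_snd]; linarith
  have hy1 : ‖y‖ ≤ 1 / 2 := by
    have a1 : ‖(J m (sw i b z)).1‖ ≤ sup z := (norm_fst_le _).trans (by
      rw [norm_J, sup_le_iff hs.le]
      intro j
      rw [sw_apply, abs_mul, abs_sg, one_mul]
      exact abs_le_sup z _)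
    rw [hy, norm_smul, norm_inv, Real.norm_of_nonneg (by positivity), inv_mul_le_iff₀
      (by positivity)]
    linarith
  have hx := not_not.1 fun h => hz (i, b) (ctr 0 0 + y) h _ hJ
  obtain ⟨hx1, hx2⟩ := hx
  have hy2 : ‖y‖ < 1 / 2 := lt_of_le_of_ne hy1 fun h => hx2 (by
    rw [mem_sphere_iff_norm, add_sub_cancel_left, h])
  obtain ⟨r, r0, r1, hr⟩ := hx1 (mem_cell_of_norm_lt (by
    rw [add_sub_cancel_left, sd_zero]; exact hy2)) (min (1 - ρ) 1) (lt_min (by linarith) one_pos)
  have r2 := r1.trans_le (min_le_left _ _)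
  have r3 := r1.trans_le (min_le_right _ _)
  have key : ∀ t : ℝ, 0 < t → t < 1 / 2 → cubeMap e g ((1 - 2 * t) • (2 * sup z)⁻¹ • z) =
      swl i b ((start m e).L (ctr 0 0 + y - t • (2 : ℝ) • y, t) +
        g (ctr 0 0 + y - t • (2 : ℝ) • y, t)) := by
    intro t t0 t1
    refine sector hc i b _ ?_ t0 ?_
    · have a1 : sw i b ((1 - 2 * t) • (2 * sup z)⁻¹ • z) =
          (1 - 2 * t) • (2 * sup z)⁻¹ • sw i b z :=
        ((swl i b).map_smul _ _).trans (congrArg _ ((swl i b).map_smul _ _))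
      rw [a1, map_smul, map_smul, hJ, add_sub_cancel_left]
      refine Prod.ext ?_ ?_
      · simp only [Prod.smul_mk, Prod.mk_add_mk]
        rw [inv_smul_smul₀ (by positivity)]
        module
      · simp only [Prod.smul_mk, Prod.mk_add_mk, smul_eq_mul]
        field_simp
        ring
    · have a1 : ctr 0 0 + y - t • (2 : ℝ) • y - ctr 0 0 = (1 - 2 * t) • y := by module
      rw [a1, norm_smul, Real.norm_of_nonneg (by linarith)]
      nlinarith
  refine ⟨1 - 2 * (r / 4), ⟨by linarith, by linarith⟩, 1 - 2 * (3 * r / 8),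
    ⟨by linarith, by linarith⟩, ?_⟩
  rw [key _ (by linarith) (by linarith), key _ (by linarith) (by linarith), ← map_sub]
  refine (hr ((2 : ℝ) • y) ?_).trans (norm_sw i b _).ge
  rw [norm_smul, Real.norm_of_nonneg (by norm_num)]
  linarith

end Pool.Agent.Lib.FQ
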