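import Pool.Agent.Lib.FQ.Blue2
import Pool.Agent.Lib.FQ.B_CUB1

/-! Row CUB3: the map on the cube is locally injective. -/

set_option autoImplicit false

open scoped Topology ENNReal NNReal RealInnerProductSpace Classical
open Metric Filter MeasureTheory Set

noncomputable section

namespace Pool.Agent.Lib.FQ

namespace CUB348

open CUB113

variable {m : ℕ}

theorem other_le (p : Fin (m + 1) × Bool) (z : E m) {i : Fin (m + 1)} (h : p.1 ≠ i) :
    |z i| ≤ ‖(Lp p z).1‖ := by
  obtain ⟨i', b'⟩ := p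
  have h0 : Equiv.swap 0 i' i ≠ 0 := fun h1 => by
    have h2 := congrArg (Equiv.swap 0 i') h1
    rw [Equiv.swap_apply_self, Equiv.swap_apply_left] at h2
    exact h h2.symm
  obtain ⟨j, hj⟩ := Fin.exists_succ_eq.2 h0
  have h1 : |sw i' b' z j.succ| ≤ ‖(Lp (i', b') z).1‖ := norm_le_pi_norm (Lp (i', b') z).1 j
  rwa [abs_sw, hj, Equiv.swap_apply_self] at h1

theorem strict_uniq {p q : Fin (m + 1) × Bool} {z : E m}
    (hp : (Ps p z).2 + ‖(Ps p z).1 - ctr 0 0‖ < 1 / 2)
    (hq : (Ps q z).2 + ‖(Ps q z).1 - ctr 0 0‖ < 1 / 2) : p = q := by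
  rw [Ps_snd, Ps_fst] at hp hq
  have a1 := neg_abs_le (sg p.2 * z p.1)
  have a2 := neg_abs_le (sg q.2 * z q.1)
  rw [abs_mul, abs_sg, one_mul] at a1 a2
  have n1 := norm_nonneg (Lp p z).1
  have n2 := norm_nonneg (Lp q z).1
  by_cases h : p.1 = q.1
  · obtain ⟨i, b⟩ := p
    obtain ⟨i', b'⟩ := q
    obtain rfl : i = i' := h
    have : b = b' := by
      by_contra hb
      have hs : sg b * z i + sg b' * z i = 0 := by
        cases b <;> cases b' <;> simp [sg] at hb ⊢
      simp only at hp hq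
      linarith
    rw [this]
  · have b1 := other_le p z h
    have b2 := other_le q z (Ne.symm h)
    linarith

end CUB348

open CUB113 CUB348 in
theorem r_CUB3 : R_CUB3 := by
  intro m _ e g he h z hz
  have hterm : ∀ p : Fin (m + 1) × Bool, (∀ᶠ w in 𝓝 z, g (Ps p w) = 0) ∨
      (Ps p z).2 + ‖(Ps p z).1 - ctr 0 0‖ < 1 / 2 := fun p =>
    (h.sec _ (box p hz).2.1).imp_left fun h1 => (cont_Ps p).continuousAt.eventually h1
  by_cases hall : ∀ p : Fin (m + 1) × Bool, ∀ᶠ w in 𝓝 z, g (Ps p w) = 0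
  · refine ⟨_, eventually_all.2 hall, fun w hw w' hw' hww => ?_⟩
    have k : ∀ u : E m, (∀ p : Fin (m + 1) × Bool, g (Ps p u) = 0) → cubeMap e g u = e • u :=
      fun u hu => by
        rw [map_eq, Finset.sum_eq_zero fun p _ => by rw [hu p, map_zero], add_zero]
    rw [k w hw, k w' hw'] at hww
    exact smul_right_injective _ he.ne' hww
  · obtain ⟨p, hp⟩ := not_forall.1 hall
    have hs := (hterm p).resolve_left hp
    have e2 : ∀ᶠ w in 𝓝 z, ∀ q, q ≠ p → g (Ps q w) = 0 := by
      refine eventually_all.2 fun q => ?_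
      by_cases hq : q = p
      · exact Eventually.of_forall fun w hw => absurd hq hw
      · exact ((hterm q).resolve_right fun h1 => hq (strict_uniq h1 hs)).mono fun w hw _ => hw
    have n0 := norm_nonneg ((Ps p z).1 - ctr 0 0)
    have b0 := (box p hz).2.1
    obtain ⟨U, hU, hI⟩ := h.inj (Ps p z) (by linarith) b0 (by linarith)
    refine ⟨{w | (∀ q, q ≠ p → g (Ps q w) = 0) ∧ Ps p w ∈ U},
      e2.and ((cont_Ps p).continuousAt.preimage_mem_nhds hU), fun w hw w' hw' hww => ?_⟩
    have k : ∀ u : E m, (∀ q, q ≠ p → g (Ps q u) = 0) →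
        cubeMap e g u = swE p.1 p.2 ((start m e).L (Ps p u) + g (Ps p u)) := fun u hu => by
      rw [map_eq, Finset.sum_eq_single p]
      · rw [map_add, start_Ps, map_smul]
        simp only [swE_apply, sw_sw]
      · intro q _ hq
        rw [hu q hq, map_zero]
      · exact fun hh => absurd (Finset.mem_univ p) hh
    rw [k w hw.1, k w' hw'.1] at hww
    have h1 := hI hw.2 hw'.2 ((swE p.1 p.2).injective hww)
    exact (Lp p).injective (add_right_cancel h1)

end Pool.Agent.Lib.FQ
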