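import Pool.Agent.Lib.FQ.Kit2

/-! The decomposition of the linear part: extension, upper bound, reset of the distortion. -/

set_option autoImplicit false

open scoped Topology ENNReal NNReal RealInnerProductSpace Classical
open Metric Filter MeasureTheory Set

noncomputable section

namespace Pool.Agent.Lib.FQ

namespace DEC34

variable {m : ℕ}

theorem inner_sum_eq {i : ℕ} {v : ℕ → E m} (hu : ∀ l < i, ‖v l‖ = 1)
    (ho : ∀ l < i, ∀ l' < i, l ≠ l' → ⟪v l, v l'⟫ = 0) (c : ℕ → ℝ) {l : ℕ} (hl : l < i) :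
    ⟪v l, ∑ l' ∈ Finset.range i, c l' • v l'⟫ = c l := by
  rw [inner_sum, Finset.sum_eq_single l]
  · rw [real_inner_smul_right, real_inner_self_eq_norm_sq, hu l hl]; ring
  · intro l' h1 h2
    rw [real_inner_smul_right, ho l hl l' (Finset.mem_range.1 h1) (Ne.symm h2), mul_zero]
  · intro h; exact absurd (Finset.mem_range.2 hl) h

theorem abs_coef_le {i : ℕ} {v : ℕ → E m} (hu : ∀ l < i, ‖v l‖ = 1)
    (ho : ∀ l < i, ∀ l' < i, l ≠ l' → ⟪v l, v l'⟫ = 0) (c : ℕ → ℝ) {l : ℕ} (hl : l < i) :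
    |c l| ≤ ‖∑ l' ∈ Finset.range i, c l' • v l'‖ := by
  have h := abs_real_inner_le_norm (v l) (∑ l' ∈ Finset.range i, c l' • v l')
  rwa [inner_sum_eq hu ho c hl, hu l hl, one_mul] at h

theorem norm_le_three (hm : 1 ≤ m) {β : ℕ → X m} (hf : ∀ l < m + 1, ∃ f, β l = fc l f) (z : P m)
    {ω : ℝ} (hω : ∀ l < m + 1, |cv (β l) (8 ^ l) z| ≤ ω) : ‖z‖ ≤ 3 * ω := by
  have : Nonempty (Fin m) := ⟨⟨0, hm⟩⟩
  obtain ⟨i, hi⟩ := Finite.exists_max fun i => |z.1 i|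
  have h1 : ‖z.1‖ = |z.1 i| :=
    le_antisymm ((pi_norm_le_iff_of_nonneg (abs_nonneg _)).2 hi) (norm_le_pi_norm z.1 i)
  obtain ⟨f, hf1⟩ := hf i (by have := i.2; omega)
  obtain ⟨f', hf2⟩ := hf m (by omega)
  have h2 := hω i (by have := i.2; omega)
  have h3 := hω m (by omega)
  rw [hf1, cv_apply] at h2
  rw [hf2, cv_apply] at h3
  have h4 := abs_fc_sub i f z.1
  rw [cl_lt i.2] at h4
  have h5 := abs_fc_top_le f' z.1
  have h6 : |sg f.1 * z.1 i| = ‖z.1‖ := by rw [abs_mul, abs_sg, one_mul, h1]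
  have h7 : |(8 : ℝ) ^ (i : ℕ) * z.2| = 8 ^ (i : ℕ) * |z.2| := by
    rw [abs_mul, abs_of_nonneg (by positivity)]
  have h8 : |(8 : ℝ) ^ m * z.2| = 8 ^ m * |z.2| := by
    rw [abs_mul, abs_of_nonneg (by positivity)]
  have h9 : (8 : ℝ) ^ (i : ℕ) * 8 ≤ 8 ^ m := by
    rw [← pow_succ]; exact pow_le_pow_right₀ (by norm_num) i.2
  have h10 : (8 : ℝ) ≤ 8 ^ m := by
    have : (1 : ℝ) ≤ 8 ^ (i : ℕ) := one_le_pow₀ (by norm_num)
    linarith
  have ht := abs_nonneg z.2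
  have h11 : 8 ^ m * |z.2| ≤ ω + ‖z.1‖ / 2 := by
    rw [← h8]
    have := abs_sub (fc m f' ⬝ᵥ z.1 + 8 ^ m * z.2) (fc m f' ⬝ᵥ z.1)
    rw [add_sub_cancel_left] at this
    linarith
  have h12 : ‖z.1‖ ≤ ω + ‖z.1‖ / 2 + 8 ^ (i : ℕ) * |z.2| := by
    have h13 : sg f.1 * z.1 i = (fc i f ⬝ᵥ z.1 + 8 ^ (i : ℕ) * z.2) -
        (fc i f ⬝ᵥ z.1 - sg f.1 * z.1 i) - 8 ^ (i : ℕ) * z.2 := by ring
    have h14 := abs_sub ((fc i f ⬝ᵥ z.1 + 8 ^ (i : ℕ) * z.2) -
        (fc i f ⬝ᵥ z.1 - sg f.1 * z.1 i)) (8 ^ (i : ℕ) * z.2)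
    have h15 := abs_sub (fc i f ⬝ᵥ z.1 + 8 ^ (i : ℕ) * z.2) (fc i f ⬝ᵥ z.1 - sg f.1 * z.1 i)
    rw [← h13, h6, h7] at h14
    linarith
  have h16 : 8 ^ (i : ℕ) * |z.2| * 8 ≤ 8 ^ m * |z.2| := by nlinarith
  have h17 : 8 * |z.2| ≤ 8 ^ m * |z.2| := by nlinarith
  have h18 := norm_nonneg z.1
  rw [Prod.norm_def, Real.norm_eq_abs]
  exact max_le (by linarith) (by linarith)

end DEC34

theorem r_EXT : R_EXT := by
  intro m i a A B v β w f h hw ho
  have hv : ∀ l < i, Function.update v i w l = v l := fun l hl => Function.update_of_ne hl.ne _ _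
  have hβ : ∀ l < i, Function.update β i (fc i f) l = β l := fun l hl =>
    Function.update_of_ne hl.ne _ _
  refine ⟨h.small, fun l hl => ?_, fun l hl l' hl' hne => ?_, fun l hl => ?_, fun z => ?_⟩
  · rcases (Nat.lt_succ_iff.1 hl).lt_or_eq with h1 | rfl
    · rw [hv l h1]; exact h.unit l h1
    · rw [Function.update_self]; exact hw
  · rcases (Nat.lt_succ_iff.1 hl).lt_or_eq with h1 | rfl
    · rcases (Nat.lt_succ_iff.1 hl').lt_or_eq with h2 | rfl
      · rw [hv l h1, hv l' h2]; exact h.orth l h1 l' h2 hne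
      · rw [hv l h1, Function.update_self]; exact ho l h1
    · rcases (Nat.lt_succ_iff.1 hl').lt_or_eq with h2 | rfl
      · rw [hv l' h2, Function.update_self, real_inner_comm]; exact ho l' h2
      · exact absurd rfl hne
  · rcases (Nat.lt_succ_iff.1 hl).lt_or_eq with h1 | rfl
    · rw [hβ l h1]; exact h.face l h1
    · rw [Function.update_self]; exact ⟨f, rfl⟩
  · have h1 : ∑ l ∈ Finset.range i, cv (Function.update β i (fc i f) l) (8 ^ l) z •
        Function.update v i w l = ∑ l ∈ Finset.range i, cv (β l) (8 ^ l) z • v l :=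
      Finset.sum_congr rfl fun l hl => by
        rw [hv l (Finset.mem_range.1 hl), hβ l (Finset.mem_range.1 hl)]
    rw [Finset.sum_range_succ, h1, Function.update_self, Function.update_self,
      add_apply, ContinuousLinearMap.smulRight_apply, h.eq z, ← add_assoc,
      smul_add a (B z + _), smul_comm]

theorem r_UP : R_UP := by
  intro m i hi a A B v β ha h z
  have h8 : (1 : ℝ) ≤ 8 ^ m := one_le_pow₀ (by norm_num)
  have hz := norm_nonneg z
  have h1 : ∀ l ∈ Finset.range i, ‖cv (β l) (8 ^ l) z • v l‖ ≤ (2 + 8 ^ m) * ‖z‖ := by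
    intro l hl
    have hl' := Finset.mem_range.1 hl
    obtain ⟨f, hf⟩ := h.face l hl'
    rw [norm_smul, h.unit l hl', mul_one, Real.norm_eq_abs, hf]
    refine (abs_cv_le l f (by positivity) z).trans ?_
    have : (8 : ℝ) ^ l ≤ 8 ^ m := pow_le_pow_right₀ (by norm_num) (by omega)
    gcongr
  have h2 := (norm_sum_le _ _).trans (Finset.sum_le_sum h1)
  rw [Finset.sum_const, Finset.card_range, nsmul_eq_mul] at h2
  have h3 : (i : ℝ) ≤ (m : ℝ) + 1 := by exact_mod_cast hi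
  have h4 : (i : ℝ) * ((2 + 8 ^ m) * ‖z‖) ≤ ((m : ℝ) + 1) * ((2 + 8 ^ m) * ‖z‖) := by gcongr
  have h5 := norm_add_le (B z) (∑ l ∈ Finset.range i, cv (β l) (8 ^ l) z • v l)
  have h6 := h.small z
  have h7 : (0 : ℝ) ≤ (m : ℝ) * ‖z‖ := by positivity
  have h9 : ‖B z + ∑ l ∈ Finset.range i, cv (β l) (8 ^ l) z • v l‖ ≤
      ((m : ℝ) + 1) * (12 + 8 ^ m) * ‖z‖ := by nlinarith
  rw [h.eq z, norm_smul, Real.norm_eq_abs, abs_of_nonneg ha]
  calc _ ≤ a * (((m : ℝ) + 1) * (12 + 8 ^ m) * ‖z‖) := by gcongr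
    _ = _ := by ring

theorem r_RESET : R_RESET := by
  intro m hm a A B v β ha h z
  have h1 := DEC34.norm_le_three hm h.face z fun l hl =>
    DEC34.abs_coef_le h.unit h.orth (fun l => cv (β l) (8 ^ l) z) hl
  have h2 := norm_sub_le (B z + ∑ l ∈ Finset.range (m + 1), cv (β l) (8 ^ l) z • v l) (B z)
  rw [add_sub_cancel_left] at h2
  have h3 := h.small z
  rw [h.eq z, norm_smul, Real.norm_eq_abs, abs_of_nonneg ha]
  have h4 : ‖z‖ ≤ 12 * ‖B z + ∑ l ∈ Finset.range (m + 1), cv (β l) (8 ^ l) z • v l‖ := by linarith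
  calc _ ≤ a * (12 * ‖B z + ∑ l ∈ Finset.range (m + 1), cv (β l) (8 ^ l) z • v l‖) := by gcongr
    _ = _ := by ring

end Pool.Agent.Lib.FQ
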