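import Pool.Agent.Lib.FQ.Kit2

/-! Row DER: bound and differentiability of the limit map. -/

set_option autoImplicit false

open scoped Topology ENNReal NNReal RealInnerProductSpace Classical
open Metric Filter MeasureTheory Set

noncomputable section

namespace Pool.Agent.Lib.FQ

namespace DER10

variable {m : ℕ}

theorem ae_snd : ∀ᵐ z : P m, ∀ k, z.2 ≠ sd k :=
  ae_all_iff.2 fun k => (Measure.quasiMeasurePreserving_snd (μ := volume) (ν := volume)).ae
    ((countable_singleton (sd k)).ae_notMem volume)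

theorem ae_fst : ∀ᵐ z : P m, ∀ (k : ℕ) (n : ℤ) (i : Fin m), z.1 i ≠ n * sd k :=
  ae_all_iff.2 fun k => ae_all_iff.2 fun n => ae_all_iff.2 fun i =>
    (Measure.quasiMeasurePreserving_fst (μ := volume) (ν := volume)).ae
      (Measure.ae_eval_ne (fun _ : Fin m => (volume : Measure ℝ)) i (n * sd k))

theorem cell_nhds {x : X m} (h : ∀ (k : ℕ) (n : ℤ) (i : Fin m), x i ≠ n * sd k) (k : ℕ) :
    cell k (idx k x) ∈ 𝓝 x := by
  rw [cell_eq_pi]
  refine set_pi_mem_nhds finite_univ fun i _ => ?_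
  have h1 := mem_cell.1 (mem_cell_idx k x) i
  exact Ico_mem_nhds (lt_of_le_of_ne h1.1 (h k _ i).symm) h1.2

end DER10

open DER10

theorem r_DER : R_DER := by
  intro hN hR m V ψ K cs δ S0 st hs
  refine ⟨fun z hz h0 h1 => ?_, ?_⟩
  · obtain ⟨k, k1, k2⟩ := exists_level h0 h1
    have F := hN m V ψ K cs δ S0 st hs z.1 hz k
    rw [hR m V ψ K cs δ S0 st hs k z hz k1 k2]
    exact (hs.dyn _ F.v).bd z F.mem h0.le (k2.trans (sd_anti F.le))
  · have h1 : ∀ᵐ z : P m, ∀ (k : ℕ) (j : Ix m), V (node S0 st k j) → ∃ A', HasFDerivAt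
        (fun z => (node S0 st k j).L z + (st (node S0 st k j)).inc z) A' z ∧ Good K A' := by
      refine ae_all_iff.2 fun k => ae_all_iff.2 fun j => ?_
      by_cases hV : V (node S0 st k j)
      · exact (hs.geom _ hV).der.mono fun z hz _ => hz
      · exact Eventually.of_forall fun z h => absurd h hV
    filter_upwards [h1, ae_snd, ae_fst] with z z1 z2 z3 hz h0 h1
    obtain ⟨k, k1, k2⟩ := exists_level h0 h1
    have F := hN m V ψ K cs δ S0 st hs z.1 hz k
    obtain ⟨A, hA, hG⟩ := z1 k _ F.v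
    refine ⟨A, hA.congr_of_eventuallyEq ?_, hG⟩
    filter_upwards [continuous_fst.continuousAt.preimage_mem_nhds (cell_nhds z3 k),
      continuous_snd.continuousAt.preimage_mem_nhds
        (Ioo_mem_nhds k1 (lt_of_le_of_ne k2 (z2 k)))] with w w1 w2
    have e : idx k w.1 = idx k z.1 := w1
    rw [hR m V ψ K cs δ S0 st hs k w (cell_subset (Nat.zero_le k) hz w1) w2.1 w2.2.le, e]

end Pool.Agent.Lib.FQ
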