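import Pool.Agent.Lib.FQ.Kit2

/-! The dichotomy step: an inward direction after the last tent of a cycle. -/

set_option autoImplicit false

open scoped Topology ENNReal NNReal RealInnerProductSpace Classical
open Metric Filter MeasureTheory Set

noncomputable section

namespace Pool.Agent.Lib.FQ

namespace DICH18

theorem norm_le_sum {m : ℕ} (v : ℕ → E m) (w : E m) (h1 : ∀ l < m, ‖v l‖ = 1)
    (h2 : ∀ l < m, ∀ l' < m, l ≠ l' → ⟪v l, v l'⟫ = 0) (hw : ‖w‖ = 1)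
    (h3 : ∀ l < m, ⟪v l, w⟫ = 0) (y : E m) :
    ‖y‖ ≤ ∑ l ∈ Finset.range m, |⟪y, v l⟫| + |⟪y, w⟫| := by
  let u : ℕ → E m := fun l => if l < m then v l else w
  have hu1 : ∀ l, ‖u l‖ = 1 := by
    intro l
    by_cases h : l < m
    · simp only [u, if_pos h]; exact h1 l h
    · simp only [u, if_neg h]; exact hw
  have hon : Orthonormal ℝ (fun l : Fin (m + 1) => u l) := by
    refine ⟨fun l => hu1 l, ?_⟩
    intro l l' hne
    have hne' : (l : ℕ) ≠ (l' : ℕ) := fun h => hne (Fin.ext h)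
    have b1 := l.2
    have b2 := l'.2
    by_cases h : (l : ℕ) < m <;> by_cases h' : (l' : ℕ) < m
    · simp only [u, if_pos h, if_pos h']; exact h2 _ h _ h' hne'
    · simp only [u, if_pos h, if_neg h']; exact h3 _ h
    · simp only [u, if_neg h, if_pos h']; rw [real_inner_comm]; exact h3 _ h'
    · omega
  have hsp : ⊤ ≤ Submodule.span ℝ (Set.range fun l : Fin (m + 1) => u l) :=
    (hon.linearIndependent.span_eq_top_of_card_eq_finrank (by simp)).ge
  have hy := (OrthonormalBasis.mk hon hsp).sum_repr' y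
  simp only [OrthonormalBasis.coe_mk] at hy
  have h4 : ‖y‖ ≤ ∑ l : Fin (m + 1), |⟪y, u l⟫| := by
    conv_lhs => rw [← hy]
    refine (norm_sum_le _ _).trans (le_of_eq (Finset.sum_congr rfl fun l _ => ?_))
    rw [norm_smul, hu1, mul_one, Real.norm_eq_abs, real_inner_comm]
  rw [Fin.sum_univ_eq_sum_range (fun l => |⟪y, u l⟫|) (m + 1), Finset.sum_range_succ] at h4
  have h5 : ∑ l ∈ Finset.range m, |⟪y, u l⟫| = ∑ l ∈ Finset.range m, |⟪y, v l⟫| :=
    Finset.sum_congr rfl fun l hl => by simp only [u, if_pos (Finset.mem_range.1 hl)]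
  have h6 : u m = w := by simp only [u, if_neg (lt_irrefl m)]
  rw [h5, h6] at h4
  exact h4

theorem term_ge {T s S y p e : ℝ} (hs : 0 ≤ s) (hS : s ≤ S) (hp : y * p = T * |y|)
    (he : |e| ≤ T / 2) : (T / 2 - S) * |y| ≤ (p + e + s) * y := by
  have h1 : |e * y| ≤ T / 2 * |y| := by
    rw [abs_mul]; exact mul_le_mul_of_nonneg_right he (abs_nonneg y)
  have h2 : |s * y| ≤ S * |y| := by
    rw [abs_mul, abs_of_nonneg hs]; exact mul_le_mul_of_nonneg_right hS (abs_nonneg y)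
  have h3 := neg_abs_le (e * y)
  have h4 := neg_abs_le (s * y)
  nlinarith

end DICH18

theorem r_DICH : R_DICH := by
  intro m i0 a A B v β w ha hD hw hvw y
  have hp : (1 : ℝ) ≤ 8 ^ m := one_le_pow₀ (by norm_num)
  obtain ⟨T, hT⟩ : ∃ T : ℝ, T = 4 * 8 ^ m + 4 := ⟨_, rfl⟩
  have hT0 : 0 ≤ T := by linarith
  have hface : ∀ l : Fin m, ∃ f, β l = fc l f := fun l => hD.face l l.2
  choose f hf using hface
  have hsg : ∀ l : Fin m, ∃ b, sg b * ⟪y, v l⟫ = |⟪y, v l⟫| := fun l => exists_sg _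
  choose c hc using hsg
  let x : X m := fun l => T * sg (f l).1 * sg (c l)
  have hxl : ∀ l, |x l| = T := by
    intro l
    simp only [x, abs_mul, abs_sg, mul_one, abs_of_nonneg hT0]
  have hx : ‖x‖ ≤ T := (pi_norm_le_iff_of_nonneg hT0).2 fun l => (hxl l).le
  obtain ⟨b, hb⟩ := exists_sg (⟪y, w⟫ * x i0)
  refine ⟨b, (x, 1), rfl, hT ▸ hx, ?_⟩
  have hu : ‖((x, 1) : P m)‖ ≤ T := by
    rw [Prod.norm_def]
    refine max_le hx ?_
    simp only [norm_one]; linarith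
  have hB : -(‖y‖ * (T / 4)) ≤ ⟪y, B (x, 1)⟫ := by
    have h1 := abs_real_inner_le_norm y (B (x, 1))
    have h2 := hD.small (x, 1)
    have h3 : ‖y‖ * ‖B (x, 1)‖ ≤ ‖y‖ * (T / 4) :=
      mul_le_mul_of_nonneg_left (by linarith) (norm_nonneg y)
    have h4 := neg_abs_le ⟪y, B (x, 1)⟫
    linarith
  have hl : ∀ l ∈ Finset.range m,
      (T / 2 - 8 ^ m) * |⟪y, v l⟫| ≤ cv (β l) (8 ^ l) (x, 1) * ⟪y, v l⟫ := by
    intro l hl
    have hl' : l < m := Finset.mem_range.1 hl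
    have e1 : β l = fc l (f ⟨l, hl'⟩) := hf ⟨l, hl'⟩
    have e2 := abs_fc_sub l (f ⟨l, hl'⟩) x
    have e3 : ⟪y, v l⟫ * (sg (f ⟨l, hl'⟩).1 * cl l x) = T * |⟪y, v l⟫| := by
      rw [cl_lt hl', ← hc ⟨l, hl'⟩]
      have := sg_sq (f ⟨l, hl'⟩).1
      simp only [x]
      linear_combination (⟪y, v l⟫ * T * sg (c ⟨l, hl'⟩)) * this
    have e4 := DICH18.term_ge (T := T) (s := (8 : ℝ) ^ l) (S := 8 ^ m) (by positivity)
      (pow_le_pow_right₀ (by norm_num) hl'.le) e3 (e2.trans (by linarith : ‖x‖ / 2 ≤ T / 2))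
    rw [cv_apply, e1]
    refine e4.trans (le_of_eq ?_)
    ring
  have hm : (T / 2 - 8 ^ m) * |⟪y, w⟫| ≤
      cv (Pi.single i0 (sg b / 2)) (8 ^ m) ((x, 1) : P m) * ⟪y, w⟫ := by
    rw [cv_apply, single_dotProduct]
    rw [abs_mul, hxl] at hb
    have h1 := neg_abs_le ⟪y, w⟫
    have h2 : 0 ≤ (8 : ℝ) ^ m * (|⟪y, w⟫| + ⟪y, w⟫) := mul_nonneg (by linarith) (by linarith)
    simp only
    nlinarith
  have hsum := Finset.sum_le_sum hl
  rw [← Finset.mul_sum] at hsum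
  have hy := DICH18.norm_le_sum v w hD.unit hD.orth hw hvw y
  have hk : 0 ≤ T / 2 - 8 ^ m := by linarith
  have hy' := mul_le_mul_of_nonneg_left hy hk
  rw [_root_.add_apply, ContinuousLinearMap.smulRight_apply, hD.eq, inner_add_right,
    inner_smul_right, inner_smul_right, inner_smul_right, inner_add_right, inner_sum]
  simp only [inner_smul_right]
  have key : ‖y‖ ≤ ⟪y, B (x, 1)⟫ + ∑ l ∈ Finset.range m, cv (β l) (8 ^ l) (x, 1) * ⟪y, v l⟫ +
      cv (Pi.single i0 (sg b / 2)) (8 ^ m) ((x, 1) : P m) * ⟪y, w⟫ := by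
    have e : (T / 2 - 8 ^ m) * ‖y‖ - ‖y‖ * (T / 4) = ‖y‖ := by rw [hT]; ring
    linarith
  have := mul_le_mul_of_nonneg_left key ha
  linarith

end Pool.Agent.Lib.FQ
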