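import Pool.Agent.Lib.FQ.Kit2

/-! Row INIT: the first step. -/

set_option autoImplicit false

open scoped Topology ENNReal NNReal RealInnerProductSpace Classical
open Metric Filter MeasureTheory Set

noncomputable section

namespace Pool.Agent.Lib.FQ

namespace INIT72

variable {m : ℕ} {S : St m} {M : ℝ} {k' : ℕ} {j' : Ix m}

theorem ins (h : Adm m M S.k S.j k' j') (hs : cell k' j' ⊆ S.D) :
    ∃ f, Inside m M S.k S.j k' j' f := h.2.resolve_right (not_outside_top hs)

theorem child (h : Adm m M S.k S.j k' j') (hs : cell k' j' ⊆ S.D) :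
    tch S m 1 M 0 S.a 1 k' j' = ⟨k', j', S.A, S.b, S.a, 1⟩ := by
  obtain ⟨f, -, e⟩ := tch_inside (s := 1) (V := 0) (a' := S.a) (tg := 1) (ins h hs)
  rw [e]
  congr 1
  · exact ContinuousLinearMap.ext fun z => by simp
  · simp

end INIT72

open INIT72 in
theorem r_INIT : R_INIT := by
  intro hG hP m κ hκ S hS h0
  have hl := hS.lam_pos
  have hρ : 0 ≤ S.lam ^ (-κ.θ) := Real.rpow_nonneg hl.le _
  have hM : 1 ≤ κ.M := by linarith [hκ.T_ge, hκ.T_le_M]
  obtain ⟨W, w1, w2, w3⟩ := hP m κ.M κ.C1 κ.θ hκ.whit hκ.C1_nonneg hκ.θ_pos hκ.θ_half m le_rfl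
    S.k S.j 0 (fun i => by simp) 2 2 _ zero_le_two le_rfl le_rfl hρ
  have near : ∀ z : P m, z.1 ∈ S.D → 0 ≤ z.2 → z.2 ≤ sd S.k → dd S.y / 2 ≤ dd (S.L z) :=
    fun z a b c => hS.disp hκ ((hS.box hκ a b c).trans (by nlinarith))
  refine ⟨tstep S m 1 κ.M 0 S.a 1 W, hG m hκ.hm κ.K S m 1 κ.M κ.C1 0 S.a 1 W le_rfl le_rfl hM
    hκ.whit (hS.good hκ) fun f => ?_, ?_, ?_, w1, w2.trans ?_, ?_, fun _ _ h => h.elim, ?_⟩
  · have : S.A + (cv (fc m f) 1).smulRight 0 = S.A :=
      ContinuousLinearMap.ext fun z => by simp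
    rw [this]; exact hS.good hκ
  · intro z a b c
    have := near z a b c
    simp only [tstep, smul_zero, add_zero]
    exact norm_le_one_of_dd (by linarith [hS.dd_pos hκ])
  · intro k' j' ha hs
    have e := child ha hs
    simp only [tstep]
    rw [e]
    have h1 := near (ctr k' j', 0) (hs (ctr_mem _ _)) le_rfl (sd_pos _).le
    have h2 := sd_le_eighth ha.1
    refine ⟨hS.a_pos, ?_, hS.det, fun _ => ?_, by simp, fun _ => hS.iso0 (by omega),
      fun h => by simp at h, fun h => by simp at h⟩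
    · have h3 : S.a * sd k' ≤ S.lam / 8 := by
        have := mul_le_mul_of_nonneg_left h2 hS.a_pos.le
        rw [St.lam]; linarith
      have h4 := mul_le_mul_of_nonneg_left h1 hκ.c_pos.le
      exact (show S.a * sd k' ≤ κ.c * dd (S.L (ctr k' j', 0)) by linarith [hS.size])
    · exact lt_of_lt_of_le (by omega) ha.1
  · refine mul_le_mul_left (ENNReal.ofReal_le_ofReal ?_) _
    have h1 : kap κ S = 16 := if_pos h0
    have h2 : 4 * κ.θ * κ.C1 ≤ 1 := by
      nlinarith [hκ.θC, hκ.g_pos, hκ.g_le', hκ.q_pos, hκ.q_le]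
    have h3 : κ.δ ≤ 1 / 2 := by linarith [hκ.δ_le, hκ.g_le']
    rw [psi, h1]
    nlinarith
  · intro x hx k' ha hf
    have e := child ha (cell_subset (by have := ha.1; omega) hx)
    refine Or.inr ?_
    simp only [tstep]
    rw [e, psi_child (S := S) (S' := ⟨k', idx k' x, S.A, S.b, S.a, 1⟩) one_pos hS.a_pos
      (one_mul _).symm, Real.one_rpow, one_mul]
    have hk : kap κ (⟨k', idx k' x, S.A, S.b, S.a, 1⟩ : St m) ≤ 2 := kap_le_two hκ one_ne_zero
    refine w3 x hx k' ha hf _ ?_ hk fun _ => hk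
    unfold kap
    split_ifs <;> linarith [hκ.γ_pos]
  · intro hk
    refine ⟨fun z => smul_zero _, fun k' j' ha hs x hx => ?_⟩
    obtain ⟨f, hf⟩ := ins ha hs
    have h1 := (hf x hx).2
    have h2 := sd_pos k'
    have h3 := sd_le_eighth ha.1
    rw [Nl_top] at h1
    rw [hk, sd_zero] at h1 h3
    rw [hk]
    nlinarith [hκ.T_ge, hκ.T_le_M]

end Pool.Agent.Lib.FQ
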