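import Pool.Agent.Lib.FQ.Kit2

/-! The sum of the increments is locally Lipschitz and lives in the sector. -/

set_option autoImplicit false

open scoped Topology ENNReal NNReal RealInnerProductSpace Classical
open Metric Filter MeasureTheory Set

noncomputable section

namespace Pool.Agent.Lib.FQ

namespace LOC84

variable {m : ℕ} {V : St m → Prop} {ψ : St m → ℝ} {K cs δ : ℝ} {S0 : St m} {st : St m → Step m}

theorem act (hN : St_NODE) (hs : Sys V ψ K cs δ S0 st) {k : ℕ} {j : Ix m} (hj : j ∈ cubes m k)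
    (h : (node S0 st k j).k = k) : V (node S0 st k j) ∧ (node S0 st k j).D = cell k j := by
  have h1 := hN m V ψ K cs δ S0 st hs _ (cell_subset_unit hj (ctr_mem k j)) k
  have h2 := h1.v
  have h3 := h1.mem
  rw [idx_ctr] at h2 h3
  refine ⟨h2, ?_⟩
  unfold St.D at h3 ⊢
  rw [h] at h3 ⊢
  rw [← idx_of_mem h3, idx_ctr]

theorem lip_sum {ι α β : Type} [PseudoEMetricSpace α] [SeminormedAddCommGroup β] (s : Finset ι)
    (f : ι → α → β) (h : ∀ i ∈ s, ∃ C : ℝ≥0, LipschitzWith C (f i)) :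
    ∃ C : ℝ≥0, LipschitzWith C fun z => ∑ i ∈ s, f i z := by
  induction s using Finset.induction_on with
  | empty => exact ⟨0, by simpa using LipschitzWith.const (0 : β)⟩
  | insert a s ha ih =>
    obtain ⟨C, hC⟩ := h a (Finset.mem_insert_self _ _)
    obtain ⟨C', hC'⟩ := ih fun i hi => h i (Finset.mem_insert_of_mem hi)
    exact ⟨C + C', by simpa only [Finset.sum_insert ha] using hC.add hC'⟩

theorem lay_lip (hN : St_NODE) (hs : Sys V ψ K cs δ S0 st) (k : ℕ) :
    ∃ C : ℝ≥0, LipschitzWith C (lay S0 st k) := by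
  refine lip_sum (cubes m k)
    (fun j z => if (node S0 st k j).k = k then (st (node S0 st k j)).inc z else 0) fun j hj => ?_
  by_cases h : (node S0 st k j).k = k
  · simpa only [if_pos h] using (hs.geom _ (act hN hs hj h).1).lip
  · exact ⟨0, by simpa only [if_neg h] using LipschitzWith.const (0 : E m)⟩

theorem lay_ne (hN : St_NODE) (hs : Sys V ψ K cs δ S0 st) {k : ℕ} {z : P m} (h0 : 0 ≤ z.2)
    (h : lay S0 st k z ≠ 0) : z.1 ∈ cell 0 (0 : Ix m) ∧ z.2 < sd k / 2 ∧ k ≠ 0 ∧
      (node S0 st k (idx k z.1)).k = k := by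
  obtain ⟨j, hj, h1⟩ := Finset.exists_ne_zero_of_sum_ne_zero h
  have h2 : (node S0 st k j).k = k := by
    by_contra h2
    exact h1 (if_neg h2)
  rw [if_pos h2] at h1
  obtain ⟨hV, hD⟩ := act hN hs hj h2
  obtain ⟨h3, h4⟩ := (hs.geom _ hV).supp z h0 h1
  rw [hD] at h3
  rw [h2] at h4
  refine ⟨cell_subset_unit hj h3, h4, fun hk => ?_, by rw [idx_of_mem h3]; exact h2⟩
  exact h1 (((hs.dyn _ hV).sec (h2.trans hk)).1 z)

theorem first (x : X m) (k : ℕ) :
    node S0 st k (idx k x) = S0 ∨ ∃ k1 ≤ k, (st S0).adm k1 (idx k1 x) := by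
  induction k with
  | zero => exact Or.inl rfl
  | succ k ih =>
    rcases ih with ih | ⟨k1, h1, h2⟩
    · by_cases h : (st S0).adm (k + 1) (idx (k + 1) x)
      · exact Or.inr ⟨k + 1, le_rfl, h⟩
      · left
        rw [node_succ, ih, if_neg h]
    · exact Or.inr ⟨k1, by omega, h2⟩

end LOC84

open LOC84 in
theorem r_LOC : R_LOC := by
  intro hN m V ψ K cs δ S0 st hs
  refine ⟨fun τ hτ => ?_, fun z hz h => ?_⟩
  · obtain ⟨N, hNτ⟩ := exists_sd_lt hτ
    obtain ⟨C, hC⟩ := lip_sum (Finset.range N) (lay S0 st) fun k _ => lay_lip hN hs k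
    refine ⟨C, fun z hz z' hz' => ?_⟩
    have key : ∀ z : P m, τ < z.2 → gsum S0 st z = ∑ k ∈ Finset.range N, lay S0 st k z := by
      intro z hz
      refine tsum_eq_sum fun k hk => ?_
      by_contra h
      have h1 := (lay_ne hN hs (by linarith) h).2.1
      have h2 : sd k ≤ sd N := sd_anti (by simpa using hk)
      linarith [sd_pos k]
    rw [key z hz, key z' hz']
    exact hC z z'
  · have : ∃ k, lay S0 st k z ≠ 0 := by
      by_contra h1
      push Not at h1
      exact h (by simp [gsum, h1])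
    obtain ⟨k, hk⟩ := this
    obtain ⟨h1, h2, h3, h4⟩ := lay_ne hN hs hz.le hk
    rcases first (S0 := S0) (st := st) z.1 k with h5 | ⟨k1, h5, h6⟩
    · rw [h5, hs.k0] at h4
      exact absurd h4.symm h3
    · have h7 : S0.D = cell 0 0 := by unfold St.D; rw [hs.k0, hs.j0]
      have h8 := ((hs.dyn _ hs.v0).sec hs.k0).2 k1 _ h6
        (h7 ▸ cell_subset (Nat.zero_le k1) h1) z.1 (mem_cell_idx k1 z.1)
      rw [hs.k0, hs.j0] at h8
      linarith [sd_anti h5, sd_pos k]

end Pool.Agent.Lib.FQ
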