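import Pool.Agent.Lib.FQ.Kit2

/-! Block REP: between two consecutive heights, the sum of all increments is the last step. -/

set_option autoImplicit false

open scoped Topology ENNReal NNReal RealInnerProductSpace Classical
open Metric Filter MeasureTheory Set

noncomputable section

namespace Pool.Agent.Lib.FQ

namespace REP23

variable {m : ℕ} {V : St m → Prop} {ψ : St m → ℝ} {K cs δ : ℝ} {S0 : St m} {st : St m → Step m}

/-- only the cube that contains the foot point contributes to a layer -/
theorem lay_single (hS : Sys V ψ K cs δ S0 st)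
    (hN : ∀ x ∈ cell 0 (0 : Ix m), ∀ k, NodeF V S0 st k x) (k : ℕ) {z : P m}
    (hz : z.1 ∈ cell 0 (0 : Ix m)) (ht : 0 ≤ z.2) :
    lay S0 st k z = if (node S0 st k (idx k z.1)).k = k then
      (st (node S0 st k (idx k z.1))).inc z else 0 := by
  unfold lay
  refine Finset.sum_eq_single (idx k z.1) (fun j hj hne => ?_)
    (fun h => absurd (idx_mem_cubes k hz) h)
  split_ifs with hk
  · by_contra hne0
    have hF := hN (ctr k j) (cell_subset_unit hj (ctr_mem k j)) k
    have hv := hF.v
    have hm := hF.mem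
    rw [idx_ctr] at hv hm
    have h1 := ((hS.geom _ hv).supp z ht hne0).1
    unfold St.D at hm h1
    rw [hk] at hm h1
    exact hne (((idx_ctr k j).symm.trans (idx_of_mem hm)).trans (idx_of_mem h1).symm)
  · rfl

/-- the partial sums of the layers below height `sd k` -/
theorem partial_sum (hS : Sys V ψ K cs δ S0 st)
    (hN : ∀ x ∈ cell 0 (0 : Ix m), ∀ k, NodeF V S0 st k x) {z : P m}
    (hz : z.1 ∈ cell 0 (0 : Ix m)) (ht : 0 ≤ z.2) (k : ℕ) (hk : z.2 ≤ sd k) :
    S0.L z + ∑ k' ∈ Finset.range (k + 1), lay S0 st k' z =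
      (node S0 st k (idx k z.1)).L z + (st (node S0 st k (idx k z.1))).inc z := by
  induction k with
  | zero =>
    rw [Finset.sum_range_one, lay_single hS hN 0 hz ht]
    have h0 : node S0 st 0 (idx 0 z.1) = S0 := rfl
    rw [h0, if_pos hS.k0]
  | succ k ih =>
    have hF := hN z.1 hz k
    have hG := hS.geom _ hF.v
    rw [Finset.sum_range_succ, ← add_assoc, ih (hk.trans (sd_anti (Nat.le_succ k))),
      lay_single hS hN (k + 1) hz ht, node_succ]
    by_cases ha : (st (node S0 st k (idx k z.1))).adm (k + 1) (idx (k + 1) z.1)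
    · rw [if_pos ha, if_pos (hG.chk _ _).1, hG.aff _ _ ha z (mem_cell_idx _ _) ht hk]
    · have hle := hF.le
      rw [if_neg ha, if_neg (by omega), add_zero]

/-- the later layers vanish above height `sd (k + 1)` -/
theorem lay_late (hS : Sys V ψ K cs δ S0 st)
    (hN : ∀ x ∈ cell 0 (0 : Ix m), ∀ k, NodeF V S0 st k x) {z : P m}
    (hz : z.1 ∈ cell 0 (0 : Ix m)) {k k' : ℕ} (hk : sd (k + 1) < z.2) (hk' : k ≤ k') :
    lay S0 st k' z = 0 := by
  have ht : 0 ≤ z.2 := (sd_pos _).le.trans hk.le
  rw [lay_single hS hN k' hz ht]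
  split_ifs with h
  · by_contra hne
    have h1 := ((hS.geom _ (hN z.1 hz k').v).supp z ht hne).2
    rw [h] at h1
    have h2 := sd_anti hk'
    have h3 := sd_succ k
    linarith
  · rfl

end REP23

theorem r_REP : R_REP := by
  intro hN m V ψ K cs δ S0 st hS k z hz h1 h2
  have hN' := hN m V ψ K cs δ S0 st hS
  have ht : 0 ≤ z.2 := (sd_pos _).le.trans h1.le
  have hg : gsum S0 st z = ∑ k' ∈ Finset.range (k + 1), lay S0 st k' z := by
    unfold gsum
    refine tsum_eq_sum fun k' hk' => REP23.lay_late hS hN' hz h1 ?_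
    rw [Finset.mem_range] at hk'
    omega
  rw [hg]
  exact REP23.partial_sum hS hN' hz ht k h2

end Pool.Agent.Lib.FQ
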