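import Pool.Agent.Lib.FQ.Blue2
import Pool.Agent.Lib.FQ.B_REP
import Pool.Agent.Lib.FQ.B_LOC

/-! Block LOC2: near every point the sum of the increments is the map of one step. -/

set_option autoImplicit false

open scoped Topology ENNReal NNReal RealInnerProductSpace Classical
open Metric Filter MeasureTheory Set

noncomputable section

namespace Pool.Agent.Lib.FQ

namespace LOC10

variable {m : ℕ} {V : St m → Prop} {ψ : St m → ℝ} {K cs δ : ℝ} {S0 : St m} {st : St m → Step m}

/-- an increment of generation `k` is alive near `z` -/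
def Act (S0 : St m) (st : St m → Step m) (z : P m) (k : ℕ) : Prop :=
  ∃ j ∈ cubes m k, (node S0 st k j).k = k ∧ ¬ ∀ᶠ z' in 𝓝 z, (st (node S0 st k j)).inc z' = 0

theorem lay_zero {z : P m} {k : ℕ} (h : ¬ Act S0 st z k) :
    ∀ᶠ z' in 𝓝 z, lay S0 st k z' = 0 := by
  have h1 : ∀ j ∈ cubes m k, ∀ᶠ z' in 𝓝 z,
      (if (node S0 st k j).k = k then (st (node S0 st k j)).inc z' else 0) = 0 := by
    intro j hj
    by_cases hk : (node S0 st k j).k = k
    · have h2 : ∀ᶠ z' in 𝓝 z, (st (node S0 st k j)).inc z' = 0 := by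
        by_contra h2
        exact h ⟨j, hj, hk, h2⟩
      filter_upwards [h2] with z' hz'
      rw [if_pos hk, hz']
    · exact Eventually.of_forall fun z' => if_neg hk
  filter_upwards [(Filter.eventually_all_finset _).2 h1] with z' hz'
  exact Finset.sum_eq_zero hz'

theorem gsum_eq (hN : St_NODE) (hs : Sys V ψ K cs δ S0 st) {N : ℕ} {z : P m} (hz : sd N < z.2) :
    gsum S0 st z = ∑ k ∈ Finset.range N, lay S0 st k z := by
  refine tsum_eq_sum fun k hk => ?_
  by_contra h
  have h1 := (LOC84.lay_ne hN hs ((sd_pos N).le.trans hz.le) h).2.1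
  have h2 : sd k ≤ sd N := sd_anti (by simpa using hk)
  linarith [sd_pos k]

theorem act_near (hN : St_NODE) (hs : Sys V ψ K cs δ S0 st) (h2 : ∀ S, V S → Geom2 S (st S))
    {z : P m} (hz : 0 < z.2) {k : ℕ} {j : Ix m} (hj : j ∈ cubes m k) (hk : (node S0 st k j).k = k)
    (h : ¬ ∀ᶠ z' in 𝓝 z, (st (node S0 st k j)).inc z' = 0) :
    ‖z.1 - ctr k j‖ < sd k / 2 ∧ z.2 < sd k / 2 := by
  obtain ⟨hV, hD⟩ := LOC84.act hN hs hj hk
  have h3 := ((h2 _ hV).near z hz).resolve_left h
  have h4 : (node S0 st k j).j = j := by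
    have h5 : ctr k j ∈ (node S0 st k j).D := hD ▸ ctr_mem k j
    unfold St.D at h5
    rw [hk] at h5
    exact (idx_of_mem h5).symm.trans (idx_ctr k j)
  rwa [hk, h4] at h3

theorem dich (hN : St_NODE) (hs : Sys V ψ K cs δ S0 st) (h2 : ∀ S, V S → Geom2 S (st S))
    {z : P m} (hz : 0 < z.2) : (∀ᶠ z' in 𝓝 z, gsum S0 st z' = 0) ∨
      ∃ k, ∃ j ∈ cubes m k, (node S0 st k j).k = k ∧ k ≠ 0 ∧ z.1 ∈ cell k j ∧ z.2 < sd k / 2 ∧
        ∀ᶠ z' in 𝓝 z, S0.L z' + gsum S0 st z' =
          (node S0 st k j).L z' + (st (node S0 st k j)).inc z' := by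
  obtain ⟨N, hNz⟩ := exists_sd_lt hz
  have e0 : ∀ᶠ z' in 𝓝 z, sd N < z'.2 := continuous_snd.continuousAt.eventually (lt_mem_nhds hNz)
  have hlt : ∀ k, Act S0 st z k → k < N := by
    rintro k ⟨j, hj, hk, h⟩
    have h3 := (act_near hN hs h2 hz hj hk h).2
    by_contra h4
    have h5 : sd k ≤ sd N := sd_anti (not_lt.1 h4)
    linarith [sd_pos k]
  by_cases hex : ∃ k, Act S0 st z k
  · right
    obtain ⟨k0, hk0⟩ := hex
    have hA : Act S0 st z (Nat.findGreatest (Act S0 st z) N) :=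
      Nat.findGreatest_spec (hlt k0 hk0).le hk0
    have hB : ∀ k', Nat.findGreatest (Act S0 st z) N < k' → k' ≤ N → ¬ Act S0 st z k' :=
      fun k' h h' => Nat.findGreatest_is_greatest h h'
    generalize Nat.findGreatest (Act S0 st z) N = k at hA hB
    have hkN := hlt k hA
    obtain ⟨j, hj, hk, h⟩ := hA
    obtain ⟨h3, h4⟩ := act_near hN hs h2 hz hj hk h
    have hV := (LOC84.act hN hs hj hk).1
    refine ⟨k, j, hj, hk, fun h0 => ?_, mem_cell_of_norm_lt h3, h4, ?_⟩
    · exact h (Eventually.of_forall ((hs.dyn _ hV).sec (hk.trans h0)).1)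
    · have e1 : ∀ᶠ z' in 𝓝 z, ‖z'.1 - ctr k j‖ < sd k / 2 :=
        ((continuous_fst.sub continuous_const).norm.continuousAt).eventually (gt_mem_nhds h3)
      have e2 : ∀ᶠ z' in 𝓝 z, z'.2 < sd k / 2 :=
        continuous_snd.continuousAt.eventually (gt_mem_nhds h4)
      have e3 : ∀ k' ∈ Finset.range N, ∀ᶠ z' in 𝓝 z, k < k' → lay S0 st k' z' = 0 := by
        intro k' hk'
        by_cases h5 : k < k'
        · filter_upwards [lay_zero (hB k' h5 (Finset.mem_range.1 hk').le)] with z' hz' _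
          exact hz'
        · exact Eventually.of_forall fun z' h6 => absurd h6 h5
      filter_upwards [e0, e1, e2, (Filter.eventually_all_finset _).2 e3] with z' a0 a1 a2 a3
      have b1 : z'.1 ∈ cell k j := mem_cell_of_norm_lt a1
      have b2 := REP23.partial_sum hs (hN m V ψ K cs δ S0 st hs) (cell_subset_unit hj b1)
        ((sd_pos N).le.trans a0.le) k (by linarith [sd_pos k])
      rw [idx_of_mem b1] at b2
      rw [gsum_eq hN hs a0, ← b2]
      congr 1
      refine (Finset.sum_subset (Finset.range_subset_range.2 hkN) fun k' hk' hk'' => ?_).symm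
      refine a3 k' hk' ?_
      rw [Finset.mem_range] at hk''
      omega
  · left
    have e3 : ∀ k' ∈ Finset.range N, ∀ᶠ z' in 𝓝 z, lay S0 st k' z' = 0 :=
      fun k' _ => lay_zero fun h => hex ⟨k', h⟩
    filter_upwards [e0, (Filter.eventually_all_finset _).2 e3] with z' a0 a3
    rw [gsum_eq hN hs a0]
    exact Finset.sum_eq_zero a3

end LOC10

open LOC10 in
theorem r_LOC2 : R_LOC2 := by
  intro hN m V ψ K cs δ S0 st hs h2
  refine ⟨fun z _ hz _ => ?_, fun z hz => ?_⟩
  · rcases dich hN hs h2 hz with h | ⟨k, j, hj, hk, -, -, -, h⟩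
    · refine ⟨_, h, fun a ha b hb hab => (h2 _ hs.v0).inj ?_⟩
      have h0 := ((hs.dyn _ hs.v0).sec hs.k0).1
      have ha' : gsum S0 st a = 0 := ha
      have hb' : gsum S0 st b = 0 := hb
      simp only [ha', hb'] at hab
      simp only [h0]
      exact hab
    · refine ⟨_, h, fun a ha b hb hab => (h2 _ (LOC84.act hN hs hj hk).1).inj ?_⟩
      exact (Eq.symm ha).trans (Eq.trans hab hb)
  · rcases dich hN hs h2 hz with h | ⟨k, j, hj, hk, hk0, h1, h3, -⟩
    · exact Or.inl h
    · right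
      rcases LOC84.first (S0 := S0) (st := st) z.1 k with h5 | ⟨k1, h5, h6⟩
      · rw [idx_of_mem h1] at h5
        rw [h5, hs.k0] at hk
        exact absurd hk.symm hk0
      · have h7 : S0.D = cell 0 0 := by unfold St.D; rw [hs.k0, hs.j0]
        have h8 := ((hs.dyn _ hs.v0).sec hs.k0).2 k1 _ h6
          (h7 ▸ cell_subset (Nat.zero_le k1) (cell_subset_unit hj h1)) z.1 (mem_cell_idx k1 z.1)
        rw [hs.k0, hs.j0] at h8
        linarith [sd_anti h5, sd_pos k]

end Pool.Agent.Lib.FQ
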