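import Pool.Agent.Lib.FQ.Kit2

/-! Oscillation along almost every radius gives a natural boundary. -/

set_option autoImplicit false

open scoped Topology ENNReal NNReal RealInnerProductSpace Classical
open Metric Filter MeasureTheory Set
open Pool.Agent.Lib.MP_ec86f1_an

noncomputable section

namespace Pool.Agent.Lib.FQ

theorem NB28.near {m : ℕ} {c : ℝ} {f : E m → E m} (h : BallOsc c f) {b : E m}
    (hb : b ∈ sphere (0 : E m) 1) {δ : ℝ} (hδ : 0 < δ) :
    ∃ x ∈ ball b δ ∩ ball 0 1, ∃ y ∈ ball b δ ∩ ball 0 1, c ≤ ‖f x - f y‖ := by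
  obtain ⟨ξ, h1, h2⟩ := (Measure.dense_of_ae h).exists_dist_lt ⟨b, hb⟩ (half_pos hδ)
  obtain ⟨s, hs, t, ht, h3⟩ := h1 (max 0 (1 - δ / 2)) (max_lt one_pos (by linarith))
  have n1 : ‖(ξ : E m)‖ = 1 := mem_sphere_zero_iff_norm.1 ξ.2
  have key : ∀ s ∈ Ioo (max 0 (1 - δ / 2)) 1, s • (ξ : E m) ∈ ball b δ ∩ ball 0 1 := fun s hs => by
    obtain ⟨a1, a2⟩ := max_lt_iff.1 hs.1
    have a3 : dist (s • (ξ : E m)) ξ = 1 - s := by
      rw [dist_comm, dist_eq_norm, show (ξ : E m) - s • (ξ : E m) = (1 - s) • (ξ : E m) by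
        rw [sub_smul, one_smul], norm_smul, n1, mul_one, Real.norm_of_nonneg (by linarith [hs.2])]
    have a4 : dist b (ξ : E m) < δ / 2 := h2
    refine ⟨?_, ?_⟩
    · have := dist_triangle_right (s • (ξ : E m)) b ξ
      rw [mem_ball]
      linarith
    · rw [mem_ball_zero_iff, norm_smul, n1, mul_one, Real.norm_of_nonneg a1.le]
      exact hs.2
  exact ⟨_, key s hs, _, key t ht, h3⟩

theorem r_NB : R_NB := by
  rintro m c f hc hf h b hb ⟨l, hl⟩
  induction l using OnePoint.rec with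
  | infty =>
    have hmem : ((↑) '' closure (f '' ball 0 1) : Set (OnePoint (E m)))ᶜ ∈ 𝓝 (OnePoint.infty) :=
      (OnePoint.isOpen_compl_image_coe.2 ⟨isClosed_closure, hf.isCompact_closure⟩).mem_nhds
        (by simp)
    obtain ⟨δ, hδ, hδ'⟩ := Metric.mem_nhdsWithin_iff.1 (hl hmem)
    obtain ⟨x, hx, -⟩ := NB28.near h hb hδ
    exact hδ' hx ⟨f x, subset_closure ⟨x, hx.2, rfl⟩, rfl⟩
  | coe p =>
    have hl' : Tendsto f (𝓝[ball 0 1] b) (𝓝 p) :=
      OnePoint.isOpenEmbedding_coe.tendsto_nhds_iff.2 hl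
    obtain ⟨δ, hδ, hδ'⟩ := Metric.mem_nhdsWithin_iff.1 (hl' (ball_mem_nhds p (half_pos hc)))
    obtain ⟨x, hx, y, hy, h3⟩ := NB28.near h hb hδ
    have a1 : dist (f x) p < c / 2 := hδ' hx
    have a2 : dist (f y) p < c / 2 := hδ' hy
    have := dist_triangle_right (f x) (f y) p
    rw [dist_eq_norm (f x) (f y)] at this
    linarith

end Pool.Agent.Lib.FQ
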