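import Pool.Agent.Lib.FQ.Kit2

/-! Row NEXT: the direction of the next tent. -/

set_option autoImplicit false

open scoped Topology ENNReal NNReal RealInnerProductSpace Classical
open Metric Filter MeasureTheory Set

noncomputable section

namespace Pool.Agent.Lib.FQ

namespace NEXT98

variable {m : ℕ}

/-- `m` linear conditions on `P m` -/
def phi (i : ℕ) (A : P m →L[ℝ] E m) (v : ℕ → E m) : P m →ₗ[ℝ] (Fin m → ℝ) where
  toFun z l := if (l : ℕ) < i then ⟪v l, A z⟫ else z.1 l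
  map_add' z z' := by
    funext l
    by_cases h : (l : ℕ) < i <;> simp [h, inner_add_right]
  map_smul' c z := by
    funext l
    by_cases h : (l : ℕ) < i <;> simp [h, inner_smul_right]

theorem exists_ker (i : ℕ) (hi : i ≤ m) (A : P m →L[ℝ] E m) (v : ℕ → E m) :
    ∃ u : P m, u ≠ 0 ∧ (∀ l < i, ⟪v l, A u⟫ = 0) ∧ ∀ l : Fin m, i ≤ (l : ℕ) → u.1 l = 0 := by
  have h : LinearMap.ker (phi i A v) ≠ ⊥ := by
    apply LinearMap.ker_ne_bot_of_finrank_lt
    simp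
  obtain ⟨u, hu, h0⟩ := Submodule.exists_mem_ne_zero_of_ne_bot h
  have hu' : ∀ l : Fin m, (if (l : ℕ) < i then ⟪v l, A u⟫ else u.1 l) = 0 :=
    fun l => congrFun (LinearMap.mem_ker.1 hu) l
  refine ⟨u, h0, fun l hl => ?_, fun l hl => ?_⟩
  · have := hu' ⟨l, hl.trans_le hi⟩
    rwa [if_pos hl] at this
  · have := hu' l
    rwa [if_neg (not_lt.2 hl)] at this

theorem inner_A {i : ℕ} {a : ℝ} {A B : P m →L[ℝ] E m} {v : ℕ → E m} {β : ℕ → X m}
    (h : Dec i a A B v β) {l : ℕ} (hl : l < i) (z : P m) :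
    ⟪v l, A z⟫ = a * (⟪v l, B z⟫ + cv (β l) (8 ^ l) z) := by
  rw [h.eq, inner_smul_right, inner_add_right, inner_sum, Finset.sum_eq_single l]
  · rw [inner_smul_right, real_inner_self_eq_norm_sq, h.unit l hl]; ring
  · intro l' hl' hne
    rw [inner_smul_right, h.orth l hl l' (Finset.mem_range.1 hl') hne.symm, mul_zero]
  · intro h'
    exact absurd (Finset.mem_range.2 hl) h'

theorem norm_fst {i : ℕ} {a : ℝ} {A B : P m →L[ℝ] E m} {v : ℕ → E m} {β : ℕ → X m}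
    (ha : 0 < a) (h : Dec i a A B v β) {u : P m} (h1 : ∀ l < i, ⟪v l, A u⟫ = 0)
    (h2 : ∀ l : Fin m, i ≤ (l : ℕ) → u.1 l = 0) : 3 / 2 * ‖u.1‖ ≤ 8 ^ i * |u.2| := by
  have hp : (0 : ℝ) ≤ 8 ^ i * |u.2| := by positivity
  have hu : ‖u‖ ≤ ‖u.1‖ + |u.2| :=
    max_le (le_add_of_nonneg_right (abs_nonneg _)) (le_add_of_nonneg_left (norm_nonneg _))
  have key : ‖u.1‖ ≤ 3 / 4 * ‖u.1‖ + 5 / 32 * (8 ^ i * |u.2|) := by
    refine (pi_norm_le_iff_of_nonneg (by positivity)).2 fun l => ?_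
    rcases lt_or_ge (l : ℕ) i with hl | hl
    · have e1 := h1 l hl
      rw [inner_A h hl, mul_eq_zero, or_iff_right ha.ne'] at e1
      obtain ⟨f, hf⟩ := h.face l hl
      rw [hf, cv_apply] at e1
      have e2 : |⟪v l, B u⟫| ≤ ‖u‖ / 4 := by
        have := abs_real_inner_le_norm (v l) (B u)
        rw [h.unit l hl, one_mul] at this
        exact this.trans (h.small u)
      have e3 := abs_fc_sub l f u.1
      rw [cl_lt l.2] at e3
      have e4 : |sg f.1 * u.1 l| = |u.1 l| := by rw [abs_mul, abs_sg, one_mul]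
      have e5 : |(8 : ℝ) ^ (l : ℕ) * u.2| = 8 ^ (l : ℕ) * |u.2| := by
        rw [abs_mul, abs_of_nonneg (by positivity)]
      have e6 : (8 : ℝ) ^ (l : ℕ) * 8 ≤ 8 ^ i := by
        rw [← pow_succ]; exact pow_le_pow_right₀ (by norm_num) hl
      have e7 : (1 : ℝ) ≤ 8 ^ (l : ℕ) := one_le_pow₀ (by norm_num)
      have e8 : (8 : ℝ) ^ (l : ℕ) * |u.2| * 8 ≤ 8 ^ i * |u.2| := by nlinarith [abs_nonneg u.2]
      have e9 : |u.2| ≤ 8 ^ (l : ℕ) * |u.2| := by nlinarith [abs_nonneg u.2]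
      have e10 : |sg f.1 * u.1 l| ≤ ‖u.1‖ / 2 + ‖u‖ / 4 + |(8 : ℝ) ^ (l : ℕ) * u.2| := by
        have a1 := le_abs_self ((8 : ℝ) ^ (l : ℕ) * u.2)
        have a2 := neg_abs_le ((8 : ℝ) ^ (l : ℕ) * u.2)
        rw [abs_le] at e2 e3 ⊢
        constructor <;> linarith [e2.1, e2.2, e3.1, e3.2]
      rw [Real.norm_eq_abs]
      linarith
    · rw [h2 l hl, norm_zero]; positivity
  linarith

end NEXT98

theorem r_NEXT : R_NEXT := by
  intro m i hi a Λ A B v β ha h hΛ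
  obtain ⟨u, h0, h1, h2⟩ := NEXT98.exists_ker i hi A v
  have h3 := NEXT98.norm_fst ha h h1 h2
  have hA : 0 < ‖A u‖ := by
    refine (norm_nonneg _).lt_of_ne' fun h4 => ?_
    have h5 := hΛ u
    rw [h4, mul_zero] at h5
    exact absurd h5 (not_le.2 (mul_pos ha (norm_pos_iff.2 h0)))
  obtain ⟨b, hb⟩ := exists_sg u.2
  refine ⟨(a * (sg b / ‖A u‖)) • u, (sg b / ‖A u‖) • A u, ?_, ?_, fun l hl => ?_, fun f => ?_⟩
  · rw [norm_smul, Real.norm_eq_abs, abs_div, abs_sg, abs_of_pos hA, one_div,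
      inv_mul_cancel₀ hA.ne']
  · rw [map_smul, mul_smul]
  · rw [inner_smul_right, h1 l hl, mul_zero]
  · rw [map_smul, smul_eq_mul, cv_apply]
    have e1 : |sg b * (fc i f ⬝ᵥ u.1)| ≤ 3 / 2 * ‖u.1‖ := by
      rw [abs_mul, abs_sg, one_mul]; exact abs_fc_dot_le i f u.1
    have e2 : a * (sg b / ‖A u‖) * (fc i f ⬝ᵥ u.1 + 8 ^ i * u.2) =
        a / ‖A u‖ * (sg b * (fc i f ⬝ᵥ u.1) + 8 ^ i * |u.2|) := by
      rw [← hb]; ring
    rw [e2]
    exact mul_nonneg (div_pos ha hA).le (by linarith [(abs_le.1 e1).1])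

end Pool.Agent.Lib.FQ
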