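import Pool.Agent.Lib.FQ.Kit2

set_option autoImplicit false

open scoped Classical

noncomputable section

namespace Pool.Agent.Lib.FQ

theorem r_NODE : R_NODE := by
  intro m V ψ K cs δ S0 st h x hx k
  induction k with
  | zero =>
    refine ⟨h.v0, h.k0.le, ?_, fun k' _ h2 => by rw [Nat.le_zero.1 h2], fun k' h1 h2 => ?_⟩
    · show x ∈ cell S0.k S0.j
      rw [h.k0, h.j0]; exact hx
    · have := (h.geom S0 h.v0).late _ _ h2
      omega
  | succ k ih =>
    have e := node_succ S0 st k x
    split_ifs at e with ha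
    · obtain ⟨c1, c2⟩ := (h.geom _ ih.v).chk (k + 1) (idx (k + 1) x)
      rw [← e] at c1 c2
      have hv : V (node S0 st (k + 1) (idx (k + 1) x)) :=
        e ▸ (h.dyn _ ih.v).chv _ _ ha (cell_subset (ih.le.trans k.le_succ) ih.mem)
      refine ⟨hv, c1.le, ?_, fun k' h1 h2 => by rw [show k' = k + 1 by omega], fun k' h1 h2 => ?_⟩
      · rw [St.D, c1, c2]; exact mem_cell_idx _ _
      · have := (h.geom _ hv).late _ _ h2
        omega
    · refine ⟨e ▸ ih.v, e ▸ ih.le.trans k.le_succ, e ▸ ih.mem, fun k' h1 h2 => ?_,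
        fun k' h1 => ?_⟩
      · rcases Nat.le_succ_iff.1 h2 with h3 | rfl
        · rw [e] at h1 ⊢
          exact ih.same k' h1 h3
        · rfl
      · rw [e]
        rcases Nat.le_succ_iff.1 h1 with h3 | rfl
        · exact ih.wait k' h3
        · exact ha

end Pool.Agent.Lib.FQ
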