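import Pool.Agent.Lib.FQ.Kit2

/-! Oscillation along the lines of slope at most one. -/

set_option autoImplicit false

open scoped Topology ENNReal NNReal RealInnerProductSpace Classical
open Metric Filter MeasureTheory Set
open Pool.Agent.Lib.MP_ec86f1_an

noncomputable section

namespace Pool.Agent.Lib.FQ

theorem r_OSC : R_OSC := by
  intro hN hR hC m V ψ K cs δ S0 st hS
  filter_upwards [hC m V ψ K cs δ S0 st hS] with x hx hx0 ε hε
  obtain ⟨k0, hk0⟩ := exists_sd_lt hε
  obtain ⟨k, hk, hSk, k', hsuc⟩ := hx hx0 k0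
  have nf := hN m V ψ K cs δ S0 st hS x hx0 k
  have hv := nf.v
  have hm := nf.mem
  generalize hSd : node S0 st k (idx k x) = S at hSk hsuc hv hm
  obtain ⟨h1, h2⟩ := (hS.dyn S hv).osc k' _ hsuc x (mem_cell_idx k' x)
  have hp := sd_pos k
  have hD : ∀ y ∈ S.D, idx k y = idx k x := fun y hy => by
    rw [St.D, hSk] at hy hm
    exact (idx_of_mem hy).trans (idx_of_mem hm).symm
  have na : ∀ n j, n < k + 3 → ¬ (st S).adm n j := fun n j hn ha => by
    have := (hS.geom S hv).late n j ha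
    omega
  have n1 : ∀ y ∈ S.D, node S0 st (k + 1) (idx (k + 1) y) = S := fun y hy => by
    rw [node_succ, hD y hy, hSd, if_neg (na _ _ (by omega))]
  have n2 : ∀ y ∈ S.D, node S0 st (k + 2) (idx (k + 2) y) = S := fun y hy => by
    rw [node_succ, n1 y hy, if_neg (na _ _ (by omega))]
  have hu : ∀ y ∈ S.D, y ∈ cell 0 (0 : Ix m) := fun y hy =>
    cell_subset (Nat.zero_le k) hx0 (hD y hy)
  have s1 := sd_succ k
  have s2 := sd_succ (k + 1)
  have s3 := sd_succ (k + 2)
  rw [hSk] at h1 h2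
  refine ⟨sd k, hp, (sd_anti hk).trans_lt hk0, fun η hη => ?_⟩
  have a := h1 η (sd k / 4) hη (by linarith) (by linarith)
  have b := h1 η (3 * sd k / 8) hη (by linarith) le_rfl
  have e1 := hR m V ψ K cs δ S0 st hS (k + 2) (x - (sd k / 4) • η, sd k / 4) (hu _ a)
    (by change sd (k + 2 + 1) < sd k / 4; linarith) (by change sd k / 4 ≤ sd (k + 1 + 1); linarith)
  have e2 := hR m V ψ K cs δ S0 st hS (k + 1) (x - (3 * sd k / 8) • η, 3 * sd k / 8) (hu _ b)
    (by change sd (k + 1 + 1) < 3 * sd k / 8; linarith)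
    (by change 3 * sd k / 8 ≤ sd (k + 1); linarith)
  rw [n2 _ a] at e1
  rw [n1 _ b] at e2
  have := h2 η hη
  beta_reduce at this ⊢
  rwa [e1, e2]

end Pool.Agent.Lib.FQ
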