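import Pool.Agent.Lib.FQ.Kit2

/-! Row PHI1: the radial map of the ball onto the cube is bi-Lipschitz. -/

set_option autoImplicit false

open scoped Topology ENNReal NNReal RealInnerProductSpace Classical
open Metric Filter MeasureTheory Set

noncomputable section

namespace Pool.Agent.Lib.FQ

namespace PHI176

variable {V : Type} [NormedAddCommGroup V] [NormedSpace ℝ V]

theorem rad {p q : V → ℝ} {A : ℝ} (hA : 0 < A) (hp : ∀ z z', |p z - p z'| ≤ A * ‖z - z'‖)
    (hq : ∀ z z', |q z - q z'| ≤ A * ‖z - z'‖) (p0 : p 0 = 0) (q0 : ∀ z, ‖z‖ ≤ A * q z)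
    (z z' : V) : ‖(p z / q z) • z - (p z' / q z') • z'‖ ≤ (A ^ 2 + A * (A ^ 3 + A)) * ‖z - z'‖ := by
  have h1 : ∀ y : V, y ≠ 0 → 0 < q y ∧ |p y / q y| ≤ A ^ 2 := fun y hy => by
    have a : 0 < q y := (mul_pos_iff_of_pos_left hA).1 ((norm_pos_iff.2 hy).trans_le (q0 y))
    refine ⟨a, ?_⟩
    have b := hp y 0
    rw [p0, sub_zero, sub_zero] at b
    rw [abs_div, abs_of_pos a, div_le_iff₀ a]
    nlinarith [mul_le_mul_of_nonneg_left (q0 y) hA.le]
  have h2 : ∀ y : V, ‖(p y / q y) • y‖ ≤ A ^ 2 * ‖y‖ := fun y => by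
    by_cases hy : y = 0
    · simp [hy]
    · rw [norm_smul, Real.norm_eq_abs]
      exact mul_le_mul_of_nonneg_right (h1 y hy).2 (norm_nonneg _)
  have h3 : ∀ y : V, A ^ 2 * ‖y‖ ≤ (A ^ 2 + A * (A ^ 3 + A)) * ‖y‖ := fun y =>
    mul_le_mul_of_nonneg_right (le_add_of_nonneg_right (by positivity)) (norm_nonneg _)
  by_cases hz : z = 0
  · rw [hz, smul_zero, zero_sub, zero_sub, norm_neg, norm_neg]
    exact (h2 z').trans (h3 z')
  by_cases hz' : z' = 0
  · rw [hz', smul_zero, sub_zero, sub_zero]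
    exact (h2 z).trans (h3 z)
  obtain ⟨a, b⟩ := h1 z hz
  obtain ⟨a', -⟩ := h1 z' hz'
  have e : (p z / q z) • z - (p z' / q z') • z' =
      (p z / q z) • (z - z') + (p z / q z - p z' / q z') • z' := by
    rw [smul_sub, sub_smul]; abel
  have e2 : (p z / q z - p z' / q z') * q z' = p z / q z * (q z' - q z) + (p z - p z') := by
    field_simp; ring
  have h4 : |p z / q z - p z' / q z'| * q z' ≤ (A ^ 3 + A) * ‖z - z'‖ := by
    rw [← abs_of_pos a', ← abs_mul, abs_of_pos a', e2]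
    refine (abs_add_le _ _).trans ?_
    rw [abs_mul, abs_sub_comm (q z')]
    have := mul_le_mul b (hq z z') (abs_nonneg _) (by positivity)
    nlinarith [hp z z']
  rw [e]
  refine (norm_add_le _ _).trans ?_
  rw [norm_smul, norm_smul, Real.norm_eq_abs, Real.norm_eq_abs]
  have h5 := mul_le_mul_of_nonneg_right b (norm_nonneg (z - z'))
  have h6 := mul_le_mul_of_nonneg_left (q0 z') (abs_nonneg (p z / q z - p z' / q z'))
  have h7 := mul_le_mul_of_nonneg_left h4 hA.le
  nlinarith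

variable {m : ℕ}

/-- the inverse map -/
def Psi (z : E m) : E m := (2 * sup z / ‖z‖) • z

theorem l1 (z z' : E m) : |‖z‖ - ‖z'‖| ≤ ((m : ℝ) + 2) * ‖z - z'‖ :=
  (abs_norm_sub_norm_le z z').trans
    (le_mul_of_one_le_left (norm_nonneg _) (by linarith [Nat.cast_nonneg (α := ℝ) m]))

theorem l2 (z z' : E m) : |2 * sup z - 2 * sup z'| ≤ ((m : ℝ) + 2) * ‖z - z'‖ := by
  have h1 : |sup z - sup z'| ≤ sup (z - z') := abs_norm_sub_norm_le _ _
  have h2 := sup_le_norm (z - z')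
  rw [← mul_sub, abs_mul, abs_two]
  nlinarith [Nat.cast_nonneg (α := ℝ) m, norm_nonneg (z - z')]

theorem lip {f : E m → E m} {C : ℝ} (h : ∀ z z', ‖f z - f z'‖ ≤ C * ‖z - z'‖) :
    LipschitzWith C.toNNReal f :=
  LipschitzWith.of_dist_le' fun z z' => by rw [dist_eq_norm, dist_eq_norm]; exact h z z'

theorem psi_phi (z : E m) : Psi (Phi z) = z := by
  by_cases hz : z = 0
  · simp [hz, Phi, Psi]
  have h1 : 0 < ‖z‖ := norm_pos_iff.2 hz
  have h2 : 0 < sup z := by
    by_contra h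
    nlinarith [norm_le_sup z, Nat.cast_nonneg (α := ℝ) m, not_lt.1 h]
  have h3 : 0 < ‖z‖ / (2 * sup z) := by positivity
  rw [Psi, Phi, sup_smul, norm_smul, Real.norm_eq_abs, abs_of_pos h3, smul_smul]
  conv_rhs => rw [← one_smul ℝ z]
  congr 1
  field_simp

end PHI176

open PHI176 in
theorem r_PHI1 : R_PHI1 := by
  intro m
  have hA : (0 : ℝ) < m + 2 := by positivity
  have h1 := rad (V := E m) (p := fun z => ‖z‖) (q := fun z => 2 * sup z) hA l1 l2 norm_zero
    fun z => by nlinarith [norm_le_sup z, sup_nonneg z, Nat.cast_nonneg (α := ℝ) m]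
  have h2 := rad (V := E m) (p := fun z => 2 * sup z) (q := fun z => ‖z‖) hA l2 l1
    (by simp [sup]) fun z =>
      le_mul_of_one_le_left (norm_nonneg _) (by linarith [Nat.cast_nonneg (α := ℝ) m])
  refine ⟨⟨_, lip (f := Phi) h1⟩, ⟨((m : ℝ) + 2) ^ 2 + (m + 2) * ((m + 2) ^ 3 + (m + 2)),
    by positivity, fun z z' => ?_⟩, fun N hN => ?_⟩
  · have := h2 (Phi z) (Phi z')
    rwa [show (2 * sup (Phi z) / ‖Phi z‖) • Phi z = z from psi_phi z,
      show (2 * sup (Phi z') / ‖Phi z'‖) • Phi z' = z' from psi_phi z'] at this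
  · refine measure_mono_null (t := Psi '' N) (fun z hz => ⟨_, hz, psi_phi z⟩) ?_
    have h3 := (lip (f := Psi) h2).hausdorffMeasure_image_le
      (d := Module.finrank ℝ (E m)) (Nat.cast_nonneg _) N
    rw [Measure.absolutelyContinuous_isAddHaarMeasure _ volume hN, mul_zero] at h3
    exact Measure.absolutelyContinuous_isAddHaarMeasure volume _ (le_zero_iff.1 h3)

end Pool.Agent.Lib.FQ
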