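import Pool.Agent.Lib.FQ.Kit2

/-! Project fq, block PHI2: the derivative of the radial map from the ball to the cube. -/

set_option autoImplicit false

open scoped Topology ENNReal NNReal RealInnerProductSpace Classical
open Metric Filter MeasureTheory Set

noncomputable section

namespace Pool.Agent.Lib.FQ

variable {m : ℕ}

namespace PHI25

lemma lower {f : E m → E m} {C : ℝ} (hC : ∀ z z', ‖z - z'‖ ≤ C * ‖f z - f z'‖) {z : E m}
    {A : E m →L[ℝ] E m} (hA : HasFDerivAt f A z) (v : E m) : ‖v‖ ≤ C * ‖A v‖ := by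
  have h0 : HasDerivAt (fun t : ℝ => z + t • v) v 0 := by
    simpa using ((hasDerivAt_id (0 : ℝ)).smul_const v).const_add z
  have h1 : HasDerivAt (fun t : ℝ => f (z + t • v)) (A v) 0 :=
    HasFDerivAt.comp_hasDerivAt_of_eq (0 : ℝ) hA h0 (by simp)
  refine ge_of_tendsto (h1.tendsto_slope_zero.norm.const_mul C) ?_
  filter_upwards [self_mem_nhdsWithin] with t ht
  have ht' : 0 < ‖t‖ := norm_pos_iff.2 ht
  have h2 := hC (z + t • v) z
  rw [add_sub_cancel_left, norm_smul] at h2
  simp only [zero_add, zero_smul, add_zero, norm_smul, norm_inv]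
  rw [mul_left_comm, le_inv_mul_iff₀ ht']
  exact h2

lemma det_pos {z : E m} (hz : z ≠ 0) {A : E m →L[ℝ] E m} (hA : HasFDerivAt Phi A z) :
    0 < A.det := by
  have hn : 0 < ‖z‖ := norm_pos_iff.2 hz
  have hs : 0 < sup z := by
    refine (sup_nonneg z).lt_of_ne fun h => ?_
    have := norm_le_sup z
    rw [← h, mul_zero] at this
    exact absurd hn (not_lt.2 this)
  have hp : 0 < ‖z‖ / (2 * sup z) := by positivity
  have h1 : DifferentiableAt ℝ (fun w : E m => ⟪Phi w, w⟫ * ⟪w, w⟫⁻¹) z :=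
    (hA.differentiableAt.inner ℝ differentiableAt_id).mul
      (DifferentiableAt.fun_inv (h := fun w : E m => ⟪w, w⟫)
        (differentiableAt_id.inner ℝ differentiableAt_id) (inner_self_ne_zero.2 hz))
  have h2 : DifferentiableAt ℝ (fun w : E m => ‖w‖ / (2 * sup w)) z :=
    h1.congr_of_eventuallyEq (by
      filter_upwards [isOpen_ne.mem_nhds hz] with w hw
      rw [Phi, real_inner_smul_left, mul_inv_cancel_right₀ (inner_self_ne_zero.2 hw)])
  obtain ⟨h', h3⟩ := h2
  have h4 : h' z = 0 := by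
    have h0 : HasDerivAt (fun c : ℝ => c • z) z 1 := by
      simpa using (hasDerivAt_id (1 : ℝ)).smul_const z
    have h5 := HasFDerivAt.comp_hasDerivAt_of_eq (1 : ℝ) h3 h0 (by simp)
    refine h5.unique ((hasDerivAt_const (1 : ℝ) (‖z‖ / (2 * sup z))).congr_of_eventuallyEq ?_)
    filter_upwards [Ioi_mem_nhds (zero_lt_one' ℝ)] with c hc
    have hc' : 0 < c := hc
    simp only [Function.comp_apply, norm_smul, sup_smul, Real.norm_eq_abs, abs_of_pos hc']
    field_simp
  have h5 := hA.unique (h3.smul (hasFDerivAt_id z))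
  have h6 : (A : E m →ₗ[ℝ] E m) = (‖z‖ / (2 * sup z)) •
      LinearMap.transvection (h' : E m →ₗ[ℝ] ℝ) ((‖z‖ / (2 * sup z))⁻¹ • z) := by
    ext1 v
    rw [h5]
    simp [LinearMap.transvection.apply, smul_smul, mul_left_comm (‖z‖ / (2 * sup z)),
      mul_inv_cancel₀ hp.ne', -inv_div]
  rw [ContinuousLinearMap.det, h6, LinearMap.det_smul, LinearMap.transvection.det]
  simp only [map_smul, ContinuousLinearMap.coe_coe, h4, smul_zero, add_zero, mul_one]
  positivity

end PHI25

theorem r_PHI2 : R_PHI2 := by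
  intro H m
  obtain ⟨⟨C, hC⟩, ⟨C', -, hC'⟩, -⟩ := H m
  refine ⟨max C C', ?_⟩
  filter_upwards [hC.ae_differentiableAt (μ := volume), Measure.ae_ne volume (0 : E m)]
    with z h1 h2
  refine ⟨_, h1.hasFDerivAt, PHI25.det_pos h2 h1.hasFDerivAt, 1, one_pos, fun v => ⟨?_, ?_⟩⟩
  · rw [one_mul]
    exact (PHI25.lower hC' h1.hasFDerivAt v).trans
      (mul_le_mul_of_nonneg_right (le_max_right _ _) (norm_nonneg _))
  · rw [mul_one]
    exact (ContinuousLinearMap.le_of_opNorm_le _ (h1.hasFDerivAt.le_of_lipschitz hC) v).trans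
      (mul_le_mul_of_nonneg_right (le_max_left _ _) (norm_nonneg _))

end Pool.Agent.Lib.FQ
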