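import Pool.Agent.Lib.FQ.Kit2

/-! Locally Lipschitz maps with bounded distortion are quasiregular. -/

set_option autoImplicit false

open scoped Topology ENNReal NNReal RealInnerProductSpace Classical ContDiff
open Metric Filter MeasureTheory Set
open Pool.Agent.Lib.MP_ec86f1_an

noncomputable section

namespace Pool.Agent.Lib.FQ

namespace QR80

variable {m : ℕ}

/-- Integration by parts for a Lipschitz map. -/
theorem parts {C : ℝ≥0} {F : E m → E m} (hF : LipschitzWith C F) {φ : E m → ℝ}
    (hφ : ContDiff ℝ ∞ φ) (hc : HasCompactSupport φ) (v : E m) :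
    ∫ x, fderiv ℝ φ x v • F x = -∫ x, φ x • fderiv ℝ F x v := by
  have hφ1 : ContDiff ℝ 1 φ := hφ.of_le (by exact_mod_cast le_top)
  obtain ⟨D, hD⟩ := ContDiff.lipschitzWith_of_hasCompactSupport hc hφ1 one_ne_zero
  have i1 : Integrable fun x => fderiv ℝ φ x v • F x :=
    (((hφ1.continuous_fderiv one_ne_zero).clm_apply continuous_const).smul
      hF.continuous).integrable_of_hasCompactSupport (hc.fderiv_apply ℝ v).smul_right
  have i2 : Integrable fun x => φ x • fderiv ℝ F x v :=
    (hφ.continuous.integrable_of_hasCompactSupport hc).smul_of_top_left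
      (memLp_top_of_bound (measurable_fderiv_apply_const ℝ F v).aestronglyMeasurable (C * ‖v‖)
        (Eventually.of_forall fun x => ((fderiv ℝ F x).le_opNorm v).trans
          (mul_le_mul_of_nonneg_right (norm_fderiv_le_of_lipschitz ℝ hF) (norm_nonneg v))))
  refine ext_inner_left ℝ fun w => ?_
  have k := ((innerSL ℝ w).lipschitz.comp hF).integral_lineDeriv_mul_eq (μ := volume) hD hc v
  rw [inner_neg_right, ← integral_inner i1, ← integral_inner i2, ← integral_neg]
  have e1 : ∫ x, lineDeriv ℝ (innerSL ℝ w ∘ F) x v * φ x = ∫ x, ⟪w, φ x • fderiv ℝ F x v⟫ := by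
    refine integral_congr_ae ?_
    filter_upwards [hF.ae_differentiableAt (μ := volume)] with x hx
    rw [(((innerSL ℝ w).hasFDerivAt.comp x hx.hasFDerivAt).hasLineDerivAt v).lineDeriv,
      inner_smul_right, mul_comm]
    rfl
  have e2 : ∫ x, lineDeriv ℝ φ x (-v) * (innerSL ℝ w ∘ F) x =
      -∫ x, ⟪w, fderiv ℝ φ x v • F x⟫ := by
    rw [← integral_neg]
    refine integral_congr_ae (Eventually.of_forall fun x => ?_)
    beta_reduce
    rw [(hφ1.differentiable one_ne_zero x).lineDeriv_eq_fderiv, map_neg, inner_smul_right, neg_mul]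
    rfl
  rw [integral_neg, ← e1, k, e2, neg_neg]

end QR80

theorem r_QR : R_QR := by
  intro m K f hL hd
  have hc : ContinuousOn f (ball (0 : E m) 1) := fun x hx => by
    obtain ⟨ρ, h1, h2⟩ := exists_between (mem_ball_zero_iff.1 hx)
    obtain ⟨C, hC⟩ := hL ρ h2
    exact (hC.continuousOn.continuousAt
      (isOpen_ball.mem_nhds (mem_ball_zero_iff.2 h1))).continuousWithinAt
  refine ⟨hc, fderiv ℝ f, fun φ hφ hφc hφs v => ?_, fun C hC hC' => ?_,
    max 1 ((K ^ 2) ^ (m + 1)), le_max_left _ _, ?_⟩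
  · obtain ⟨ρ, h1, h2⟩ := exists_lt_subset_ball (isClosed_tsupport φ) hφs
    obtain ⟨C, hC⟩ := hL ρ h1
    obtain ⟨F, hF, hfF⟩ := hC.extend_finite_dimension
    have z1 : ∀ x, x ∉ tsupport φ → fderiv ℝ φ x v = 0 := fun x hx => by
      rw [fderiv_of_notMem_tsupport ℝ hx]; rfl
    rw [setIntegral_eq_integral_of_forall_compl_eq_zero fun x hx => by
        rw [z1 x fun h => hx (hφs h), zero_smul],
      setIntegral_eq_integral_of_forall_compl_eq_zero fun x hx => by
        rw [image_eq_zero_of_notMem_tsupport fun h => hx (hφs h), zero_smul]]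
    convert QR80.parts hF hφ hφc v using 3 with x
    · by_cases hx : x ∈ tsupport φ
      · rw [hfF (h2 hx)]
      · rw [z1 x hx, zero_smul, zero_smul]
    · funext x
      by_cases hx : x ∈ tsupport φ
      · rw [(hfF.eventuallyEq_of_mem (isOpen_ball.mem_nhds (h2 hx))).fderiv_eq]
      · rw [image_eq_zero_of_notMem_tsupport hx, zero_smul, zero_smul]
  · have : IsFiniteMeasure ((volume : Measure (E m)).restrict C) :=
      isFiniteMeasure_restrict.2 hC'.measure_lt_top.ne
    obtain ⟨ρ, h1, h2⟩ := exists_lt_subset_ball hC'.isClosed hC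
    obtain ⟨D, hD⟩ := hL ρ h1
    obtain ⟨B, hB⟩ := hC'.exists_bound_of_continuousOn (hc.mono hC)
    exact ⟨MemLp.of_bound ((hc.mono hC).aestronglyMeasurable hC'.measurableSet) B
        ((ae_restrict_iff' hC'.measurableSet).2 (Eventually.of_forall hB)),
      MemLp.of_bound (measurable_fderiv ℝ f).aestronglyMeasurable D
        ((ae_restrict_iff' hC'.measurableSet).2 (Eventually.of_forall fun x hx =>
          norm_fderiv_le_of_lipschitzOn ℝ (isOpen_ball.mem_nhds (h2 hx)) hD))⟩
  · refine (ae_restrict_iff' measurableSet_ball).2 (hd.mono fun x hx hb => ?_)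
    obtain ⟨A, hA, h0, a, ha, h⟩ := hx hb
    rw [hA.fderiv]
    have hK : 0 < K := by
      obtain ⟨v, hv⟩ := exists_ne (0 : E m)
      exact pos_of_mul_pos_left
        ((mul_pos ha (norm_pos_iff.2 hv)).trans_le (h v).1) (norm_nonneg _)
    have r : Ratio (K ^ 2) A := ⟨a / K, div_pos ha hK, fun v =>
      ⟨by rw [div_mul_eq_mul_div, div_le_iff₀' hK]; exact (h v).1,
        (h v).2.trans_eq (by field_simp)⟩⟩
    have := (r.norm_pow_le (sq_nonneg K)).2
    rw [finrank_euclideanSpace_fin, abs_of_pos h0] at this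
    exact this.trans (mul_le_mul_of_nonneg_right (le_max_right _ _) h0.le)

end Pool.Agent.Lib.FQ
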