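import Pool.Agent.Lib.FQ.Kit2

/-! Rank one perturbation along the image of a vector. -/

set_option autoImplicit false

open scoped Topology ENNReal NNReal RealInnerProductSpace Classical
open Metric Filter MeasureTheory Set
open Pool.Agent.Lib.MP_ec86f1_an

noncomputable section

namespace Pool.Agent.Lib.FQ

namespace R165

theorem dt_eq {m : ℕ} (A : P m →L[ℝ] E m) (u : P m) (w : P m →L[ℝ] ℝ) :
    dt (A + w.smulRight (A u)) = dt A * (1 + w u) := by
  have h : (((A + w.smulRight (A u)).comp (J m : E m →L[ℝ] P m) : E m →L[ℝ] E m) :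
      E m →ₗ[ℝ] E m) =
      ((A.comp (J m : E m →L[ℝ] P m) : E m →L[ℝ] E m) : E m →ₗ[ℝ] E m) ∘ₗ
        LinearMap.transvection
          ((w.comp (J m : E m →L[ℝ] P m) : E m →L[ℝ] ℝ) : E m →ₗ[ℝ] ℝ) ((J m).symm u) := by
    refine LinearMap.ext fun z => ?_
    simp [LinearMap.transvection.apply]
  unfold dt ContinuousLinearMap.det
  rw [h, LinearMap.det_comp, LinearMap.transvection.det]
  simp

end R165

theorem r_R1 : R_R1 := by
  intro m A u w a Λ ω hA hwu ha hΛ hω hw hlo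
  refine ⟨?_, fun z => ?_⟩
  · rw [R165.dt_eq]
    exact mul_pos hA (by linarith)
  · have h1 : (A + w.smulRight (A u)) z = A (z + w z • u) := by simp
    have h2 : w (z + w z • u) = w z * (1 + w u) := by
      rw [map_add, map_smul, smul_eq_mul]; ring
    have h3 : |w z| ≤ ω * ‖z + w z • u‖ := by
      refine le_trans ?_ (hw _)
      rw [h2, abs_mul, abs_of_nonneg (by linarith : (0 : ℝ) ≤ 1 + w u)]
      nlinarith [abs_nonneg (w z)]
    have h4 : ‖z‖ ≤ (1 + ‖u‖ * ω) * ‖z + w z • u‖ := by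
      have e : z = (z + w z • u) - w z • u := by abel
      have h5 : ‖z‖ ≤ ‖z + w z • u‖ + ‖w z • u‖ := by
        calc ‖z‖ = ‖(z + w z • u) - w z • u‖ := by rw [← e]
          _ ≤ _ := norm_sub_le _ _
      rw [norm_smul, Real.norm_eq_abs] at h5
      nlinarith [mul_le_mul_of_nonneg_right h3 (norm_nonneg u)]
    have hc : 0 ≤ 1 + ‖u‖ * ω := by positivity
    rw [h1]
    calc a * ‖z‖ ≤ a * ((1 + ‖u‖ * ω) * ‖z + w z • u‖) := mul_le_mul_of_nonneg_left h4 ha
      _ = (1 + ‖u‖ * ω) * (a * ‖z + w z • u‖) := by ring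
      _ ≤ (1 + ‖u‖ * ω) * (Λ * ‖A (z + w z • u)‖) := mul_le_mul_of_nonneg_left (hlo _) hc
      _ = _ := by ring

end Pool.Agent.Lib.FQ
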