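import Pool.Agent.Lib.FQ.Kit2

/-! Almost every point meets infinitely many successes. -/

set_option autoImplicit false

open scoped Topology ENNReal NNReal RealInnerProductSpace Classical
open Metric Filter MeasureTheory Set

noncomputable section

namespace Pool.Agent.Lib.FQ

namespace REC49

variable {m : ℕ} {V : St m → Prop} {ψ : St m → ℝ} {K cs δ : ℝ} {S0 : St m} {st : St m → Step m}

/-- a state starts over the cube -/
def Act (S0 : St m) (st : St m → Step m) (k : ℕ) (j : Ix m) : Prop :=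
  j ∈ cubes m k ∧ (node S0 st k j).k = k

/-- points without success from generation `k` on -/
def Bad (S0 : St m) (st : St m → Step m) (k : ℕ) (j : Ix m) : Set (X m) :=
  {x | x ∈ cell k j ∧ ∀ k1, k ≤ k1 → (node S0 st k1 (idx k1 x)).k = k1 →
    ∀ k', ¬ (st (node S0 st k1 (idx k1 x))).suc k' (idx k' x)}

theorem act_facts (hN : St_NODE) (hs : Sys V ψ K cs δ S0 st) {k : ℕ} {j : Ix m}
    (h : Act S0 st k j) : V (node S0 st k j) ∧ (node S0 st k j).D = cell k j := by
  have h1 := hN m V ψ K cs δ S0 st hs _ (cell_subset_unit h.1 (ctr_mem k j)) k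
  have h2 := h1.v
  have h3 := h1.mem
  rw [idx_ctr] at h2 h3
  refine ⟨h2, ?_⟩
  unfold St.D at h3 ⊢
  rw [h.2] at h3 ⊢
  rw [← idx_of_mem h3, idx_ctr]

theorem stay {x : X m} {k k' : ℕ} (hk : k ≤ k')
    (hno : ∀ k'' ≤ k', ¬ (st (node S0 st k (idx k x))).adm k'' (idx k'' x)) :
    node S0 st k' (idx k' x) = node S0 st k (idx k x) := by
  induction k', hk using Nat.le_induction with
  | base => rfl
  | succ n _ ih =>
    have h1 := ih fun k'' h => hno k'' (by omega)
    rw [node_succ, h1, if_neg (hno _ le_rfl)]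

theorem born {x : X m} {k k' : ℕ} (hk : k < k')
    (ha : (st (node S0 st k (idx k x))).adm k' (idx k' x))
    (hno : ∀ k'' < k', ¬ (st (node S0 st k (idx k x))).adm k'' (idx k'' x)) :
    node S0 st k' (idx k' x) = (st (node S0 st k (idx k x))).ch k' (idx k' x) := by
  obtain ⟨n, rfl⟩ : ∃ n, k' = n + 1 := ⟨k' - 1, by omega⟩
  have h1 : node S0 st n (idx n x) = node S0 st k (idx k x) :=
    stay (by omega) fun k'' h => hno k'' (by omega)
  rw [node_succ, h1, if_pos ha]

theorem bad_le (hN : St_NODE) (hs : Sys V ψ K cs δ S0 st) (N : ℕ) :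
    ∀ (k : ℕ) (j : Ix m), Act S0 st k j → volume (Bad S0 st k j) ≤
      ENNReal.ofReal (1 - δ) ^ N * (ENNReal.ofReal (ψ (node S0 st k j)) * volume (cell k j)) := by
  induction N with
  | zero =>
    intro k j h
    rw [pow_zero, one_mul]
    refine (measure_mono fun x hx => hx.1).trans (le_mul_of_one_le_left' ?_)
    exact ENNReal.one_le_ofReal.2 (hs.one _ (act_facts hN hs h).1)
  | succ N ih =>
    intro k j h
    obtain ⟨hV, hD⟩ := act_facts hN hs h
    have hG := hs.geom _ hV
    have hY := hs.dyn _ hV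
    have hk := h.2
    set S := node S0 st k j with hS
    let C : Set (ℕ × Ix m) := {p | ∃ x ∈ cell k j, idx p.1 x = p.2 ∧ (st S).adm p.1 p.2 ∧
      (∀ k'' < p.1, ¬ (st S).adm k'' (idx k'' x)) ∧ ¬ (st S).suc p.1 p.2}
    have hC : C.Countable := to_countable C
    have hall : ∀ p ∈ C, ∀ x ∈ cell p.1 p.2, x ∈ cell k j ∧
        ∀ k'' < p.1, ¬ (st S).adm k'' (idx k'' x) := by
      rintro p ⟨x, hx, h1, h2, h3, -⟩ x' hx'
      have h4 := hG.late _ _ h2
      refine ⟨cell_subset (k' := p.1) (by omega) hx (by rw [h1]; exact hx'), fun k'' hk'' => ?_⟩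
      rw [idx_eq_of_le hk''.le ((idx_of_mem hx').trans h1.symm)]
      exact h3 k'' hk''
    have hnode : ∀ p ∈ C, node S0 st p.1 p.2 = (st S).ch p.1 p.2 ∧ Act S0 st p.1 p.2 := by
      rintro p ⟨x, hx, h1, h2, h3, -⟩
      have h4 := hG.late _ _ h2
      have h5 : S = node S0 st k (idx k x) := by rw [idx_of_mem hx]
      have h6 := born (S0 := S0) (st := st) (x := x) (k := k) (k' := p.1) (by omega)
        (by rw [← h5, h1]; exact h2) (by rw [← h5]; exact h3)
      rw [← h5, h1] at h6
      refine ⟨h6, ?_, by rw [h6]; exact (hG.chk _ _).1⟩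
      rw [← h1]
      exact idx_mem_cubes _ (cell_subset_unit h.1 hx)
    have hdis : C.PairwiseDisjoint fun p => cell p.1 p.2 := by
      intro p hp p' hp' hne
      refine Set.disjoint_left.2 fun x hx hx' => hne ?_
      have h1 := (hall p hp x hx).2
      have h2 := (hall p' hp' x hx').2
      obtain ⟨_, -, -, h3, -⟩ := hp
      obtain ⟨_, -, -, h4, -⟩ := hp'
      have h5 : p.1 = p'.1 := by
        by_contra h6
        rcases lt_or_gt_of_ne h6 with h7 | h7
        · exact h2 _ h7 (by rw [idx_of_mem hx]; exact h3)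
        · exact h1 _ h7 (by rw [idx_of_mem hx']; exact h4)
      refine Prod.ext h5 ?_
      rw [← idx_of_mem hx, ← idx_of_mem hx', h5]
    have hcov : Bad S0 st k j ⊆ {x | ¬ (x ∈ S.D → ∃ k', (st S).adm k' (idx k' x))} ∪
        ⋃ p ∈ C, Bad S0 st p.1 p.2 := by
      intro x hx
      by_cases h1 : ∃ k', (st S).adm k' (idx k' x)
      · right
        have h2 := Nat.find_spec h1
        have h3 := hG.late _ _ h2
        have h4 := hx.2 k le_rfl (by rw [idx_of_mem hx.1]; exact hk) (Nat.find h1)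
        rw [idx_of_mem hx.1] at h4
        refine mem_biUnion (x := (Nat.find h1, idx (Nat.find h1) x))
          ⟨x, hx.1, rfl, h2, fun k'' h => Nat.find_min h1 h, h4⟩
          ⟨mem_cell_idx _ x, fun k1 h => hx.2 k1 (by simp only at h; omega)⟩
      · exact Or.inl fun h2 => h1 (h2 (hD ▸ hx.1))
    have hone : ∀ p : C, volume (Bad S0 st p.1.1 p.1.2) ≤
        ENNReal.ofReal (1 - δ) ^ N * ∫⁻ x in cell p.1.1 p.1.2, (st S).W x := by
      rintro ⟨p, hp⟩
      refine (ih _ _ (hnode p hp).2).trans ?_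
      gcongr
      rw [(hnode p hp).1, ← setLIntegral_const]
      refine setLIntegral_mono hY.meas fun x hx => ?_
      have h1 := hall p hp x hx
      obtain ⟨_, -, -, h3, -, h4⟩ := hp
      have h5 := hY.pot x (hD ▸ h1.1) p.1 (by rw [idx_of_mem hx]; exact h3) h1.2
      rw [idx_of_mem hx] at h5
      exact h5.resolve_left h4
    have hint := hY.int
    rw [hD, ENNReal.ofReal_mul' (by linarith [hs.one _ hV])] at hint
    refine (measure_mono hcov).trans ((measure_union_le _ _).trans ?_)
    rw [ae_iff.1 hG.cov, zero_add]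
    refine (measure_biUnion_le _ hC _).trans ((ENNReal.tsum_le_tsum hone).trans ?_)
    rw [ENNReal.tsum_mul_left,
      ← lintegral_biUnion hC (fun p _ => measurableSet_cell p.1 p.2) hdis, pow_succ, mul_assoc,
      ← mul_assoc (ENNReal.ofReal (1 - δ))]
    gcongr
    refine le_trans (lintegral_mono_set ?_) hint
    exact iUnion₂_subset fun p hp x hx => (hall p hp x hx).1

theorem bad_null (hN : St_NODE) (hs : Sys V ψ K cs δ S0 st) {k : ℕ} {j : Ix m}
    (h : Act S0 st k j) : volume (Bad S0 st k j) = 0 := by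
  have h1 : ENNReal.ofReal (1 - δ) < 1 := ENNReal.ofReal_lt_one.2 (by linarith [hs.hδ])
  have h2 := ENNReal.Tendsto.mul_const (ENNReal.tendsto_pow_atTop_nhds_zero_of_lt_one h1)
    (b := ENNReal.ofReal (ψ (node S0 st k j)) * volume (cell k j))
    (Or.inr (ENNReal.mul_ne_top ENNReal.ofReal_ne_top (volume_cell_ne_top k j)))
  rw [zero_mul] at h2
  exact le_antisymm (ge_of_tendsto' h2 fun N => bad_le hN hs N k j h) zero_le

end REC49

open REC49

theorem r_REC : R_REC := by
  intro hN m V ψ K cs δ S0 st hs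
  have h1 : ∀ᵐ x : X m, ∀ p : ℕ × Ix m, Act S0 st p.1 p.2 → x ∉ Bad S0 st p.1 p.2 := by
    refine ae_all_iff.2 fun p => ?_
    by_cases h : Act S0 st p.1 p.2
    · filter_upwards [measure_eq_zero_iff_ae_notMem.1 (bad_null hN hs h)] with x hx _ using hx
    · exact Eventually.of_forall fun x hx => absurd hx h
  have h2 : ∀ᵐ x : X m, ∀ p : ℕ × Ix m, V (node S0 st p.1 p.2) → x ∈ (node S0 st p.1 p.2).D →
      ∃ k', (st (node S0 st p.1 p.2)).adm k' (idx k' x) := by
    refine ae_all_iff.2 fun p => ?_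
    by_cases h : V (node S0 st p.1 p.2)
    · filter_upwards [(hs.geom _ h).cov] with x hx _ using hx
    · exact Eventually.of_forall fun x hx => absurd hx h
  filter_upwards [h1, h2] with x hx1 hx2 hx k0
  have hF := hN m V ψ K cs δ S0 st hs x hx k0
  have h3 := hx2 (k0, idx k0 x) hF.v hF.mem
  have h4 := Nat.find_spec h3
  have h5 : k0 < Nat.find h3 := not_le.1 fun h => hF.wait _ h h4
  have h6 := born h5 h4 fun k'' h => Nat.find_min h3 h
  have h7 := hx1 (Nat.find h3, idx (Nat.find h3) x)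
    ⟨idx_mem_cubes _ hx, by simp only; rw [h6]; exact ((hs.geom _ hF.v).chk _ _).1⟩
  by_contra h8
  refine h7 ⟨mem_cell_idx _ x, fun k1 h9 h10 k' h11 => h8 ⟨k1, ?_, h10, k', h11⟩⟩
  simp only at h9
  omega

end Pool.Agent.Lib.FQ
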