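import Pool.Agent.Lib.FQ.Kit2

/-! The measure of a slab in a cube. -/

set_option autoImplicit false

open scoped Topology ENNReal NNReal RealInnerProductSpace Classical
open Metric Filter MeasureTheory Set

noncomputable section

namespace Pool.Agent.Lib.FQ

theorem r_SLAB : R_SLAB := by
  intro m γ hγ
  obtain ⟨i, hi⟩ := Function.ne_iff.1 hγ
  have hi0 : γ i ≠ 0 := hi
  refine ⟨|(γ i)⁻¹| * 2, by positivity, fun k j b ε hε => ?_⟩
  have hr := sd_pos k
  let T : X m →ₗ[ℝ] X m := Matrix.toLin' ((1 : Matrix (Fin m) (Fin m) ℝ).updateRow i γ)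
  have hdet : LinearMap.det T = γ i := by
    rw [LinearMap.det_toLin', ← Matrix.cramer_transpose_apply, Matrix.transpose_one,
      Matrix.cramer_one]
    rfl
  have hT : ∀ x l, T x l = if l = i then γ ⬝ᵥ x else x l := fun x l => by
    simp only [T, Matrix.toLin'_apply, Matrix.mulVec, Matrix.updateRow_apply]
    split_ifs with h
    · rfl
    · simp [dotProduct, Matrix.one_apply]
  let lo : X m := fun l => if l = i then b + γ ⬝ᵥ ctr k j - ε * sd k else (j l : ℝ) * sd k
  let hi : X m := fun l => if l = i then b + γ ⬝ᵥ ctr k j + ε * sd k else ((j l : ℝ) + 1) * sd k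
  have hsub : {x | x ∈ cell k j ∧ |γ ⬝ᵥ (x - ctr k j) - b| ≤ ε * sd k} ⊆ T ⁻¹' Icc lo hi := by
    rintro x ⟨h1, h2⟩
    rw [dotProduct_sub, abs_le] at h2
    have h3 := mem_cell.1 h1
    refine ⟨fun l => ?_, fun l => ?_⟩ <;> simp only [hT, lo, hi] <;> split_ifs
    · linarith [h2.1]
    · exact (h3 l).1
    · linarith [h2.2]
    · exact (h3 l).2.le
  have hv : volume (Icc lo hi) = ENNReal.ofReal (2 * ε) * ENNReal.ofReal (sd k ^ m) := by
    have e : ∀ l, ENNReal.ofReal (hi l - lo l) =
        (if l = i then ENNReal.ofReal (2 * ε) else 1) * ENNReal.ofReal (sd k) := fun l => by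
      simp only [lo, hi]
      split_ifs
      · rw [← ENNReal.ofReal_mul (by positivity)]
        congr 1
        ring
      · rw [one_mul]
        congr 1
        ring
    rw [Real.volume_Icc_pi]
    simp only [e, Finset.prod_mul_distrib, Finset.prod_ite_eq', Finset.mem_univ, if_true,
      Finset.prod_const, Finset.card_univ, Fintype.card_fin, ENNReal.ofReal_pow hr.le]
  refine (measure_mono hsub).trans_eq ?_
  rw [Measure.addHaar_preimage_linearMap _ (hdet ▸ hi0), hdet, hv, volume_cell, ← mul_assoc,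
    ← ENNReal.ofReal_mul (abs_nonneg _), mul_assoc]

end Pool.Agent.Lib.FQ
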