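import Pool.Agent.Lib.FQ.Kit2

/-! Row START: the starting state is valid. -/

set_option autoImplicit false

open scoped Topology ENNReal NNReal RealInnerProductSpace Classical
open Metric Filter MeasureTheory Set

noncomputable section

namespace Pool.Agent.Lib.FQ

namespace START55

variable {m : ℕ}

theorem norm_eq_sup (p : P m) : ‖p‖ = sup ((J m).symm p) := by
  have h := norm_J ((J m).symm p)
  rwa [ContinuousLinearEquiv.apply_symm_apply] at h

theorem dt_start (e : ℝ) : dt (start m e).A = e ^ (m + 1) := by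
  have h : ((start m e).A.comp (J m : E m →L[ℝ] P m)) = e • ContinuousLinearMap.id ℝ (E m) := by
    ext1 z
    simp [start]
  rw [dt, h, ContinuousLinearMap.det, ContinuousLinearMap.toLinearMap_smul, LinearMap.det_smul,
    ContinuousLinearMap.coe_id, LinearMap.det_id, mul_one, finrank_euclideanSpace_fin]

theorem norm_A (e : ℝ) (he : 0 ≤ e) (p : P m) : ‖(start m e).A p‖ = e * ‖(J m).symm p‖ := by
  have h : (start m e).A p = e • (J m).symm p := rfl
  rw [h, norm_smul, Real.norm_of_nonneg he]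

theorem norm_y (e : ℝ) (he : 0 ≤ e) : ‖(start m e).y‖ ≤ e * (((m : ℝ) + 1) / 2) := by
  have h : (start m e).y = e • (J m).symm (0, -(1 / 2)) := by
    have h1 : (start m e).y =
        e • (J m).symm (ctr 0 0, 0) + -(e • (J m).symm (ctr 0 0, 1 / 2)) := rfl
    rw [h1, ← sub_eq_add_neg, ← smul_sub, ← map_sub]
    simp
  rw [h, norm_smul, Real.norm_of_nonneg he]
  refine mul_le_mul_of_nonneg_left ((norm_le_sup _).trans ?_) he
  rw [← norm_eq_sup, Prod.norm_def]
  simp only [norm_zero, norm_neg, Real.norm_eq_abs]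
  rw [abs_of_pos (by norm_num : (0 : ℝ) < 1 / 2), max_eq_right (by norm_num)]
  linarith

end START55

open START55 in
theorem r_START : R_START := by
  intro m κ hκ
  have he : 0 < κ.c / 2 := half_pos hκ.c_pos
  have hm : (0 : ℝ) ≤ m := Nat.cast_nonneg m
  refine ⟨he, ?_, ?_, fun h => absurd rfl h, Nat.zero_le _, fun _ z => ⟨?_, ?_⟩,
    fun h => absurd h (by simp [start]), fun h => absurd h (by simp [start])⟩
  · have h1 : (start m (κ.c / 2)).lam = κ.c / 2 := by
      change κ.c / 2 * sd 0 = _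
      rw [sd_zero, mul_one]
    have h2 := norm_y (m := m) (κ.c / 2) he.le
    have h3 : κ.c * ((m : ℝ) + 1) ≤ 1 := by
      have := hκ.cKu
      have := hκ.K0_ge'
      have := hκ.K0_le_Ku
      nlinarith [hκ.c_pos]
    have h4 : ‖(start m (κ.c / 2)).y‖ ≤ 1 / 4 := by linarith
    have h5 : ‖(start m (κ.c / 2)).y‖ ^ 2 ≤ (1 / 4) ^ 2 := pow_le_pow_left₀ (norm_nonneg _) h4 2
    rw [h1, dd]
    nlinarith [hκ.c_pos]
  · rw [dt_start]; positivity
  · rw [norm_A _ he.le, norm_eq_sup]
    have h1 := sup_le_norm ((J m).symm z)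
    have h2 := norm_nonneg ((J m).symm z)
    have h3 : κ.c / 2 * sup ((J m).symm z) ≤ κ.c / 2 * ‖(J m).symm z‖ := by gcongr
    have h4 : 0 ≤ κ.c / 2 * ‖(J m).symm z‖ := by positivity
    change κ.c / 2 * _ ≤ _
    nlinarith [hκ.K0_ge]
  · rw [norm_A _ he.le, norm_eq_sup z]
    have h1 := norm_le_sup ((J m).symm z)
    have h2 := sup_nonneg ((J m).symm z)
    have h3 : ((m : ℝ) + 1) * sup ((J m).symm z) ≤ κ.K0 * sup ((J m).symm z) := by
      gcongr; exact hκ.K0_ge'
    change _ ≤ κ.K0 * (κ.c / 2) * _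
    nlinarith

end Pool.Agent.Lib.FQ
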