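import Pool.Agent.Lib.FQ.Kit2

/-! A tent of a cycle, not the last one. -/

set_option autoImplicit false

open scoped Topology ENNReal NNReal RealInnerProductSpace Classical
open Metric Filter MeasureTheory Set

noncomputable section

namespace Pool.Agent.Lib.FQ

namespace STD90

variable {m : ℕ} {κ : Cst}

/-- displacement on the box under a tent with unit direction -/
theorem move (hκ : κ.OK m) {S : St m} (hS : Valid κ S) {w : E m} (hw : ‖w‖ = 1) {l : ℕ} {s : ℝ}
    (hs : 0 ≤ s) {z : P m} (hz : z.1 ∈ S.D) (h0 : 0 ≤ z.2) (h1 : z.2 ≤ sd S.k) :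
    ‖S.L z + -(tent l s S.k S.j z) • (S.a • w) - S.y‖ ≤ (κ.Ku + 1) * S.lam := by
  have h2 := hS.box hκ hz h0 h1
  have h3 := tent_le l hs S.k S.j h0
  have h4 := tent_nonneg l s S.k S.j z
  have h5 : ‖-(tent l s S.k S.j z) • (S.a • w)‖ = tent l s S.k S.j z * S.a := by
    rw [norm_smul, norm_smul, hw, Real.norm_eq_abs, Real.norm_eq_abs, abs_neg, abs_of_nonneg h4,
      abs_of_pos hS.a_pos, mul_one]
  have h6 : S.L z + -(tent l s S.k S.j z) • (S.a • w) - S.y =
      (S.L z - S.y) + -(tent l s S.k S.j z) • (S.a • w) := by abel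
  have h7 := norm_add_le (S.L z - S.y) (-(tent l s S.k S.j z) • (S.a • w))
  have h8 : tent l s S.k S.j z * S.a ≤ S.lam := by
    have := hS.a_pos
    have := sd_pos S.k
    unfold St.lam
    nlinarith
  rw [h6]
  linarith

/-- the size condition of a child of the same scale -/
theorem size (hκ : κ.OK m) {S S' : St m} (hS : Valid κ S) (ha : S'.a = S.a)
    (hk : S.k + 3 ≤ S'.k) (hd : ‖S'.y - S.y‖ ≤ (κ.Ku + 1) * S.lam) : S'.lam ≤ κ.c * dd S'.y := by
  have h1 := hS.disp hκ hd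
  have h2 := hS.size
  have h3 := hκ.c_pos
  have h4 := hS.dd_pos hκ
  have h0 := hS.a_pos
  have hk' := sd_le_eighth hk
  have h5 : S.a * sd S'.k ≤ S.lam / 8 := by unfold St.lam; nlinarith
  have h6 := mul_le_mul_of_nonneg_left h1 h3.le
  have h7 := mul_pos h3 h4
  rw [St.lam, ha]
  linarith

end STD90

open STD90 in
theorem r_STD : R_STD := by
  intro hGEN hPOT hR1 hNEXT hEXT hUP m κ hκ S hS htag htag'
  have hm := hκ.hm
  have ha := hS.a_pos
  obtain ⟨i, hi⟩ : ∃ i, S.tag = 3 + i := ⟨S.tag - 3, by omega⟩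
  have him : i < m := by omega
  obtain ⟨hiso, B, v, β, hdec⟩ := hS.iso3 htag
  have e3 : S.tag - 3 = i := by omega
  rw [e3] at hiso hdec
  obtain ⟨u, w, hw, hAu, horth, hcv⟩ :=
    hNEXT m i him.le S.a (κ.Λ i) S.A B v β ha hdec fun z => (hiso z).1
  have h8 : (1 : ℝ) ≤ 8 ^ i := Cst.OK.p8 i
  have h80 : (0 : ℝ) ≤ 8 ^ i := by linarith
  have hΛ := hκ.Λ_pos i
  have hu : ‖u‖ ≤ κ.Λ i := by
    have h1 := (hiso u).1
    rw [hAu, norm_smul, hw, Real.norm_eq_abs, abs_of_pos ha, mul_one, mul_comm (κ.Λ i)] at h1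
    exact le_of_mul_le_mul_left h1 ha
  have hR : ∀ f : Fa m, 0 < dt (S.A + (cv (fc i f) (8 ^ i)).smulRight (S.a • w)) ∧
      ∀ z, S.a * ‖z‖ ≤ κ.Λ i * (1 + ‖u‖ * (2 + 8 ^ i)) *
        ‖(S.A + (cv (fc i f) (8 ^ i)).smulRight (S.a • w)) z‖ := by
    intro f
    have := hR1 m S.A u (cv (fc i f) (8 ^ i)) S.a (κ.Λ i) (2 + 8 ^ i) hS.det (hcv f) ha.le
      hΛ.le (by linarith) (abs_cv_le i f h80) fun z => (hiso z).1
    rwa [hAu] at this
  have hI : ∀ f : Fa m,
      Iso (κ.Λ (i + 1)) κ.K0 S.a (S.A + (cv (fc i f) (8 ^ i)).smulRight (S.a • w)) := by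
    intro f z
    have h1 := hEXT m i S.a S.A B v β w f hdec hw horth
    have h2 := hUP m (i + 1) (by omega) S.a _ _ _ _ ha.le h1 z
    refine ⟨((hR f).2 z).trans ?_, by rw [hκ.hK0]; exact h2⟩
    rw [hκ.Λs]
    gcongr
  have hρ : 0 ≤ S.lam ^ (-κ.θ) := Real.rpow_nonneg hS.lam_pos.le _
  have hk1 := hS.kap_ge hκ
  have hk2 := kap_le_two hκ (S := S) (by omega)
  have hg0 := hκ.g_pos
  have hg1 := hκ.g_le'
  obtain ⟨W, hWm, hWi, hWp⟩ := hPOT m κ.M κ.C1 κ.θ hκ.whit hκ.C1_nonneg hκ.θ_pos hκ.θ_half i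
    him.le S.k S.j 0 (fun _ => by simp) (kap κ S) (kap κ S - κ.g) (S.lam ^ (-κ.θ))
    (by linarith) (by linarith) hk2 hρ
  have hG : Geom κ.K S (tstep S i (8 ^ i) κ.M (S.a • w) S.a (S.tag + 1) W) :=
    hGEN m hm κ.K S i (8 ^ i) κ.M κ.C1 (S.a • w) S.a (S.tag + 1) W him.le h8
      ((hκ.pow_le_T him.le).trans hκ.T_le_M) hκ.whit (hS.good hκ) fun f =>
        ⟨(hR f).1, S.a, ha, (hI f).mono ha.le (hκ.hK'' _ (by omega)) hκ.K0_le_K⟩
  have hch : ∀ k' j', Adm i κ.M S.k S.j k' j' → cell k' j' ⊆ S.D →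
      (tch S i (8 ^ i) κ.M (S.a • w) S.a (S.tag + 1) k' j').a = S.a ∧
      (tch S i (8 ^ i) κ.M (S.a • w) S.a (S.tag + 1) k' j').k = k' ∧
      ((tch S i (8 ^ i) κ.M (S.a • w) S.a (S.tag + 1) k' j').tag = 3 + (i + 1) ∨
        ((tch S i (8 ^ i) κ.M (S.a • w) S.a (S.tag + 1) k' j').tag = 3 + i ∧
          Outside i S.k S.j k' j')) ∧
      Valid κ (tch S i (8 ^ i) κ.M (S.a • w) S.a (S.tag + 1) k' j') := by
    intro k' j' hadm hsub
    have hk0 := sd_pos k'
    have h2 := hG.chk k' j'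
    have hk' : (tch S i (8 ^ i) κ.M (S.a • w) S.a (S.tag + 1) k' j').k = k' := h2.1
    have hy : (tch S i (8 ^ i) κ.M (S.a • w) S.a (S.tag + 1) k' j').y =
        S.L (ctr k' j', 0) + -(tent i (8 ^ i) S.k S.j (ctr k' j', 0)) • (S.a • w) := by
      have h1 := hG.aff k' j' hadm (ctr k' j', 0) (ctr_mem k' j') le_rfl hk0.le
      have h4 : (tch S i (8 ^ i) κ.M (S.a • w) S.a (S.tag + 1) k' j').j = j' := h2.2
      rw [St.y, hk', h4]
      exact h1
    have hd : ‖(tch S i (8 ^ i) κ.M (S.a • w) S.a (S.tag + 1) k' j').y - S.y‖ ≤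
        (κ.Ku + 1) * S.lam := by
      rw [hy]
      exact move hκ hS hw h80 (z := (ctr k' j', 0)) (hsub (ctr_mem k' j')) le_rfl (sd_pos _).le
    have hkk : S.k + 3 ≤ (tch S i (8 ^ i) κ.M (S.a • w) S.a (S.tag + 1) k' j').k := by
      rw [hk']; exact hadm.1
    by_cases hin : ∃ f, Inside i κ.M S.k S.j k' j' f
    · obtain ⟨f, -, he⟩ :=
        tch_inside (s := (8 : ℝ) ^ i) (V := S.a • w) (a' := S.a) (tg := S.tag + 1) hin
      have hA : (tch S i (8 ^ i) κ.M (S.a • w) S.a (S.tag + 1) k' j').A =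
          S.A + (cv (fc i f) (8 ^ i)).smulRight (S.a • w) := by rw [he]
      have ha' : (tch S i (8 ^ i) κ.M (S.a • w) S.a (S.tag + 1) k' j').a = S.a := by rw [he]
      have ht : (tch S i (8 ^ i) κ.M (S.a • w) S.a (S.tag + 1) k' j').tag = 3 + (i + 1) := by
        rw [he]; show S.tag + 1 = _; omega
      refine ⟨ha', hk', Or.inl ht, by rw [ha']; exact ha, size hκ hS ha' hkk hd,
        by rw [hA]; exact (hR f).1, fun _ => by omega, by rw [ht]; omega,
        fun h => by rw [ht] at h; omega, fun h => by rw [ht] at h; omega, fun _ => ?_⟩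
      have e4 : 3 + (i + 1) - 3 = i + 1 := by omega
      rw [ht, e4, hA, ha']
      exact ⟨hI f, _, _, _, hEXT m i S.a S.A B v β w f hdec hw horth⟩
    · have he := tch_outside (s := (8 : ℝ) ^ i) (V := S.a • w) (a' := S.a) (tg := S.tag + 1) hin
      have hA : (tch S i (8 ^ i) κ.M (S.a • w) S.a (S.tag + 1) k' j').A = S.A := by rw [he]
      have ha' : (tch S i (8 ^ i) κ.M (S.a • w) S.a (S.tag + 1) k' j').a = S.a := by rw [he]
      have ht : (tch S i (8 ^ i) κ.M (S.a • w) S.a (S.tag + 1) k' j').tag = 3 + i := by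
        rw [he]; exact hi
      refine ⟨ha', hk', Or.inr ⟨ht, hadm.2.resolve_left hin⟩, by rw [ha']; exact ha,
        size hκ hS ha' hkk hd, by rw [hA]; exact hS.det, fun _ => by omega, by rw [ht]; omega,
        fun h => by rw [ht] at h; omega, fun h => by rw [ht] at h; omega, fun _ => ?_⟩
      have e4 : 3 + i - 3 = i := by omega
      rw [ht, e4, hA, ha']
      exact ⟨hiso, _, _, _, hdec⟩
  refine ⟨_, hG, ?_, ?_, hWm, ?_, ?_, ?_, ?_⟩
  · intro z hz h0 h1
    have h2 := hS.disp hκ (move hκ hS hw (l := i) h80 hz h0 h1)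
    exact norm_le_one_of_dd ((half_pos (hS.dd_pos hκ)).le.trans h2)
  · intro k' j' hadm hsub
    exact (hch k' j' hadm hsub).2.2.2
  · refine hWi.trans (mul_le_mul_left (ENNReal.ofReal_le_ofReal ?_) _)
    have h3 : kap κ S - (kap κ S - (kap κ S - κ.g)) * (1 / 8) ^ m + 4 * κ.θ * κ.C1 ≤
        (1 - κ.δ) * kap κ S := by
      have h5 := mul_le_mul_of_nonneg_left hk2 hκ.δ_pos.le
      have h6 := hκ.θC
      have h7 := hκ.hδ
      have h9 := mul_pos hg0 hκ.q_pos
      rw [← hκ.hq]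
      nlinarith
    have h4 := mul_le_mul_of_nonneg_left h3 hρ
    rw [psi]
    linarith
  · intro x hx k' hadm hfirst
    right
    obtain ⟨ha', hk', ht, hv⟩ :=
      hch k' (idx k' x) hadm (cell_subset (by have := hadm.1; omega) hx)
    have hs0 := kap_std (κ := κ) hi
    have h1 := hWp x hx k' hadm hfirst
      (kap κ (tch S i (8 ^ i) κ.M (S.a • w) S.a (S.tag + 1) k' (idx k' x)))
      (by linarith [hv.kap_ge hκ]) (by
        rcases ht with ht | ht
        · rw [kap_std ht, hs0]; push_cast; linarith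
        · rw [kap_std ht.1, hs0]) fun hx' => by
        rcases ht with ht | ht
        · rw [kap_std ht, hs0]; push_cast; linarith
        · exact absurd ht.2 (not_outside_centre (mem_cell_idx k' x) hx')
    have h2 := psi_child (κ := κ) (S := S)
      (S' := tch S i (8 ^ i) κ.M (S.a • w) S.a (S.tag + 1) k' (idx k' x)) one_pos ha
      (by rw [ha', one_mul])
    rw [Real.one_rpow, one_mul, hk'] at h2
    rw [← h2] at h1
    exact h1
  · intro k' j' h
    exact h.elim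
  · intro h
    have := hS.k_pos (by omega)
    omega

end Pool.Agent.Lib.FQ
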