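import Pool.Agent.Lib.FQ.Kit2

/-! The last tent of a cycle. -/

set_option autoImplicit false

open scoped Topology ENNReal NNReal RealInnerProductSpace Classical
open Metric Filter MeasureTheory Set

noncomputable section

namespace Pool.Agent.Lib.FQ

namespace STDM35

variable {m : ℕ} {κ : Cst}

/-- displacement on the box under a tent with unit direction -/
theorem move (hκ : κ.OK m) {S : St m} (hS : Valid κ S) {w : E m} (hw : ‖w‖ = 1) {l : ℕ} {s : ℝ}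
    (hs : 0 ≤ s) {z : P m} (hz : z.1 ∈ S.D) (h0 : 0 ≤ z.2) (h1 : z.2 ≤ sd S.k) :
    ‖S.L z + -(tent l s S.k S.j z) • (S.a • w) - S.y‖ ≤ (κ.Ku + 1) * S.lam := by
  have h2 := hS.box hκ hz h0 h1
  have h3 := tent_le l hs S.k S.j h0
  have h4 := tent_nonneg l s S.k S.j z
  have h5 : ‖-(tent l s S.k S.j z) • (S.a • w)‖ = tent l s S.k S.j z * S.a := by
    rw [norm_smul, norm_smul, hw, Real.norm_eq_abs, Real.norm_eq_abs, abs_neg, abs_of_nonneg h4,
      abs_of_pos hS.a_pos, mul_one]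
  have h6 : S.L z + -(tent l s S.k S.j z) • (S.a • w) - S.y =
      (S.L z - S.y) + -(tent l s S.k S.j z) • (S.a • w) := by abel
  have h7 := norm_add_le (S.L z - S.y) (-(tent l s S.k S.j z) • (S.a • w))
  have h8 : tent l s S.k S.j z * S.a ≤ S.lam := by
    have := hS.a_pos
    have := sd_pos S.k
    unfold St.lam
    nlinarith
  rw [h6]
  linarith

/-- the dichotomy -/
theorem nice (hκ : κ.OK m) {S S' : St m} (hS : Valid κ S) (hS' : Valid κ S') (ha : S'.a = S.a)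
    (ht : S'.tag = 1) (hy : ‖S'.y - S.y‖ ≤ (κ.Ku + 1) * S.lam) {u : P m} (hu : u.2 = 1)
    (hu' : ‖u.1‖ ≤ κ.T) (hd : S.a * ‖S.y‖ ≤ ⟪S.y, S'.A u⟫) : Nice κ S' := by
  have ha0 := hS.a_pos
  by_cases h : 1 / 2 ≤ ‖S.y‖
  · refine Or.inr (Or.inl ⟨u, hu, hu', ?_⟩)
    have hT := hκ.T_ge
    have hK := hκ.K0_ge
    have hKu := hκ.K0_le_Ku
    have h1 : ‖u‖ ≤ κ.T := by
      rw [Prod.norm_def]
      refine max_le hu' ?_
      rw [hu, norm_one]; linarith
    have h2 : ‖S'.A u‖ ≤ κ.K0 * S.a * κ.T := by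
      have := (hS'.iso0 (by omega) u).2
      rw [ha] at this
      exact this.trans (by gcongr)
    have h3 : ‖S'.y - S.y‖ ≤ (κ.Ku + 1) * κ.c :=
      hy.trans (mul_le_mul_of_nonneg_left (hS.lam_le hκ) (by linarith))
    have h4 : |⟪S'.y - S.y, S'.A u⟫| ≤ (κ.Ku + 1) * κ.c * (κ.K0 * S.a * κ.T) :=
      (abs_real_inner_le_norm _ _).trans
        (mul_le_mul h3 h2 (norm_nonneg _) ((norm_nonneg _).trans h3))
    have h5 : (κ.Ku + 1) * κ.c * (κ.K0 * S.a * κ.T) = S.a / 8 := by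
      have := hκ.hc
      linear_combination (S.a / 8) * this
    rw [h5, inner_sub_left, abs_le] at h4
    rw [ha]
    nlinarith [h4.1]
  · have h1 : 3 / 4 ≤ dd S.y := by
      unfold dd; nlinarith [norm_nonneg S.y]
    have h2 := hS.disp hκ hy
    by_cases h3 : κ.c0 ≤ S'.lam
    · exact Or.inl h3
    · refine Or.inr (Or.inr ?_)
      have h4 := hκ.G_ge
      have h5 := hκ.hc0'
      have h6 := hκ.c_pos
      have h7 : S'.lam * (4 * κ.G) ≤ κ.c0 * (4 * κ.G) :=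
        mul_le_mul_of_nonneg_right (not_le.1 h3).le (by linarith)
      nlinarith

end STDM35

open STDM35 in
theorem r_STDM : R_STDM := by
  intro hGEN hPOT hR1 hNEXT hEXT hUP hRES hDICH m κ hκ S hS htag
  have hm := hκ.hm
  have ha := hS.a_pos
  obtain ⟨hiso, B, v, β, hdec⟩ := hS.iso3 (by omega)
  have e3 : S.tag - 3 = m := by omega
  rw [e3] at hiso hdec
  obtain ⟨u, w, hw, hAu, horth, hcv⟩ :=
    hNEXT m m le_rfl S.a (κ.Λ m) S.A B v β ha hdec fun z => (hiso z).1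
  have h8 : (1 : ℝ) ≤ 8 ^ m := Cst.OK.p8 m
  have h80 : (0 : ℝ) ≤ 8 ^ m := by linarith
  have hdet : ∀ f : Fa m, 0 < dt (S.A + (cv (fc m f) (8 ^ m)).smulRight (S.a • w)) := by
    intro f
    have := (hR1 m S.A u (cv (fc m f) (8 ^ m)) S.a (κ.Λ m) (2 + 8 ^ m) hS.det (hcv f) ha.le
      (hκ.Λ_pos m).le (by linarith) (abs_cv_le m f h80) fun z => (hiso z).1).1
    rwa [hAu] at this
  have hI : ∀ f : Fa m, Iso κ.K0 κ.K0 S.a (S.A + (cv (fc m f) (8 ^ m)).smulRight (S.a • w)) := by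
    intro f z
    have h1 := hEXT m m S.a S.A B v β w f hdec hw horth
    have h2 := hUP m (m + 1) le_rfl S.a _ _ _ _ ha.le h1 z
    have h3 := hRES m hm S.a _ _ _ _ ha.le h1 z
    refine ⟨h3.trans ?_, by rw [hκ.hK0]; exact h2⟩
    exact mul_le_mul_of_nonneg_right hκ.K0_ge (norm_nonneg _)
  obtain ⟨b, u', hu1, hu2, hu3⟩ := hDICH m ⟨0, hm⟩ S.a S.A B v β w ha.le hdec hw horth S.y
  have hρ : 0 ≤ S.lam ^ (-κ.θ) := Real.rpow_nonneg hS.lam_pos.le _
  obtain ⟨W, hWm, hWi, hWp⟩ := hPOT m κ.M κ.C1 κ.θ hκ.whit hκ.C1_nonneg hκ.θ_pos hκ.θ_half m le_rfl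
    S.k S.j (off ⟨0, hm⟩ b) (off_mem _ b) (1 + κ.γ) 1 (S.lam ^ (-κ.θ)) zero_le_one
    (by linarith [hκ.γ_pos]) (by linarith [hκ.γ_le]) hρ
  have hG : Geom κ.K S (tstep S m (8 ^ m) κ.M (S.a • w) S.a 1 W) :=
    hGEN m hm κ.K S m (8 ^ m) κ.M κ.C1 (S.a • w) S.a 1 W le_rfl h8
      ((hκ.pow_le_T le_rfl).trans hκ.T_le_M) hκ.whit (hS.good hκ) fun f =>
        ⟨hdet f, S.a, ha, (hI f).mono ha.le hκ.K0_le_K hκ.K0_le_K⟩
  have hch : ∀ k' j', Adm m κ.M S.k S.j k' j' → cell k' j' ⊆ S.D → ∃ f : Fa m,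
      Inside m κ.M S.k S.j k' j' f ∧
      (tch S m (8 ^ m) κ.M (S.a • w) S.a 1 k' j').A =
        S.A + (cv (fc m f) (8 ^ m)).smulRight (S.a • w) ∧
      (tch S m (8 ^ m) κ.M (S.a • w) S.a 1 k' j').a = S.a ∧
      (tch S m (8 ^ m) κ.M (S.a • w) S.a 1 k' j').tag = 1 ∧
      (tch S m (8 ^ m) κ.M (S.a • w) S.a 1 k' j').k = k' ∧
      ‖(tch S m (8 ^ m) κ.M (S.a • w) S.a 1 k' j').y - S.y‖ ≤ (κ.Ku + 1) * S.lam ∧
      Valid κ (tch S m (8 ^ m) κ.M (S.a • w) S.a 1 k' j') := by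
    intro k' j' hadm hsub
    have hin : ∃ f, Inside m κ.M S.k S.j k' j' f :=
      hadm.2.resolve_right (not_outside_top hsub)
    obtain ⟨f, hf, he⟩ :=
      tch_inside (s := (8 : ℝ) ^ m) (V := S.a • w) (a' := S.a) (tg := 1) hin
    have hk := sd_le_eighth hadm.1
    have hk0 := sd_pos k'
    have hy : (tch S m (8 ^ m) κ.M (S.a • w) S.a 1 k' j').y =
        S.L (ctr k' j', 0) + -(tent m (8 ^ m) S.k S.j (ctr k' j', 0)) • (S.a • w) := by
      have h1 := hG.aff k' j' hadm (ctr k' j', 0) (ctr_mem k' j') le_rfl hk0.le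
      have h2 := hG.chk k' j'
      have h3 : (tch S m (8 ^ m) κ.M (S.a • w) S.a 1 k' j').k = k' := h2.1
      have h4 : (tch S m (8 ^ m) κ.M (S.a • w) S.a 1 k' j').j = j' := h2.2
      rw [St.y, h3, h4]
      exact h1
    have hd : ‖(tch S m (8 ^ m) κ.M (S.a • w) S.a 1 k' j').y - S.y‖ ≤ (κ.Ku + 1) * S.lam := by
      rw [hy]
      exact move hκ hS hw h80 (z := (ctr k' j', 0)) (hsub (ctr_mem k' j')) le_rfl (sd_pos _).le
    have hA : (tch S m (8 ^ m) κ.M (S.a • w) S.a 1 k' j').A =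
        S.A + (cv (fc m f) (8 ^ m)).smulRight (S.a • w) := by rw [he]
    have ha' : (tch S m (8 ^ m) κ.M (S.a • w) S.a 1 k' j').a = S.a := by rw [he]
    have ht : (tch S m (8 ^ m) κ.M (S.a • w) S.a 1 k' j').tag = 1 := by rw [he]
    have hk' : (tch S m (8 ^ m) κ.M (S.a • w) S.a 1 k' j').k = k' := by rw [he]
    refine ⟨f, hf, hA, ha', ht, hk', hd, ?_⟩
    refine ⟨by rw [ha']; exact ha, ?_, by rw [hA]; exact hdet f, fun _ => ?_,
      by rw [ht]; omega, fun _ => by rw [hA, ha']; exact hI f, fun h => ?_, fun h => ?_⟩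
    · have h1 := hS.disp hκ hd
      have h2 := hS.size
      have h3 := hκ.c_pos
      have h4 := hS.dd_pos hκ
      have h5 : S.a * sd k' ≤ S.lam / 8 := by unfold St.lam; nlinarith
      have h6 := mul_le_mul_of_nonneg_left h1 h3.le
      have h7 := mul_pos h3 h4
      rw [St.lam, ha', hk']
      linarith
    · rw [hk']; have := hadm.1; omega
    · rw [ht] at h; omega
    · rw [ht] at h; omega
  refine ⟨_, hG, ?_, ?_, hWm, ?_, ?_, ?_, ?_⟩
  · intro z hz h0 h1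
    have h2 := hS.disp hκ (move hκ hS hw (l := m) h80 hz h0 h1)
    exact norm_le_one_of_dd ((half_pos (hS.dd_pos hκ)).le.trans h2)
  · intro k' j' hadm hsub
    obtain ⟨f, -, -, -, -, -, -, hv⟩ := hch k' j' hadm hsub
    exact hv
  · refine hWi.trans (mul_le_mul_left (ENNReal.ofReal_le_ofReal ?_) _)
    have h1 : kap κ S = 1 + κ.γ - ((m : ℝ) + 1) * κ.g := kap_std (by omega)
    have h2 : ((m : ℝ) + 1) * κ.g = κ.γ * κ.q / 2 := by linarith [hκ.hg]
    have h3 : 1 + κ.γ - (1 + κ.γ - 1) * (1 / 8) ^ m + 4 * κ.θ * κ.C1 ≤ (1 - κ.δ) * kap κ S := by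
      have h4 := kap_le_two hκ (S := S) (by omega)
      have h5 := mul_le_mul_of_nonneg_left h4 hκ.δ_pos.le
      have h6 := hκ.θC
      have h7 := hκ.hδ
      have h9 : κ.g * κ.q ≤ κ.g / 8 := by nlinarith [hκ.g_pos, hκ.q_le]
      have h10 := hκ.g_le
      have h11 := hκ.g_pos
      rw [← hκ.hq]
      nlinarith
    have h4 := mul_le_mul_of_nonneg_left h3 hρ
    rw [psi]
    linarith
  · intro x hx k' hadm hfirst
    right
    obtain ⟨f, hf, hA, ha', ht, hk', hd, hv⟩ :=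
      hch k' (idx k' x) hadm (cell_subset (by have := hadm.1; omega) hx)
    have h1 := hWp x hx k' hadm hfirst (kap κ (tch S m (8 ^ m) κ.M (S.a • w) S.a 1 k' (idx k' x)))
      (by linarith [hv.kap_ge hκ]) (kap_le hκ (by rw [ht]; omega)) fun hx' => by
        refine (kap_nice ht (nice hκ hS hv ha' ht hd hu1 (by rw [hκ.hT]; exact hu2) ?_)).le
        rw [hA, fc_star hx' (hf x (mem_cell_idx k' x)).1]
        exact hu3
    have h2 := psi_child (κ := κ) (S := S)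
      (S' := tch S m (8 ^ m) κ.M (S.a • w) S.a 1 k' (idx k' x)) one_pos ha (by rw [ha', one_mul])
    rw [Real.one_rpow, one_mul, hk'] at h2
    rw [← h2] at h1
    exact h1
  · intro k' j' h
    exact h.elim
  · intro h
    have := hS.k_pos (by omega)
    omega

end Pool.Agent.Lib.FQ
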