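import Pool.Agent.Lib.FQ.Kit2

/-! The inward spike. -/

set_option autoImplicit false

open scoped Topology ENNReal NNReal RealInnerProductSpace Classical
open Metric Filter MeasureTheory Set

noncomputable section

namespace Pool.Agent.Lib.FQ

namespace STEER49

variable {m : ℕ} {κ : Cst} {S : St m} {u : P m}

theorem norm_u (hκ : κ.OK m) (h2 : u.2 = 1) (h1 : ‖u.1‖ ≤ κ.T) : ‖u‖ ≤ κ.T := by
  rw [Prod.norm_def, h2, norm_one]
  exact max_le h1 (by linarith [hκ.T_ge])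

theorem norm_Au (hκ : κ.OK m) (hS : Valid κ S) (ht : S.tag = 1) (hu : ‖u‖ ≤ κ.T) :
    ‖S.A u‖ ≤ κ.K0 * S.a * κ.T := by
  have h1 := hS.a_pos
  have h2 := hκ.K0_ge
  exact (hS.iso0 (by omega) u).2.trans (by gcongr)

theorem face (hR : St_R1) (hκ : κ.OK m) (hS : Valid κ S) (ht : S.tag = 1) (h2 : u.2 = 1)
    (h1 : ‖u.1‖ ≤ κ.T) (f : Fa m) :
    0 < dt (S.A + (cv (fc m f) κ.T).smulRight (κ.G • S.A u)) ∧
      Iso κ.K1 κ.Ku (κ.G * S.a) (S.A + (cv (fc m f) κ.T).smulRight (κ.G • S.A u)) := by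
  have ha := hS.a_pos
  have hK := hκ.K0_ge
  have hT := hκ.T_ge
  have hG := hκ.G_ge
  have hu := norm_u hκ h2 h1
  have hAu := norm_Au hκ hS ht hu
  have hiso := hS.iso0 (by omega)
  have hw : 0 ≤ cv (fc m f) κ.T (κ.G • u) := by
    rw [map_smul, cv_apply, h2, smul_eq_mul]
    have := (abs_le.1 (abs_fc_top_le f u.1)).1
    exact mul_nonneg (by linarith) (by linarith)
  have h3 := hR m S.A (κ.G • u) (cv (fc m f) κ.T) S.a κ.K0 (2 + κ.T) hS.det hw ha.le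
    (by linarith) (by linarith) (abs_cv_le m f (by linarith)) fun z => (hiso z).1
  rw [map_smul] at h3
  refine ⟨h3.1, fun z => ⟨?_, ?_⟩⟩
  · have h4 := h3.2 z
    have h5 : ‖κ.G • u‖ ≤ κ.G * κ.T := by
      rw [norm_smul, Real.norm_of_nonneg (by linarith)]; gcongr
    have h6 : κ.K0 * (1 + ‖κ.G • u‖ * (2 + κ.T)) ≤ κ.K0 * (1 + κ.G * κ.T * (2 + κ.T)) := by
      gcongr
    have h7 := h4.trans (mul_le_mul_of_nonneg_right h6 (norm_nonneg _))
    have h8 := mul_le_mul_of_nonneg_left h7 (by linarith : 0 ≤ κ.G)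
    rw [hκ.hK1]; linarith
  · have h4 := (hiso z).2
    have h5 := abs_cv_le m f (by linarith : 0 ≤ κ.T) z
    have h6 : ‖cv (fc m f) κ.T z • κ.G • S.A u‖ ≤ (2 + κ.T) * ‖z‖ * (κ.G * (κ.K0 * S.a * κ.T)) := by
      rw [norm_smul, norm_smul, Real.norm_eq_abs, Real.norm_of_nonneg (by linarith)]
      gcongr
    have h7 : κ.K0 * S.a * ‖z‖ ≤ κ.G * (κ.K0 * S.a * ‖z‖) :=
      le_mul_of_one_le_left (by positivity) hG
    rw [add_apply, ContinuousLinearMap.smulRight_apply, hκ.hKu]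
    refine (norm_add_le _ _).trans ?_
    linarith

theorem key (hκ : κ.OK m) (hS : Valid κ S) (ht : S.tag = 1) (hlam : S.lam < κ.c0)
    (hu : ‖u‖ ≤ κ.T) (hy : S.a / 4 ≤ ⟪S.y, S.A u⟫) {z : P m} (hz : z.1 ∈ S.D) (h0 : 0 ≤ z.2)
    (h1 : z.2 ≤ sd S.k) :
    tent m κ.T S.k S.j z * κ.G * S.a / 8 ≤
      dd (S.L z + -(tent m κ.T S.k S.j z) • κ.G • S.A u) := by
  have ha := hS.a_pos
  have hK := hκ.K0_ge
  have hKu := hκ.K0_le_Ku
  have hT := hκ.T_ge
  have hG := hκ.G_ge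
  have hc := hκ.c_pos
  have hl := hS.lam_pos
  have hAu := norm_Au hκ hS ht hu
  have hb := hS.box hκ hz h0 h1
  have hd := hS.disp hκ (y := S.L z) (by nlinarith)
  have hd0 := hS.dd_pos hκ
  have hφ0 := tent_nonneg m κ.T S.k S.j z
  have hφ1 := tent_le m (by linarith : 0 ≤ κ.T) S.k S.j h0
  set φ := tent m κ.T S.k S.j z
  have h2 : S.a / 8 ≤ ⟪S.L z, S.A u⟫ := by
    have h3 := abs_real_inner_le_norm (S.L z - S.y) (S.A u)
    have h4 : ‖S.L z - S.y‖ ≤ (κ.Ku + 1) * κ.c := by nlinarith [hS.lam_le hκ]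
    have h5 : ‖S.L z - S.y‖ * ‖S.A u‖ ≤ (κ.Ku + 1) * κ.c * (κ.K0 * S.a * κ.T) :=
      mul_le_mul h4 hAu (norm_nonneg _) ((norm_nonneg _).trans h4)
    have h6 : (κ.Ku + 1) * κ.c * (κ.K0 * S.a * κ.T) = S.a / 8 := by
      linear_combination S.a / 8 * hκ.hc
    rw [inner_sub_left] at h3
    linarith [(abs_le.1 h3).1]
  have h3 : φ * κ.G * ‖S.A u‖ ^ 2 ≤ S.a / 8 := by
    have h4 : φ * κ.G * ‖S.A u‖ ^ 2 ≤ sd S.k / 4 * κ.G * (κ.K0 * S.a * κ.T) ^ 2 := by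
      have := sd_pos S.k
      gcongr
    have h5 : S.lam * (2 * κ.G * κ.K0 ^ 2 * κ.T ^ 2) ≤ 1 :=
      le_trans (by gcongr) hκ.hc0
    have h6 := mul_le_mul_of_nonneg_left h5 ha.le
    unfold St.lam at h6
    linarith
  have h4 : 0 ≤ φ * κ.G := by positivity
  have h5 := mul_le_mul_of_nonneg_left h2 h4
  have h6 := mul_le_mul_of_nonneg_left h3 h4
  unfold dd at hd hd0 ⊢
  rw [norm_add_sq_real, smul_smul, real_inner_smul_right, norm_smul, mul_pow, Real.norm_eq_abs,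
    sq_abs]
  linarith

end STEER49

open STEER49

theorem r_STEER : R_STEER := by
  intro hG hP hR m κ hκ S hS ht hlam hst
  have hkap : kap κ S = 1 := kap_nice ht (Or.inr (Or.inl hst))
  obtain ⟨u, hu2, hu1, hy⟩ := hst
  have ha := hS.a_pos
  have hG1 := hκ.G_ge
  have hT := hκ.T_ge
  have hu := norm_u hκ hu2 hu1
  have hface := face hR hκ hS ht hu2 hu1
  have hρ1 : 0 < S.lam ^ (-κ.θ) := Real.rpow_pos_of_pos hS.lam_pos _
  have hρ2 : 0 < κ.G ^ (-κ.θ) := Real.rpow_pos_of_pos (by linarith) _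
  obtain ⟨W, hW1, hW2, hW3⟩ := hP m κ.M κ.C1 κ.θ hκ.whit hκ.C1_nonneg hκ.θ_pos hκ.θ_half m le_rfl
    S.k S.j 0 (fun _ => by simp) 2 2 (κ.G ^ (-κ.θ) * S.lam ^ (-κ.θ)) (by norm_num) le_rfl le_rfl
    (by positivity)
  have hgeo := hG m hκ.hm κ.K S m κ.T κ.M κ.C1 (κ.G • S.A u) (κ.G * S.a) 2 W le_rfl (by linarith)
    hκ.T_le_M hκ.whit (hS.good hκ) fun f => ⟨(hface f).1, κ.G * S.a, by positivity,
      (hface f).2.mono (by positivity) hκ.hK' hκ.hK⟩
  have hin : ∀ k' j', Adm m κ.M S.k S.j k' j' → cell k' j' ⊆ S.D →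
      ∃ f, Inside m κ.M S.k S.j k' j' f := fun k' j' h h' => h.2.resolve_right (not_outside_top h')
  refine ⟨_, hgeo, ?_, ?_, hW1, ?_, ?_, fun _ _ h => h.elim, fun h => ?_⟩
  · intro z hz h0 h1
    refine norm_le_one_of_dd (le_trans ?_ (key hκ hS ht hlam hu hy hz h0 h1))
    have := tent_nonneg m κ.T S.k S.j z
    positivity
  · intro k' j' h h'
    have haff := hgeo.aff k' j' h (ctr k' j', 0) (ctr_mem _ _) le_rfl (sd_pos _).le
    obtain ⟨f, hf, he⟩ := tch_inside (s := κ.T) (V := κ.G • S.A u) (a' := κ.G * S.a) (tg := 2)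
      (hin k' j' h h')
    change Valid κ (tch _ _ _ _ _ _ _ _ _)
    change (tch _ _ _ _ _ _ _ _ _).L _ = _ at haff
    rw [he] at haff ⊢
    refine ⟨by positivity, ?_, (hface f).1, fun _ => by have := h.1; simp only; omega,
      by simp only; omega, fun h => by simp at h, fun _ => (hface f).2, fun h => by simp at h⟩
    have h1 := key hκ hS ht hlam hu hy (z := (ctr k' j', 0)) (h' (ctr_mem _ _)) le_rfl (sd_pos _).le
    have h2 := tent_ctr (s := κ.T) hf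
    have h3 : κ.M * sd k' * (κ.G * S.a) ≤ tent m κ.T S.k S.j (ctr k' j', 0) * (κ.G * S.a) := by
      gcongr
    unfold St.y St.lam
    simp only at haff ⊢
    rw [haff]
    have h4 : κ.G * S.a * sd k' = κ.c * (κ.M * sd k' * (κ.G * S.a) / 8) := by
      linear_combination (-(κ.G * S.a * sd k') / 8) * hκ.hM
    rw [h4]
    refine mul_le_mul_of_nonneg_left (le_trans (by linarith) h1) hκ.c_pos.le
  · refine hW2.trans (mul_le_mul' (ENNReal.ofReal_le_ofReal ?_) le_rfl)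
    rw [psi, hkap]
    have h1 := hκ.θC
    have h2 : κ.g * κ.q ≤ 1 := by nlinarith [hκ.g_pos, hκ.g_le', hκ.q_pos, hκ.q_le]
    have h3 := hκ.δ_le
    have h4 := hκ.g_le'
    have h5 : κ.G ^ (-κ.θ) * (2 + 4 * κ.θ * κ.C1) ≤ 1 / 8 * 3 := by
      have := mul_nonneg hκ.θ_pos.le hκ.C1_nonneg
      exact mul_le_mul hκ.hG (by linarith) (by linarith) (by norm_num)
    nlinarith
  · intro x hx k' h h'
    right
    obtain ⟨f, hf, he⟩ := tch_inside (s := κ.T) (V := κ.G • S.A u) (a' := κ.G * S.a) (tg := 2)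
      (hin k' _ h (cell_subset (by have := h.1; omega) hx))
    change ENNReal.ofReal (psi κ (tch _ _ _ _ _ _ _ _ _)) ≤ W x
    rw [he, psi_child (S := S) (G := κ.G) (by linarith) ha rfl]
    have h1 := kap_le_two hκ (S := ⟨k', idx k' x, S.A + (cv (fc m f) κ.T).smulRight (κ.G • S.A u),
      S.b - (sd S.k / 4 + fc m f ⬝ᵥ ctr S.k S.j) • κ.G • S.A u, κ.G * S.a, 2⟩) (by simp)
    refine hW3 x hx k' h h' _ ?_ h1 fun _ => h1
    simp only [kap]
    norm_num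
    linarith [hκ.γ_pos]
  · exact absurd h (hS.k_pos (by omega)).ne'

end Pool.Agent.Lib.FQ
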