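import Pool.Agent.Lib.FQ.Kit2

/-! The tent is differentiable almost everywhere, with a face as derivative. -/

set_option autoImplicit false

open scoped Topology ENNReal NNReal RealInnerProductSpace Classical
open Metric Filter MeasureTheory Set

noncomputable section

namespace Pool.Agent.Lib.FQ

variable {m : ℕ}

namespace TDER73

theorem ae_ne_level (φ : P m →L[ℝ] ℝ) (hφ : φ ≠ 0) (c : ℝ) : ∀ᵐ z : P m, φ z ≠ c := by
  by_cases h : ∃ z0, φ z0 = c
  · obtain ⟨z0, hz0⟩ := h
    have h1 : (volume : Measure (P m)) (AffineSubspace.mk' z0 (LinearMap.ker φ.toLinearMap)) = 0 := by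
      have : (volume : Measure (P m)).IsAddHaarMeasure :=
        Measure.prod.instIsAddHaarMeasure (volume : Measure (Fin m → ℝ)) (volume : Measure ℝ)
      refine Measure.addHaar_affineSubspace _ _ fun ht => hφ ?_
      have h2 : (AffineSubspace.mk' z0 (LinearMap.ker φ.toLinearMap)).direction = ⊤ := by
        rw [ht, AffineSubspace.direction_top]
      rw [AffineSubspace.direction_mk'] at h2
      refine ContinuousLinearMap.ext fun z => ?_
      have h3 : z ∈ LinearMap.ker φ.toLinearMap := by rw [h2]; trivial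
      simpa using h3
    rw [ae_iff]
    refine measure_mono_null (fun z hz => ?_) h1
    have hz' : φ z = c := by simpa using hz
    simp [AffineSubspace.mem_mk', hz', hz0]
  · exact Eventually.of_forall fun z hz => h ⟨z, hz⟩

theorem cv_ne_zero {β : X m} (hβ : β ≠ 0) (s : ℝ) : cv β s ≠ 0 := by
  intro h
  have h1 : cv β s (β, 0) = 0 := by rw [h]; rfl
  rw [cv_apply] at h1
  simp only [mul_zero, add_zero] at h1
  exact hβ (dotProduct_self_eq_zero.1 h1)

theorem cont_dot (β x0 : X m) : Continuous fun z : P m => β ⬝ᵥ (z.1 - x0) := by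
  unfold dotProduct
  fun_prop

end TDER73

open TDER73 in
theorem r_TDER : R_TDER := by
  intro m hm l s k j
  have h1 : ∀ᵐ z : P m, ∀ f f' : Fa m, fc l f ≠ fc l f' →
      cv (fc l f - fc l f') 0 z ≠ (fc l f - fc l f') ⬝ᵥ ctr k j := by
    refine ae_all_iff.2 fun f => ae_all_iff.2 fun f' => ?_
    by_cases h : fc l f = fc l f'
    · exact Eventually.of_forall fun z hz => absurd h hz
    · exact (ae_ne_level _ (cv_ne_zero (sub_ne_zero.2 h) 0) _).mono fun z hz _ => hz
  have h2 : ∀ᵐ z : P m, ∀ f : Fa m,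
      cv (fc l f) s z ≠ sd k / 4 + fc l f ⬝ᵥ ctr k j :=
    ae_all_iff.2 fun f => ae_ne_level _ (cv_ne_zero (fc_ne_zero l f) s) _
  filter_upwards [h1, h2] with z hz1 hz2
  obtain ⟨f, hf⟩ := exists_fc hm l (z.1 - ctr k j)
  have hN : ∀ᶠ w : P m in 𝓝 z, Nl l (w.1 - ctr k j) = fc l f ⬝ᵥ (w.1 - ctr k j) := by
    have : ∀ᶠ w : P m in 𝓝 z, ∀ f' : Fa m,
        fc l f' ⬝ᵥ (w.1 - ctr k j) ≤ fc l f ⬝ᵥ (w.1 - ctr k j) := by
      refine Filter.eventually_all.2 fun f' => ?_
      by_cases h : fc l f = fc l f'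
      · exact Eventually.of_forall fun w => by rw [h]
      · have h3 := hz1 f f' h
        rw [cv_apply, zero_mul, add_zero] at h3
        have h4 := fc_dot_le l f' (z.1 - ctr k j)
        rw [← hf] at h4
        have h5 : fc l f' ⬝ᵥ (z.1 - ctr k j) < fc l f ⬝ᵥ (z.1 - ctr k j) := by
          refine lt_of_le_of_ne h4 fun h6 => h3 ?_
          rw [dotProduct_sub, dotProduct_sub] at h6
          rw [sub_dotProduct, sub_dotProduct]
          linarith
        exact ((cont_dot _ _).continuousAt.eventually_lt (cont_dot _ _).continuousAt h5).mono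
          fun w hw => hw.le
    filter_upwards [this] with w hw
    obtain ⟨f', hf'⟩ := exists_fc hm l (w.1 - ctr k j)
    exact le_antisymm (hf' ▸ hw f') (fc_dot_le l f _)
  set c : ℝ := sd k / 4 + fc l f ⬝ᵥ ctr k j with hc
  have hT : ∀ᶠ w : P m in 𝓝 z, tent l s k j w = max 0 (c - cv (fc l f) s w) := by
    filter_upwards [hN] with w hw
    unfold tent
    rw [hw, cv_apply, dotProduct_sub, hc]
    congr 1
    ring
  have hcont : Continuous fun w : P m => c - cv (fc l f) s w :=
    continuous_const.sub (cv (fc l f) s).continuous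
  rcases lt_or_gt_of_ne (hz2 f) with h | h
  · right
    refine ⟨f, ?_⟩
    have h7 : ∀ᶠ w : P m in 𝓝 z, (0 : ℝ) < c - cv (fc l f) s w :=
      continuousAt_const.eventually_lt hcont.continuousAt (sub_pos.2 h)
    have h8 : HasFDerivAt (fun w : P m => c - cv (fc l f) s w) (-cv (fc l f) s) z :=
      (cv (fc l f) s).hasFDerivAt.const_sub c
    refine h8.congr_of_eventuallyEq ?_
    filter_upwards [hT, h7] with w hw hw'
    rw [hw, max_eq_right hw'.le]
  · left
    have h7 : ∀ᶠ w : P m in 𝓝 z, c - cv (fc l f) s w < 0 :=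
      hcont.continuousAt.eventually_lt continuousAt_const (sub_neg.2 h)
    refine (hasFDerivAt_const (0 : ℝ) z).congr_of_eventuallyEq ?_
    filter_upwards [hT, h7] with w hw hw'
    rw [hw, max_eq_left hw'.le]

end Pool.Agent.Lib.FQ
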