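import Pool.Agent.Lib.FQ.Kit2

/-! The terminal step: no tent, one cube of the third generation succeeds. -/

set_option autoImplicit false

open scoped Topology ENNReal NNReal RealInnerProductSpace Classical
open Metric Filter MeasureTheory Set

noncomputable section

namespace Pool.Agent.Lib.FQ

namespace TERM48

variable {m : ℕ} {κ : Cst}

/-- the terminal step -/
def stp (κ : Cst) (S : St m) : Step m where
  inc _ := 0
  adm k' _ := k' = S.k + 3
  ch k' j' := ⟨k', j', S.A, S.b, S.a, 1⟩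
  suc k' j' := k' = S.k + 3 ∧ j' = sub3 S.j 0
  W := (cell (S.k + 3) (sub3 S.j 0))ᶜ.indicator fun _ =>
    ENNReal.ofReal ((1 + κ.γ) * (S.lam ^ (-κ.θ) * 8 ^ κ.θ))

theorem geom (hκ : κ.OK m) {S : St m} (hS : Valid κ S) : Geom κ.K S (stp κ S) where
  lip := ⟨0, LipschitzWith.const' 0⟩
  supp _ _ h := absurd rfl h
  der := ae_of_all _ fun z => ⟨S.A, (S.A.hasFDerivAt.add_const S.b).add_const 0, hS.good hκ⟩
  late _ _ h := le_of_eq h.symm
  chk _ _ := ⟨rfl, rfl⟩
  aff _ _ _ z _ _ _ := (add_zero _).symm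
  cov := ae_of_all _ fun _ _ => ⟨S.k + 3, rfl⟩

theorem dd_box (hκ : κ.OK m) {S : St m} (hS : Valid κ S) {z : P m} (hz : z.1 ∈ S.D)
    (h0 : 0 ≤ z.2) (h1 : z.2 ≤ sd S.k) : dd S.y / 2 ≤ dd (S.L z) := by
  refine hS.disp hκ ((hS.box hκ hz h0 h1).trans ?_)
  nlinarith [hS.lam_pos]

theorem vol_compl (k : ℕ) (j : Ix m) :
    volume ((cell (k + 3) (sub3 j 0))ᶜ ∩ cell k j) =
      ENNReal.ofReal (1 - (1 / 8) ^ m) * volume (cell k j) := by
  have hs : cell (k + 3) (sub3 j 0) ⊆ cell k j := sub3_subset k j fun i => by simp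
  rw [inter_comm, ← diff_eq, measure_diff hs (measurableSet_cell _ _).nullMeasurableSet
    (volume_cell_ne_top _ _), volume_three k j, ENNReal.ofReal_sub _ (by positivity),
    ENNReal.ofReal_one, ENNReal.sub_mul fun _ _ => volume_cell_ne_top k j, one_mul]

theorem num (hκ : κ.OK m) : (1 + κ.γ) * 8 ^ κ.θ * (1 - κ.q) ≤ 1 - κ.δ := by
  have h1 : (8 : ℝ) ^ κ.θ ≤ 1 + 2 * κ.θ * 3 :=
    rpow_le_one_add (by norm_num) (by norm_num) (by norm_num) hκ.θ_pos.le hκ.θ_half
  have hq := hκ.q_pos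
  have hq' := hκ.q_le
  have h2 : (1 + κ.γ) * (1 - κ.q) ≤ 1 - 3 * κ.q / 4 := by rw [hκ.hγ]; nlinarith
  have h3 : (0 : ℝ) ≤ 8 ^ κ.θ := by positivity
  have h4 : κ.g * κ.q ≤ κ.q / 512 := by nlinarith [hκ.g_le']
  have h5 := mul_le_mul_of_nonneg_right h2 h3
  have h6 := mul_le_mul_of_nonneg_left h1 (by linarith : 0 ≤ 1 - 3 * κ.q / 4)
  have h7 := mul_pos hq hκ.θ_pos
  have h8 := hκ.θ_le
  have h9 := hκ.hδ
  nlinarith

theorem dyn (hκ : κ.OK m) {S : St m} (hS : Valid κ S) (ht : S.tag = 1) (hc : κ.c0 ≤ S.lam) :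
    Dyn (Valid κ) (psi κ) κ.cs κ.δ S (stp κ S) where
  bd z hz h0 h1 := by
    have h := dd_box hκ hS hz h0 h1
    have h2 := hS.dd_pos hκ
    change ‖S.L z + 0‖ ≤ 1
    rw [add_zero]
    exact norm_le_one_of_dd (by linarith)
  chv k' j' hk hsub := by
    have hk' : k' = S.k + 3 := hk
    subst hk'
    have h := dd_box hκ hS (z := (ctr (S.k + 3) j', 0)) (hsub (ctr_mem _ _)) le_rfl (sd_pos _).le
    have h2 := hS.dd_pos hκ
    have h3 := hS.size
    have h4 := hκ.c_pos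
    refine ⟨hS.a_pos, ?_, hS.det, fun _ => Nat.succ_pos _, Nat.le_add_left 1 (m + 2),
      fun _ => hS.iso0 ht.le, fun h => absurd (show (1 : ℕ) = 2 from h) (by decide),
      fun h => absurd (show 3 ≤ (1 : ℕ) from h) (by decide)⟩
    change S.a * sd (S.k + 3) ≤ κ.c * dd (S.L (ctr (S.k + 3) j', 0))
    have h5 : S.a * sd (S.k + 3) = S.lam / 8 := by rw [sd_three, St.lam]; ring
    have h6 := mul_le_mul_of_nonneg_left h h4.le
    have h7 := mul_pos h4 h2
    rw [h5]; linarith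
  meas := measurable_const.indicator (measurableSet_cell _ _).compl
  int := by
    have h0 : 0 < S.lam ^ (-κ.θ) := Real.rpow_pos_of_pos hS.lam_pos _
    have h1 := hκ.γ_pos
    change ∫⁻ x in cell S.k S.j, (cell (S.k + 3) (sub3 S.j 0))ᶜ.indicator (fun _ =>
      ENNReal.ofReal ((1 + κ.γ) * (S.lam ^ (-κ.θ) * 8 ^ κ.θ))) x ≤ _ * volume (cell S.k S.j)
    rw [lintegral_indicator_const (measurableSet_cell _ _).compl,
      Measure.restrict_apply (measurableSet_cell _ _).compl, vol_compl, ← mul_assoc,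
      ← ENNReal.ofReal_mul (by positivity), psi, kap_nice ht (Or.inl hc), ← hκ.hq]
    refine mul_le_mul_left (ENNReal.ofReal_le_ofReal ?_) _
    nlinarith [mul_le_mul_of_nonneg_right (num hκ) h0.le]
  pot x _ k' hk _ := by
    have hk' : k' = S.k + 3 := hk
    subst hk'
    by_cases hx : idx (S.k + 3) x = sub3 S.j 0
    · exact Or.inl ⟨rfl, hx⟩
    · right
      have hW : (stp κ S).W x = ENNReal.ofReal ((1 + κ.γ) * (S.lam ^ (-κ.θ) * 8 ^ κ.θ)) :=
        indicator_of_mem (show x ∈ (cell (S.k + 3) (sub3 S.j 0))ᶜ from hx)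
          fun _ => ENNReal.ofReal ((1 + κ.γ) * (S.lam ^ (-κ.θ) * 8 ^ κ.θ))
      have h0 : 0 < S.lam ^ (-κ.θ) := Real.rpow_pos_of_pos hS.lam_pos _
      have h1 := psi_child (κ := κ) (S := S) (S' := (stp κ S).ch (S.k + 3) (idx (S.k + 3) x))
        one_pos hS.a_pos (one_mul _).symm
      have h2 : sd ((stp κ S).ch (S.k + 3) (idx (S.k + 3) x)).k / sd S.k = 8⁻¹ := by
        change sd (S.k + 3) / sd S.k = 8⁻¹
        have := (sd_pos S.k).ne'
        rw [sd_three]; field_simp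
      rw [hW, h1, h2, Real.one_rpow, one_mul, Real.inv_rpow (by norm_num),
        Real.rpow_neg (by norm_num : (0 : ℝ) ≤ 8), inv_inv]
      refine ENNReal.ofReal_le_ofReal (mul_le_mul_of_nonneg_right (kap_le hκ ?_) (by positivity))
      exact one_ne_zero
  osc k' j' hs x hx := by
    obtain ⟨rfl, rfl⟩ : k' = S.k + 3 ∧ j' = sub3 S.j 0 := hs
    have hr := sd_pos S.k
    refine ⟨fun η t hη h0 h1 => mem_cell_ctr.2 fun i => ?_, fun η _ => ?_⟩
    · have h2 := mem_sub3.1 hx i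
      simp only [Pi.zero_apply, Int.cast_zero, zero_mul, zero_add, one_mul] at h2
      have h3 : |η i| ≤ 1 := (norm_le_pi_norm η i).trans hη
      rw [abs_le] at h3
      simp only [Pi.sub_apply, Pi.smul_apply, smul_eq_mul]
      constructor <;> nlinarith [h2.1, h2.2, h3.1, h3.2]
    · set z₁ : P m := (x - (sd S.k / 4) • η, sd S.k / 4)
      set z₂ : P m := (x - (3 * sd S.k / 8) • η, 3 * sd S.k / 8)
      have h1 : S.L z₁ + (stp κ S).inc z₁ - (S.L z₂ + (stp κ S).inc z₂) = S.A (z₁ - z₂) := by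
        simp [St.L, stp]
      have h2 := (hS.iso0 ht.le (z₁ - z₂)).1
      have h3 : sd S.k / 8 ≤ ‖z₁ - z₂‖ := by
        have h4 := norm_snd_le (z₁ - z₂)
        have h5 : (z₁ - z₂).2 = -(sd S.k / 8) := by simp only [z₁, z₂, Prod.snd_sub]; ring
        rwa [h5, norm_neg, Real.norm_of_nonneg (by linarith)] at h4
      have h6 := mul_le_mul_of_nonneg_left h3 hS.a_pos.le
      have h7 : S.lam = S.a * sd S.k := rfl
      have h8 := hκ.hcs
      have h9 := hκ.K0_ge
      change κ.cs ≤ ‖S.L z₁ + (stp κ S).inc z₁ - (S.L z₂ + (stp κ S).inc z₂)‖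
      rw [h1]
      exact le_of_mul_le_mul_left (by linarith) (by linarith : 0 < κ.K0)
  sec h := absurd (hS.k_pos (by omega)) (by omega)

end TERM48

theorem r_TERM : R_TERM := fun _ κ hκ S hS ht hc =>
  ⟨TERM48.stp κ S, TERM48.geom hκ hS, TERM48.dyn hκ hS ht hc⟩

end Pool.Agent.Lib.FQ
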