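import Pool.Agent.Lib.FQ.Blue2

/-! Row TG2: a tent step is injective and its increment vanishes near the walls. -/

set_option autoImplicit false

open scoped Topology ENNReal NNReal RealInnerProductSpace Classical
open Metric Filter MeasureTheory Set

noncomputable section

namespace Pool.Agent.Lib.FQ

namespace TG255

variable {m : ℕ}

theorem continuous_Nl (l : ℕ) : Continuous (Nl l : X m → ℝ) := by
  unfold Nl cl
  refine Continuous.add (Continuous.abs (continuous_finsetSum _ fun i _ => ?_)) (by fun_prop)
  split_ifs <;> fun_prop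

theorem tent_mono (hm : 1 ≤ m) {l : ℕ} {s : ℝ} {u : P m} (hu : ∀ f : Fa m, 0 ≤ cv (fc l f) s u)
    (k : ℕ) (j : Ix m) (z : P m) {τ : ℝ} (hτ : 0 ≤ τ) :
    tent l s k j (z + τ • u) ≤ tent l s k j z := by
  obtain ⟨f, hf⟩ := exists_fc hm l (z.1 - ctr k j)
  have h1 := fc_dot_le l f ((z + τ • u).1 - ctr k j)
  have h2 : (z + τ • u).1 - ctr k j = (z.1 - ctr k j) + τ • u.1 := by
    rw [Prod.fst_add, Prod.smul_fst]; abel
  have h3 := mul_nonneg hτ (hu f)
  rw [cv_apply] at h3
  refine max_le_max le_rfl ?_
  rw [h2, dotProduct_add, dotProduct_smul, smul_eq_mul] at h1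
  rw [h2, Prod.snd_add, Prod.smul_snd, smul_eq_mul]
  nlinarith

end TG255

open TG255 in
theorem r_TG2 : R_TG2 := by
  intro m hm S l s M u a' tg W hs hA hu
  refine ⟨fun z hz => ?_, ?_⟩
  · have h0 := sd_pos S.k
    by_cases h : sd S.k / 4 - Nl l (z.1 - ctr S.k S.j) - s * z.2 < 0
    · left
      have hc : Continuous fun z : P m => sd S.k / 4 - Nl l (z.1 - ctr S.k S.j) - s * z.2 :=
        (continuous_const.sub ((continuous_Nl l).comp (continuous_fst.sub continuous_const))).sub
          (continuous_const.mul continuous_snd)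
      filter_upwards [hc.continuousAt.eventually (gt_mem_nhds h)] with z' hz'
      change -(tent l s S.k S.j z') • S.A u = 0
      rw [tent, max_eq_left hz'.le, neg_zero, zero_smul]
    · right
      have h1 := le_Nl l (z.1 - ctr S.k S.j)
      have h2 := Nl_nonneg l (z.1 - ctr S.k S.j)
      have h3 : z.2 ≤ s * z.2 := le_mul_of_one_le_left hz.le hs
      constructor <;> linarith
  · have key : ∀ z z' : P m, tent l s S.k S.j z ≤ tent l s S.k S.j z' →
        S.L z + -(tent l s S.k S.j z) • S.A u = S.L z' + -(tent l s S.k S.j z') • S.A u →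
        z = z' := by
      intro z z' hle h
      have h1 : z' = z + (tent l s S.k S.j z' - tent l s S.k S.j z) • u := by
        apply hA
        rw [map_add, map_smul, sub_smul]
        simp only [St.L, neg_smul] at h
        linear_combination (norm := module) -h
      have h2 := tent_mono hm hu S.k S.j z (sub_nonneg.2 hle)
      rw [← h1] at h2
      rw [h1, le_antisymm h2 hle, sub_self, zero_smul, add_zero]
    intro z z' h
    rcases le_total (tent l s S.k S.j z) (tent l s S.k S.j z') with h1 | h1
    · exact key z z' h1 h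
    · exact (key z' z h1 h.symm).symm

end Pool.Agent.Lib.FQ
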