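import Pool.Agent.Lib.FQ.Kit2

/-! Row TGEN: the geometric half of a tent step. -/

set_option autoImplicit false

open scoped Topology ENNReal NNReal RealInnerProductSpace Classical
open Metric Filter MeasureTheory Set

noncomputable section

namespace Pool.Agent.Lib.FQ

namespace TGEN59

variable {m : ℕ}

theorem tent_sub_le (l : ℕ) {s : ℝ} (hs : 0 ≤ s) (k : ℕ) (j : Ix m) (z z' : P m) :
    |tent l s k j z - tent l s k j z'| ≤ (3 / 2 + s) * ‖z - z'‖ := by
  unfold tent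
  rw [max_comm 0, max_comm 0]
  refine (abs_max_sub_max_le_abs _ _ _).trans ?_
  have h1 := Nl_sub_le l (z.1 - ctr k j) (z'.1 - ctr k j)
  rw [sub_sub_sub_cancel_right] at h1
  have h2 : ‖z.1 - z'.1‖ ≤ ‖z - z'‖ := norm_fst_le (z - z')
  have h3 : |z.2 - z'.2| ≤ ‖z - z'‖ := norm_snd_le (z - z')
  have h4 : |s * (z.2 - z'.2)| ≤ s * ‖z - z'‖ := by
    rw [abs_mul, abs_of_nonneg hs]
    exact mul_le_mul_of_nonneg_left h3 hs
  rw [abs_le] at h1 h4 ⊢
  constructor <;> nlinarith [h1.1, h1.2, h4.1, h4.2]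

theorem lip (l : ℕ) {s : ℝ} (hs : 0 ≤ s) (k : ℕ) (j : Ix m) (V : E m) :
    ∃ C : ℝ≥0, LipschitzWith C (fun z : P m => -(tent l s k j z) • V) := by
  have h0 : 0 ≤ (3 / 2 + s) * ‖V‖ := by positivity
  refine ⟨⟨(3 / 2 + s) * ‖V‖, h0⟩, LipschitzWith.of_dist_le_mul fun z z' => ?_⟩
  rw [dist_eq_norm, dist_eq_norm, ← sub_smul, norm_smul, Real.norm_eq_abs, neg_sub_neg,
    abs_sub_comm]
  have h1 := mul_le_mul_of_nonneg_right (tent_sub_le l hs k j z z') (norm_nonneg V)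
  change _ ≤ (3 / 2 + s) * ‖V‖ * ‖z - z'‖
  linarith

theorem supp (l : ℕ) {s : ℝ} (hs : 1 ≤ s) (k : ℕ) (j : Ix m) {z : P m} (hz : 0 ≤ z.2)
    (h : tent l s k j z ≠ 0) : z.1 ∈ cell k j ∧ z.2 < sd k / 2 := by
  have h1 : 0 < sd k / 4 - Nl l (z.1 - ctr k j) - s * z.2 := by
    by_contra h2
    exact h (max_eq_left (not_lt.1 h2))
  have h3 := le_Nl l (z.1 - ctr k j)
  have h4 := Nl_nonneg l (z.1 - ctr k j)
  have h5 : z.2 ≤ s * z.2 := le_mul_of_one_le_left hz hs
  have h6 := sd_pos k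
  exact ⟨mem_cell_of_norm_lt (by linarith), by linarith⟩

theorem cov {M C : ℝ} (hW : Whit m M C) {l : ℕ} (hl : l ≤ m) (k : ℕ) (j : Ix m) :
    ∀ᵐ x : X m, x ∈ cell k j → ∃ k', Adm l M k j k' (idx k' x) := by
  obtain ⟨W, hm, hint, -, hb⟩ := hW l hl k j
  have h1 : ∫⁻ x in cell k j, W x ≠ ∞ :=
    ne_top_of_le_ne_top (ENNReal.mul_ne_top ENNReal.ofReal_ne_top (volume_cell_ne_top k j)) hint
  have h2 := (ae_restrict_iff' (measurableSet_cell k j)).1 (ae_lt_top hm h1)
  filter_upwards [h2] with x hx hxc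
  by_contra hn
  push Not at hn
  have h3 := hx hxc
  obtain ⟨n, hn'⟩ := pow_unbounded_of_one_lt (W x).toReal (by norm_num : (1 : ℝ) < 3 / 2)
  have h4 := hb x hxc (k + 3 + n) (by omega) (hn _)
  have h5 : (3 / 2 : ℝ) ^ n ≤ (3 / 2) ^ (k + 3 + n + 1 - k) :=
    pow_le_pow_right₀ (by norm_num) (by omega)
  have h6 := (ENNReal.ofReal_le_iff_le_toReal h3.ne).1 h4
  linarith

end TGEN59

theorem r_TGEN : R_TGEN := by
  intro hD m hm K S l s M C V a' tg W hl hs hM hW hA hF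
  have hs0 : 0 ≤ s := by linarith
  refine ⟨TGEN59.lip l hs0 S.k S.j V, fun z hz h => ?_, ?_, fun k' j' h => h.1, fun k' j' => ?_,
    fun k' j' h z hz h0 h1 => ?_, TGEN59.cov hW hl S.k S.j⟩
  · refine TGEN59.supp l hs S.k S.j hz fun h1 => h ?_
    change -(tent l s S.k S.j z) • V = 0
    rw [h1, neg_zero, zero_smul]
  · filter_upwards [hD m hm l s S.k S.j] with z hz
    have hL : HasFDerivAt S.L S.A z := S.A.hasFDerivAt.add_const S.b
    rcases hz with hz | ⟨f, hz⟩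
    · refine ⟨S.A, ?_, hA⟩
      have h1 := hL.add (hz.neg.smul_const V)
      have h2 : S.A + (-(0 : P m →L[ℝ] ℝ)).smulRight V = S.A := by
        refine ContinuousLinearMap.ext fun w => ?_
        simp
      rw [h2] at h1
      exact h1
    · refine ⟨_, ?_, hF f⟩
      have h1 := hL.add (hz.neg.smul_const V)
      rw [neg_neg] at h1
      exact h1
  · change (tch S l s M V a' tg k' j').k = k' ∧ (tch S l s M V a' tg k' j').j = j'
    unfold tch
    split_ifs <;> exact ⟨rfl, rfl⟩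
  · change (tch S l s M V a' tg k' j').L z = S.L z + -(tent l s S.k S.j z) • V
    by_cases hi : ∃ f, Inside l M S.k S.j k' j' f
    · obtain ⟨f, hf, he⟩ := tch_inside (s := s) (V := V) (a' := a') (tg := tg) hi
      rw [he, tent_inside hs0 hM hf hz h1]
      simp only [St.L, add_apply, ContinuousLinearMap.smulRight_apply]
      module
    · have ho : Outside l S.k S.j k' j' := h.2.resolve_left hi
      rw [tch_outside hi, tent_outside hs0 ho hz h0, neg_zero, zero_smul, add_zero]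
      rfl

end Pool.Agent.Lib.FQ
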