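import Pool.Agent.Lib.FQ.Kit2

/-! The potential estimate for one tent. -/

set_option autoImplicit false

open scoped Topology ENNReal NNReal RealInnerProductSpace Classical
open Metric Filter MeasureTheory Set
open Pool.Agent.Lib.MP_ec86f1_an

noncomputable section

namespace Pool.Agent.Lib.FQ

theorem r_TPOT : R_TPOT := by
  intro m M C θ hW hC hθ hθ' l hl k j o ho hi lo ρ hlo hlh hhi hρ
  obtain ⟨W, hm, hint, h3, hna⟩ := hW l hl k j
  have hD := (measurableSet_cell (k + 3) (sub3 j o)).compl
  have hq : (1 / 8 : ℝ) ^ m ≤ 1 := pow_le_one₀ (by norm_num) (by norm_num)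
  have hI : Measurable ((cell (k + 3) (sub3 j o))ᶜ.indicator fun _ => ENNReal.ofReal (hi - lo)) :=
    measurable_const.indicator hD
  refine ⟨fun x => ENNReal.ofReal ρ * (ENNReal.ofReal lo + (cell (k + 3) (sub3 j o))ᶜ.indicator
    (fun _ => ENNReal.ofReal (hi - lo)) x + ENNReal.ofReal (4 * θ) * W x), by fun_prop, ?_, ?_⟩
  · have hv : volume ((cell (k + 3) (sub3 j o))ᶜ ∩ cell k j) =
        ENNReal.ofReal (1 - (1 / 8) ^ m) * volume (cell k j) := by
      rw [inter_comm, ← sdiff_eq, measure_sdiff (sub3_subset k j ho)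
        (measurableSet_cell _ _).nullMeasurableSet (volume_cell_ne_top _ _), volume_three k j,
        ENNReal.ofReal_sub _ (by positivity), ENNReal.ofReal_one,
        ENNReal.sub_mul fun _ _ => volume_cell_ne_top _ _, one_mul]
    rw [lintegral_const_mul _ (by fun_prop), lintegral_add_left (by fun_prop),
      lintegral_add_left measurable_const, lintegral_const_mul _ hm, setLIntegral_const,
      lintegral_indicator_const hD, Measure.restrict_apply hD, hv,
      show hi - (hi - lo) * (1 / 8) ^ m + 4 * θ * C =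
        lo + (hi - lo) * (1 - (1 / 8) ^ m) + 4 * θ * C by ring, ENNReal.ofReal_mul hρ,
      ENNReal.ofReal_add (by nlinarith) (by positivity), ENNReal.ofReal_add hlo (by nlinarith),
      ENNReal.ofReal_mul (p := hi - lo) (by linarith), ENNReal.ofReal_mul (q := C) (by positivity),
      mul_assoc (ENNReal.ofReal ρ), add_mul, add_mul, mul_assoc, mul_assoc]
    gcongr
  · intro x hx k' hA hn w hw hwh hwl
    obtain ⟨n, rfl⟩ := Nat.exists_eq_add_of_le ((Nat.le_add_right k 3).trans hA.1)
    have hn3 : 3 ≤ n := by have := hA.1; omega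
    have h1 : ENNReal.ofReal ((3 / 2) ^ n) ≤ W x := by
      rcases hn3.eq_or_lt with rfl | h
      · exact h3 x
      · have := hna x hx (k + n - 1) (by omega) (hn _ (by omega))
        rwa [show k + n - 1 + 1 - k = n by omega] at this
    have h2 : (sd (k + n) / sd k) ^ (-θ) ≤ 1 + 2 * θ * (3 / 2) ^ n := by
      rw [sd_add, mul_div_cancel_left₀ _ (sd_pos k).ne', Real.rpow_neg (by positivity),
        ← Real.inv_rpow (by positivity), ← inv_pow]
      refine rpow_le_one_add (by positivity) (by positivity) ?_ hθ.le hθ'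
      rw [← pow_mul, mul_comm n, pow_mul]
      exact pow_le_pow_left₀ (by norm_num) (by norm_num) n
    have h4 : ENNReal.ofReal w ≤ ENNReal.ofReal lo + (cell (k + 3) (sub3 j o))ᶜ.indicator
        (fun _ => ENNReal.ofReal (hi - lo)) x := by
      by_cases h : x ∈ cell (k + 3) (sub3 j o)
      · exact (ENNReal.ofReal_le_ofReal (hwl h)).trans le_self_add
      · rw [indicator_of_mem h, ← ENNReal.ofReal_add hlo (by linarith)]
        exact ENNReal.ofReal_le_ofReal (by linarith)
    have h5 : w * (ρ * (sd (k + n) / sd k) ^ (-θ)) ≤ ρ * (w + 4 * θ * (3 / 2) ^ n) := by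
      rw [mul_left_comm]
      refine mul_le_mul_of_nonneg_left ((mul_le_mul_of_nonneg_left h2 hw).trans ?_) hρ
      have : (0 : ℝ) ≤ θ * (3 / 2) ^ n := by positivity
      nlinarith
    refine (ENNReal.ofReal_le_ofReal h5).trans ?_
    rw [ENNReal.ofReal_mul hρ, ENNReal.ofReal_add hw (by positivity),
      ENNReal.ofReal_mul (p := 4 * θ) (by positivity)]
    exact mul_le_mul_right (add_le_add h4 (mul_le_mul_right h1 _)) _

end Pool.Agent.Lib.FQ
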