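import Pool.Agent.Lib.FQ.Kit2

/-! Row WHIT: the Whitney estimate. -/

set_option autoImplicit false

open scoped Topology ENNReal NNReal RealInnerProductSpace Classical
open Metric Filter MeasureTheory Set

noncomputable section

namespace Pool.Agent.Lib.FQ

namespace WHIT66

variable {m : ℕ}

/-- The measure part. -/
theorem weight (hS : St_SLAB) {ι : Type} [Fintype ι] (γ : ι → X m) (hγ : ∀ p, γ p ≠ 0)
    (β : ι → ℝ) {μ : ℝ} (hμ : 0 ≤ μ) : ∃ C : ℝ, 0 ≤ C ∧ ∀ (k : ℕ) (j : Ix m),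
      ∃ W : X m → ℝ≥0∞, Measurable W ∧
        ∫⁻ x in cell k j, W x ≤ ENNReal.ofReal C * volume (cell k j) ∧
        (∀ x, ENNReal.ofReal ((3 / 2) ^ 3) ≤ W x) ∧
        ∀ x n p, |γ p ⬝ᵥ (x - ctr k j) - β p * sd k| ≤ μ * (1 / 2) ^ n * sd k →
          ENNReal.ofReal ((3 / 2) ^ (n + 1)) ≤ W x := by
  choose C C0 hC using fun p => hS m (γ p) (hγ p)
  have s0 : 0 ≤ ∑ p, C p := Finset.sum_nonneg fun p _ => C0 p
  refine ⟨(3 / 2) ^ 3 + 6 * (μ * ∑ p, C p), by positivity, fun k j => ?_⟩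
  obtain ⟨A, hA⟩ : ∃ A : ℕ → ι → Set (X m), ∀ n p, A n p =
      {x | |γ p ⬝ᵥ (x - ctr k j) - β p * sd k| ≤ μ * (1 / 2) ^ n * sd k} := ⟨_, fun _ _ => rfl⟩
  have mA : ∀ n p, MeasurableSet (A n p) := fun n p => by
    rw [hA]
    exact (isClosed_le (by fun_prop) continuous_const).measurableSet
  have mI : ∀ n p, Measurable ((A n p).indicator fun _ => ENNReal.ofReal ((3 / 2) ^ (n + 1))) :=
    fun n p => measurable_const.indicator (mA n p)
  have mS : ∀ n, Measurable fun x =>
      ∑ p, (A n p).indicator (fun _ => ENNReal.ofReal ((3 / 2) ^ (n + 1))) x :=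
    fun n => Finset.measurable_fun_sum _ fun p _ => mI n p
  refine ⟨fun x => ENNReal.ofReal ((3 / 2) ^ 3) +
    ∑' n, ∑ p, (A n p).indicator (fun _ => ENNReal.ofReal ((3 / 2) ^ (n + 1))) x,
    measurable_const.add (Measurable.ennreal_tsum mS), ?_, fun x => le_self_add,
    fun x n p h => ?_⟩
  · have one : ∀ n, ∫⁻ x in cell k j,
        ∑ p, (A n p).indicator (fun _ => ENNReal.ofReal ((3 / 2) ^ (n + 1))) x ≤
          ENNReal.ofReal (3 / 2 * (μ * ∑ p, C p) * (3 / 4) ^ n) * volume (cell k j) := fun n => by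
      have e : (3 / 2 * (μ * ∑ p, C p) * (3 / 4) ^ n : ℝ) =
          ∑ p, (3 / 2) ^ (n + 1) * (C p * (μ * (1 / 2) ^ n)) := by
        rw [← Finset.mul_sum, ← Finset.sum_mul, show (3 / 4 : ℝ) = 3 / 2 * (1 / 2) by norm_num,
          mul_pow, pow_succ]
        ring
      rw [lintegral_finsetSum _ fun p _ => mI n p, e, ENNReal.ofReal_sum_of_nonneg
        fun p _ => by have := C0 p; positivity, Finset.sum_mul]
      refine Finset.sum_le_sum fun p _ => ?_
      rw [lintegral_indicator_const (mA n p), Measure.restrict_apply (mA n p),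
        ENNReal.ofReal_mul (by positivity), mul_assoc, inter_comm, hA]
      gcongr
      exact hC p k j _ _ (by positivity)
    have sm : Summable fun n : ℕ => 3 / 2 * (μ * ∑ p, C p) * (3 / 4 : ℝ) ^ n :=
      (summable_geometric_of_lt_one (by norm_num) (by norm_num)).mul_left _
    rw [lintegral_add_left measurable_const, setLIntegral_const,
      lintegral_tsum fun n => (mS n).aemeasurable, ENNReal.ofReal_add (by positivity)
        (by positivity), add_mul]
    gcongr
    refine (ENNReal.tsum_le_tsum one).trans (le_of_eq ?_)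
    rw [ENNReal.tsum_mul_right, ← ENNReal.ofReal_tsum_of_nonneg (fun n => by positivity) sm,
      tsum_mul_left, tsum_geometric_of_lt_one (by norm_num) (by norm_num)]
    congr 2
    ring
  · refine le_add_left (le_trans ?_ (ENNReal.le_tsum n))
    refine le_trans ?_ (Finset.single_le_sum (fun _ _ => zero_le) (Finset.mem_univ p))
    rw [indicator_of_mem (by rw [hA]; exact h)]

/-- The geometric part. -/
theorem adm_of (hm : 1 ≤ m) {M : ℝ} (hM : 0 ≤ M) {l k k' : ℕ} (hk : k + 3 ≤ k') (j : Ix m)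
    (x : X m) (h1 : ∀ f, (M + 3) * sd k' < |fc l f ⬝ᵥ (x - ctr k j) - 1 / 4 * sd k|)
    (h2 : ∀ f f', fc l f ≠ fc l f' →
      (M + 3) * sd k' < |(fc l f - fc l f') ⬝ᵥ (x - ctr k j) - 0 * sd k|) :
    Adm l M k j k' (idx k' x) := by
  obtain ⟨f, hf⟩ := exists_fc hm l (x - ctr k j)
  have r0 := sd_pos k'
  have r1 : 0 ≤ M * sd k' := by positivity
  have near : ∀ x' ∈ cell k' (idx k' x), ‖x' - ctr k j - (x - ctr k j)‖ ≤ sd k' := fun x' hx' => by
    rw [sub_sub_sub_cancel_right]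
    exact norm_sub_le_sd hx' (mem_cell_idx k' x)
  have nN : ∀ x' ∈ cell k' (idx k' x),
      |Nl l (x' - ctr k j) - Nl l (x - ctr k j)| ≤ 3 / 2 * sd k' := fun x' hx' =>
    (Nl_sub_le l _ _).trans (by linarith [near x' hx'])
  refine ⟨hk, ?_⟩
  have a := h1 f
  rw [hf, lt_abs] at a
  rcases a with a | a
  · exact Or.inr fun x' hx' => by linarith [(abs_le.1 (nN x' hx')).1]
  · refine Or.inl ⟨f, fun x' hx' => ⟨?_, by linarith [(abs_le.1 (nN x' hx')).2]⟩⟩
    obtain ⟨f', hf'⟩ := exists_fc hm l (x' - ctr k j)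
    by_cases e : fc l f = fc l f'
    · rw [e, hf']
    · exfalso
      have b := h2 f f' e
      have c := fc_dot_le l f' (x - ctr k j)
      rw [zero_mul, sub_zero, sub_dotProduct, abs_of_nonneg (by linarith)] at b
      have d := abs_le.1 (abs_fc_dot_le l f (x' - ctr k j - (x - ctr k j)))
      have d' := abs_le.1 (abs_fc_dot_le l f' (x' - ctr k j - (x - ctr k j)))
      rw [dotProduct_sub] at d d'
      linarith [d.1, d'.2, near x' hx', fc_dot_le l f (x' - ctr k j)]

end WHIT66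

open WHIT66 in
theorem r_WHIT : R_WHIT := by
  intro hS m hm M hM
  obtain ⟨C, C0, hC⟩ := weight hS (ι := Fin (m + 1) × Fa m × Fa m × Bool)
    (fun p => if p.2.2.2 = true ∨ fc p.1 p.2.1 = fc p.1 p.2.2.1 then fc p.1 p.2.1
      else fc p.1 p.2.1 - fc p.1 p.2.2.1)
    (fun p => by
      split_ifs with h
      · exact fc_ne_zero _ _
      · exact sub_ne_zero.2 fun e => h (Or.inr e))
    (fun p => if p.2.2.2 = true then 1 / 4 else 0) (μ := M + 3) (by linarith)
  refine ⟨C, C0, fun l hl k j => ?_⟩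
  obtain ⟨W, w1, w2, w3, w4⟩ := hC k j
  refine ⟨W, w1, w2, w3, fun x _ k' hk hA => ?_⟩
  obtain ⟨n, rfl⟩ := Nat.exists_eq_add_of_le (show k ≤ k' by omega)
  rw [show k + n + 1 - k = n + 1 by omega]
  by_contra hW
  have e : (M + 3) * sd (k + n) = (M + 3) * (1 / 2) ^ n * sd k := by rw [sd_add]; ring
  refine hA (adm_of hm hM hk j x (fun f => ?_) fun f f' hf => ?_)
  · rw [e]
    refine not_le.1 fun h => hW (w4 x n (⟨l, by omega⟩, f, f, true) ?_)
    simpa only [true_or, if_true] using h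
  · rw [e]
    refine not_le.1 fun h => hW (w4 x n (⟨l, by omega⟩, f, f', false) ?_)
    simpa only [Bool.false_eq_true, false_or, if_neg hf, if_false] using h

end Pool.Agent.Lib.FQ
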