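import Pool.Agent.Lib.FQ.Defs

/-! Blueprint: statements of the rows and the glue. -/

set_option autoImplicit false

open scoped Topology ENNReal NNReal RealInnerProductSpace Classical
open Metric Filter MeasureTheory Set
open Pool.Agent.Lib.MP_ec86f1_an

noncomputable section

namespace Pool.Agent.Lib.FQ

/-! ### Tents -/

def St_SLAB : Prop := ∀ (m : ℕ) (γ : X m), γ ≠ 0 → ∃ C : ℝ, 0 ≤ C ∧
  ∀ (k : ℕ) (j : Ix m) (b ε : ℝ), 0 ≤ ε →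
    volume {x | x ∈ cell k j ∧ |γ ⬝ᵥ (x - ctr k j) - b| ≤ ε * sd k} ≤
      ENNReal.ofReal (C * ε) * volume (cell k j)

def St_WHIT : Prop := ∀ m : ℕ, 1 ≤ m → ∀ M : ℝ, 0 ≤ M → ∃ C : ℝ, 0 ≤ C ∧ Whit m M C

def St_TDER : Prop := ∀ m : ℕ, 1 ≤ m → ∀ (l : ℕ) (s : ℝ) (k : ℕ) (j : Ix m), ∀ᵐ z : P m,
  HasFDerivAt (tent l s k j) (0 : P m →L[ℝ] ℝ) z ∨
    ∃ f : Fa m, HasFDerivAt (tent l s k j) (-cv (fc l f) s) z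

def St_TGEN : Prop := ∀ m : ℕ, 1 ≤ m → ∀ (K : ℝ) (S : St m) (l : ℕ) (s M C : ℝ) (V : E m) (a' : ℝ)
  (tg : ℕ) (W : X m → ℝ≥0∞), l ≤ m → 1 ≤ s → s ≤ M → Whit m M C → Good K S.A →
    (∀ f : Fa m, Good K (S.A + (cv (fc l f) s).smulRight V)) → Geom K S (tstep S l s M V a' tg W)

def St_TPOT : Prop := ∀ (m : ℕ) (M C θ : ℝ), Whit m M C → 0 ≤ C → 0 < θ → θ ≤ 1 / 2 →
  ∀ l ≤ m, ∀ (k : ℕ) (j o : Ix m), (∀ i, -4 ≤ o i ∧ o i ≤ 3) → ∀ hi lo ρ : ℝ, 0 ≤ lo → lo ≤ hi →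
    hi ≤ 2 → 0 ≤ ρ → ∃ W : X m → ℝ≥0∞, Measurable W ∧
      ∫⁻ x in cell k j, W x ≤
        ENNReal.ofReal (ρ * (hi - (hi - lo) * (1 / 8) ^ m + 4 * θ * C)) * volume (cell k j) ∧
      ∀ x ∈ cell k j, ∀ k', Adm l M k j k' (idx k' x) → (∀ k'' < k', ¬ Adm l M k j k'' (idx k'' x)) →
        ∀ w : ℝ, 0 ≤ w → w ≤ hi → (x ∈ cell (k + 3) (sub3 j o) → w ≤ lo) →
          ENNReal.ofReal (w * (ρ * (sd k' / sd k) ^ (-θ))) ≤ W x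

/-! ### Linear algebra -/

def St_R1 : Prop := ∀ (m : ℕ) (A : P m →L[ℝ] E m) (u : P m) (w : P m →L[ℝ] ℝ) (a Λ ω : ℝ),
  0 < dt A → 0 ≤ w u → 0 ≤ a → 0 ≤ Λ → 0 ≤ ω → (∀ z, |w z| ≤ ω * ‖z‖) →
    (∀ z, a * ‖z‖ ≤ Λ * ‖A z‖) → 0 < dt (A + w.smulRight (A u)) ∧
      ∀ z, a * ‖z‖ ≤ Λ * (1 + ‖u‖ * ω) * ‖(A + w.smulRight (A u)) z‖

def St_NEXT : Prop := ∀ (m i : ℕ), i ≤ m → ∀ (a Λ : ℝ) (A B : P m →L[ℝ] E m) (v : ℕ → E m)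
  (β : ℕ → X m), 0 < a → Dec i a A B v β → (∀ z, a * ‖z‖ ≤ Λ * ‖A z‖) →
    ∃ (u : P m) (w : E m), ‖w‖ = 1 ∧ A u = a • w ∧ (∀ l < i, ⟪v l, w⟫ = 0) ∧
      ∀ f : Fa m, 0 ≤ cv (fc i f) (8 ^ i) u

def St_EXT : Prop := ∀ (m i : ℕ) (a : ℝ) (A B : P m →L[ℝ] E m) (v : ℕ → E m) (β : ℕ → X m)
  (w : E m) (f : Fa m), Dec i a A B v β → ‖w‖ = 1 → (∀ l < i, ⟪v l, w⟫ = 0) →
    Dec (i + 1) a (A + (cv (fc i f) (8 ^ i)).smulRight (a • w)) B (Function.update v i w)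
      (Function.update β i (fc i f))

def St_UP : Prop := ∀ (m i : ℕ), i ≤ m + 1 → ∀ (a : ℝ) (A B : P m →L[ℝ] E m) (v : ℕ → E m)
  (β : ℕ → X m), 0 ≤ a → Dec i a A B v β →
    ∀ z, ‖A z‖ ≤ ((m : ℝ) + 1) * (12 + 8 ^ m) * a * ‖z‖

def St_RESET : Prop := ∀ m : ℕ, 1 ≤ m → ∀ (a : ℝ) (A B : P m →L[ℝ] E m) (v : ℕ → E m)
  (β : ℕ → X m), 0 ≤ a → Dec (m + 1) a A B v β → ∀ z, a * ‖z‖ ≤ 12 * ‖A z‖

def St_DICH : Prop := ∀ (m : ℕ) (i0 : Fin m) (a : ℝ) (A B : P m →L[ℝ] E m) (v : ℕ → E m)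
  (β : ℕ → X m) (w : E m), 0 ≤ a → Dec m a A B v β → ‖w‖ = 1 → (∀ l < m, ⟪v l, w⟫ = 0) →
    ∀ y : E m, ∃ (b : Bool) (u : P m), u.2 = 1 ∧ ‖u.1‖ ≤ 4 * 8 ^ m + 4 ∧
      a * ‖y‖ ≤ ⟪y, (A + (cv (Pi.single i0 (sg b / 2)) (8 ^ m)).smulRight (a • w)) u⟫

/-! ### The state machine -/

def St_CONST : Prop := ∀ m : ℕ, 1 ≤ m → ∃ κ : Cst, κ.OK m

def St_START : Prop := ∀ (m : ℕ) (κ : Cst), κ.OK m → Valid κ (start m (κ.c / 2))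

def St_INIT : Prop := ∀ (m : ℕ) (κ : Cst), κ.OK m → ∀ S : St m, Valid κ S → S.tag = 0 → Has κ S

def St_TERM : Prop := ∀ (m : ℕ) (κ : Cst), κ.OK m → ∀ S : St m, Valid κ S → S.tag = 1 →
  κ.c0 ≤ S.lam → Has κ S

def St_STEER : Prop := ∀ (m : ℕ) (κ : Cst), κ.OK m → ∀ S : St m, Valid κ S → S.tag = 1 →
  S.lam < κ.c0 → Steer κ S → Has κ S

def St_ARM : Prop := ∀ (m : ℕ) (κ : Cst), κ.OK m → ∀ S : St m, Valid κ S →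
  (S.tag = 2 ∨ (S.tag = 1 ∧ S.lam < κ.c0 ∧ ¬ Steer κ S)) → Has κ S

def St_STD : Prop := ∀ (m : ℕ) (κ : Cst), κ.OK m → ∀ S : St m, Valid κ S → 3 ≤ S.tag →
  S.tag < m + 3 → Has κ S

def St_STDM : Prop := ∀ (m : ℕ) (κ : Cst), κ.OK m → ∀ S : St m, Valid κ S → S.tag = m + 3 →
  Has κ S

/-! ### The tree -/

def St_NODE : Prop := ∀ (m : ℕ) (V : St m → Prop) (ψ : St m → ℝ) (K cs δ : ℝ) (S0 : St m)
  (st : St m → Step m), Sys V ψ K cs δ S0 st → ∀ x ∈ cell 0 (0 : Ix m), ∀ k, NodeF V S0 st k x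

def St_REP : Prop := ∀ (m : ℕ) (V : St m → Prop) (ψ : St m → ℝ) (K cs δ : ℝ) (S0 : St m)
  (st : St m → Step m), Sys V ψ K cs δ S0 st → ∀ (k : ℕ) (z : P m), z.1 ∈ cell 0 (0 : Ix m) →
    sd (k + 1) < z.2 → z.2 ≤ sd k → S0.L z + gsum S0 st z =
      (node S0 st k (idx k z.1)).L z + (st (node S0 st k (idx k z.1))).inc z

def St_LOC : Prop := ∀ (m : ℕ) (V : St m → Prop) (ψ : St m → ℝ) (K cs δ : ℝ) (S0 : St m)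
  (st : St m → Step m), Sys V ψ K cs δ S0 st →
    (∀ τ : ℝ, 0 < τ → ∃ C : ℝ≥0, LipschitzOnWith C (gsum S0 st) {z | τ < z.2}) ∧
    ∀ z : P m, 0 < z.2 → gsum S0 st z ≠ 0 → z.2 + ‖z.1 - ctr 0 0‖ ≤ 1 / 2

def St_DER : Prop := ∀ (m : ℕ) (V : St m → Prop) (ψ : St m → ℝ) (K cs δ : ℝ) (S0 : St m)
  (st : St m → Step m), Sys V ψ K cs δ S0 st →
    (∀ z : P m, z.1 ∈ cell 0 (0 : Ix m) → 0 < z.2 → z.2 ≤ 1 → ‖S0.L z + gsum S0 st z‖ ≤ 1) ∧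
    ∀ᵐ z : P m, z.1 ∈ cell 0 (0 : Ix m) → 0 < z.2 → z.2 ≤ 1 →
      ∃ A, HasFDerivAt (fun z => S0.L z + gsum S0 st z) A z ∧ Good K A

def St_REC : Prop := ∀ (m : ℕ) (V : St m → Prop) (ψ : St m → ℝ) (K cs δ : ℝ) (S0 : St m)
  (st : St m → Step m), Sys V ψ K cs δ S0 st → ∀ᵐ x : X m, x ∈ cell 0 (0 : Ix m) →
    ∀ k0, ∃ k, k0 ≤ k ∧ (node S0 st k (idx k x)).k = k ∧
      ∃ k', (st (node S0 st k (idx k x))).suc k' (idx k' x)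

def St_OSC : Prop := ∀ (m : ℕ) (V : St m → Prop) (ψ : St m → ℝ) (K cs δ : ℝ) (S0 : St m)
  (st : St m → Step m), Sys V ψ K cs δ S0 st → ∀ᵐ x : X m, x ∈ cell 0 (0 : Ix m) →
    ∀ ε : ℝ, 0 < ε → ∃ r, 0 < r ∧ r < ε ∧ Osc cs (fun z => S0.L z + gsum S0 st z) x r

/-! ### Cube and ball -/

def St_CUB1 : Prop := ∀ m : ℕ, 1 ≤ m → ∀ (K cs e : ℝ) (g : P m → E m), 0 < e →
  Core K cs (start m e).L g → ∃ K', CubeReg K' (cubeMap e g)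

def St_CUB2 : Prop := ∀ m : ℕ, 1 ≤ m → ∀ (K cs e : ℝ) (g : P m → E m), 0 < e →
  Core K cs (start m e).L g → CubeOsc cs (cubeMap e g)

def St_PHI1 : Prop := ∀ m : ℕ, (∃ C : ℝ≥0, LipschitzWith C (Phi : E m → E m)) ∧
  (∃ C : ℝ, 0 < C ∧ ∀ z z' : E m, ‖z - z'‖ ≤ C * ‖Phi z - Phi z'‖) ∧
    ∀ N : Set (E m), volume N = 0 → volume (Phi ⁻¹' N) = 0

def St_PHI2 : Prop := ∀ m : ℕ, ∃ K : ℝ, ∀ᵐ z : E m, ∃ A, HasFDerivAt Phi A z ∧ GoodE K A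

def St_QR : Prop := ∀ (m : ℕ) (K : ℝ) (f : E m → E m),
  (∀ ρ : ℝ, ρ < 1 → ∃ C : ℝ≥0, LipschitzOnWith C f (ball 0 ρ)) →
    (∀ᵐ z : E m, z ∈ ball (0 : E m) 1 → ∃ A, HasFDerivAt f A z ∧ GoodE K A) →
      IsQuasiregularOn volume (m + 1) (ball 0 1) f

def St_BALL : Prop := ∀ (m : ℕ) (K cs : ℝ) (F : E m → E m), CubeReg K F → CubeOsc cs F →
  IsQuasiregularOn volume (m + 1) (ball 0 1) (F ∘ Phi) ∧
    Bornology.IsBounded ((F ∘ Phi) '' ball 0 1) ∧ BallOsc cs (F ∘ Phi)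

def St_NB : Prop := ∀ (m : ℕ) (c : ℝ) (f : E m → E m), 0 < c →
  Bornology.IsBounded (f '' ball 0 1) → BallOsc c f → HasNaturalBoundary f

def St_MAIN : Prop := ∀ n : ℕ, 3 ≤ n →
  ∃ f : EuclideanSpace ℝ (Fin n) → EuclideanSpace ℝ (Fin n),
    IsQuasiregularOn volume n (ball 0 1) f ∧ Bornology.IsBounded (f '' ball 0 1) ∧
      HasNaturalBoundary f ∧ ∃ c : ℝ, 0 < c ∧ BallOsc c f

/-! ### Rows -/

def R_SLAB : Prop := St_SLAB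
def R_WHIT : Prop := St_SLAB → St_WHIT
def R_TDER : Prop := St_TDER
def R_TGEN : Prop := St_TDER → St_TGEN
def R_TPOT : Prop := St_TPOT
def R_R1 : Prop := St_R1
def R_NEXT : Prop := St_NEXT
def R_EXT : Prop := St_EXT
def R_UP : Prop := St_UP
def R_RESET : Prop := St_RESET
def R_DICH : Prop := St_DICH
def R_CONST : Prop := St_WHIT → St_CONST
def R_START : Prop := St_START
def R_INIT : Prop := St_TGEN → St_TPOT → St_INIT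
def R_TERM : Prop := St_TERM
def R_STEER : Prop := St_TGEN → St_TPOT → St_R1 → St_STEER
def R_ARM : Prop := St_ARM
def R_STD : Prop := St_TGEN → St_TPOT → St_R1 → St_NEXT → St_EXT → St_UP → St_STD
def R_STDM : Prop :=
  St_TGEN → St_TPOT → St_R1 → St_NEXT → St_EXT → St_UP → St_RESET → St_DICH → St_STDM
def R_NODE : Prop := St_NODE
def R_REP : Prop := St_NODE → St_REP
def R_LOC : Prop := St_NODE → St_LOC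
def R_DER : Prop := St_NODE → St_REP → St_DER
def R_REC : Prop := St_NODE → St_REC
def R_OSC : Prop := St_NODE → St_REP → St_REC → St_OSC
def R_CUB1 : Prop := St_CUB1
def R_CUB2 : Prop := St_CUB2
def R_PHI1 : Prop := St_PHI1
def R_PHI2 : Prop := St_PHI1 → St_PHI2
def R_QR : Prop := St_QR
def R_BALL : Prop := St_PHI1 → St_PHI2 → St_QR → St_BALL
def R_NB : Prop := St_NB

end Pool.Agent.Lib.FQ
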