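import Pool.Agent.Lib.FQ.Kit2

/-! Blueprint of the local injectivity clause. -/

set_option autoImplicit false

open scoped Topology ENNReal NNReal RealInnerProductSpace Classical
open Metric Filter MeasureTheory Set
open Pool.Agent.Lib.MP_ec86f1_an

noncomputable section

namespace Pool.Agent.Lib.FQ

variable {m : ℕ}

/-- the increment vanishes near the walls, and the map of the step is injective -/
structure Geom2 (S : St m) (T : Step m) : Prop where
  near : ∀ z : P m, 0 < z.2 → (∀ᶠ z' in 𝓝 z, T.inc z' = 0) ∨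
    (‖z.1 - ctr S.k S.j‖ < sd S.k / 2 ∧ z.2 < sd S.k / 2)
  inj : Function.Injective fun z => S.L z + T.inc z

/-- the step exists, with the extra clause -/
def Has2 (κ : Cst) (S : St m) : Prop :=
  ∃ T : Step m, Geom2 S T ∧ Geom κ.K S T ∧ Dyn (Valid κ) (psi κ) κ.cs κ.δ S T

/-- local injectivity of the local construction -/
structure Core2 (f0 g : P m → E m) : Prop where
  inj : ∀ z : P m, ‖z.1 - ctr 0 0‖ < 1 / 2 → 0 < z.2 → z.2 < 1 →
    ∃ U ∈ 𝓝 z, InjOn (fun z => f0 z + g z) U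
  sec : ∀ z : P m, 0 < z.2 → (∀ᶠ z' in 𝓝 z, g z' = 0) ∨ z.2 + ‖z.1 - ctr 0 0‖ < 1 / 2

def St_TG2 : Prop := ∀ m : ℕ, 1 ≤ m → ∀ (S : St m) (l : ℕ) (s M : ℝ) (u : P m) (a' : ℝ) (tg : ℕ)
  (W : X m → ℝ≥0∞), 1 ≤ s → Function.Injective S.A → (∀ f : Fa m, 0 ≤ cv (fc l f) s u) →
    Geom2 S (tstep S l s M (S.A u) a' tg W)

def St_LOC2 : Prop := ∀ (m : ℕ) (V : St m → Prop) (ψ : St m → ℝ) (K cs δ : ℝ) (S0 : St m)
  (st : St m → Step m), Sys V ψ K cs δ S0 st → (∀ S, V S → Geom2 S (st S)) →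
    Core2 S0.L (gsum S0 st)

def St_CUB3 : Prop := ∀ m : ℕ, 1 ≤ m → ∀ (e : ℝ) (g : P m → E m), 0 < e →
  Core2 (start m e).L g → ∀ z : E m, sup z < 1 / 2 → ∃ U ∈ 𝓝 z, InjOn (cubeMap e g) U

def St_ALL2 : Prop := ∀ (m : ℕ) (κ : Cst), κ.OK m → ∀ S : St m, Valid κ S → Has2 κ S

def R_TG2 : Prop := St_TG2
def R_LOC2 : Prop := St_NODE → St_LOC2
def R_CUB3 : Prop := St_CUB3

theorem Good.injective {K : ℝ} {A : P m →L[ℝ] E m} (h : Good K A) : Function.Injective A := by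
  obtain ⟨-, a, ha, h⟩ := h
  refine (injective_iff_map_eq_zero A).2 fun z hz => ?_
  have h1 := (h z).1
  rw [hz, norm_zero, mul_zero] at h1
  exact norm_eq_zero.1 (le_antisymm (nonpos_of_mul_nonpos_right h1 ha) (norm_nonneg z))

theorem geom2_of_zero {K : ℝ} {S : St m} {T : Step m} (hA : Good K S.A) (h : ∀ z, T.inc z = 0) :
    Geom2 S T := by
  refine ⟨fun z _ => Or.inl (Eventually.of_forall h), fun z z' hz => hA.injective ?_⟩
  simpa [h, St.L] using hz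

end Pool.Agent.Lib.FQ
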