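import Pool.Agent.Lib.MP_ec86f1_an.Defs
import Pool.Agent.Lib.MP_ec86f1_an.Lin

/-! Definitions for the piecewise affine construction of a bounded quasiregular map without
radial limits. -/

set_option autoImplicit false

open scoped Topology ENNReal NNReal RealInnerProductSpace Classical
open Metric Filter MeasureTheory Set

noncomputable section

namespace Pool.Agent.Lib.FQ

/-- boundary space, sup norm -/
abbrev X (m : ℕ) : Type := Fin m → ℝ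
/-- points `(x, t)`, sup norm -/
abbrev P (m : ℕ) : Type := (Fin m → ℝ) × ℝ
/-- Euclidean space of dimension `m + 1` -/
abbrev E (m : ℕ) : Type := EuclideanSpace ℝ (Fin (m + 1))
/-- indices of dyadic cubes -/
abbrev Ix (m : ℕ) : Type := Fin m → ℤ
/-- indices of the faces of a tent -/
abbrev Fa (m : ℕ) : Type := Bool × Bool × Fin m

variable {m : ℕ}

/-! ### Dyadic cubes -/

/-- side of a cube of generation `k` -/
def sd (k : ℕ) : ℝ := (1 / 2) ^ k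
/-- index of the cube of generation `k` that contains `x` -/
def idx (k : ℕ) (x : X m) : Ix m := fun i => ⌊x i * 2 ^ k⌋
/-- dyadic cube -/
def cell (k : ℕ) (j : Ix m) : Set (X m) := {x | idx k x = j}
/-- centre of a dyadic cube -/
def ctr (k : ℕ) (j : Ix m) : X m := fun i => ((j i : ℝ) + 1 / 2) * sd k
/-- index of the parent -/
def par (j : Ix m) : Ix m := fun i => j i / 2
/-- indices of the cubes of generation `k` in the unit cube -/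
def cubes (m k : ℕ) : Finset (Ix m) := Fintype.piFinset fun _ => Finset.Ico 0 (2 ^ k)
/-- index of the cube of generation `k + 3` with offset `o` from the centre -/
def sub3 (j : Ix m) (o : Ix m) : Ix m := fun i => 8 * j i + 4 + o i

/-! ### Linear maps -/

/-- coordinates -/
def Jl (m : ℕ) : E m ≃ₗ[ℝ] P m where
  toFun z := (fun i => z i.succ, z 0)
  invFun p := WithLp.toLp 2 (Fin.cons p.2 p.1)
  map_add' _ _ := rfl
  map_smul' _ _ := rfl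
  left_inv z := by
    ext i
    refine Fin.cases ?_ (fun i => ?_) i <;> simp
  right_inv p := by
    ext i <;> simp

/-- coordinates, as a continuous linear equivalence -/
def J (m : ℕ) : E m ≃L[ℝ] P m := (Jl m).toContinuousLinearEquiv

/-- determinant in coordinates -/
def dt (A : P m →L[ℝ] E m) : ℝ := (A.comp (J m : E m →L[ℝ] P m)).det

/-- two-sided bounds at scale `a` -/
def Iso (Kl Ku a : ℝ) (A : P m →L[ℝ] E m) : Prop :=
  ∀ z, a * ‖z‖ ≤ Kl * ‖A z‖ ∧ ‖A z‖ ≤ Ku * a * ‖z‖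

/-- bounded distortion, positive determinant -/
def Good (K : ℝ) (A : P m →L[ℝ] E m) : Prop := 0 < dt A ∧ ∃ a, 0 < a ∧ Iso K K a A

/-- the same for endomorphisms of Euclidean space -/
def GoodE (K : ℝ) (A : E m →L[ℝ] E m) : Prop :=
  0 < A.det ∧ ∃ a, 0 < a ∧ ∀ v, a * ‖v‖ ≤ K * ‖A v‖ ∧ ‖A v‖ ≤ K * a * ‖v‖

/-- the covector `(β, s)` -/
def cv (β : X m) (s : ℝ) : P m →L[ℝ] ℝ :=
  (∑ i, β i • (ContinuousLinearMap.proj i).comp (ContinuousLinearMap.fst ℝ (X m) ℝ)) +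
    s • ContinuousLinearMap.snd ℝ (X m) ℝ

/-! ### Tents -/

/-- sign -/
def sg (b : Bool) : ℝ := if b then 1 else -1
/-- coordinate `l`, or zero -/
def cl (l : ℕ) (x : X m) : ℝ := ∑ i : Fin m, if (i : ℕ) = l then x i else 0
/-- the norm of step `l` -/
def Nl (l : ℕ) (x : X m) : ℝ := |cl l x| + ‖x‖ / 2
/-- the linear pieces of `Nl l` -/
def fc (l : ℕ) (f : Fa m) : X m := fun i =>
  sg f.1 * (if (i : ℕ) = l then 1 else 0) + sg f.2.1 * (if i = f.2.2 then 1 / 2 else 0)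
/-- the tent over a cube -/
def tent (l : ℕ) (s : ℝ) (k : ℕ) (j : Ix m) (z : P m) : ℝ :=
  max 0 (sd k / 4 - Nl l (z.1 - ctr k j) - s * z.2)
/-- a cube under one face of the tent, with margin -/
def Inside (l : ℕ) (M : ℝ) (k : ℕ) (j : Ix m) (k' : ℕ) (j' : Ix m) (f : Fa m) : Prop :=
  ∀ x ∈ cell k' j', Nl l (x - ctr k j) = fc l f ⬝ᵥ (x - ctr k j) ∧
    M * sd k' ≤ sd k / 4 - Nl l (x - ctr k j)
/-- a cube outside the tent -/
def Outside (l k : ℕ) (j : Ix m) (k' : ℕ) (j' : Ix m) : Prop :=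
  ∀ x ∈ cell k' j', sd k / 4 < Nl l (x - ctr k j)
/-- admissible cube -/
def Adm (l : ℕ) (M : ℝ) (k : ℕ) (j : Ix m) (k' : ℕ) (j' : Ix m) : Prop :=
  k + 3 ≤ k' ∧ ((∃ f, Inside l M k j k' j' f) ∨ Outside l k j k' j')
/-- Whitney estimate -/
def Whit (m : ℕ) (M C : ℝ) : Prop :=
  ∀ l ≤ m, ∀ (k : ℕ) (j : Ix m), ∃ W : X m → ℝ≥0∞, Measurable W ∧
    ∫⁻ x in cell k j, W x ≤ ENNReal.ofReal C * volume (cell k j) ∧
    (∀ x, ENNReal.ofReal ((3 / 2) ^ 3) ≤ W x) ∧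
    ∀ x ∈ cell k j, ∀ k', k + 3 ≤ k' → ¬ Adm l M k j k' (idx k' x) →
      ENNReal.ofReal ((3 / 2) ^ (k' + 1 - k)) ≤ W x

/-! ### States and steps -/

/-- a cube with an affine map, a scale and a tag -/
structure St (m : ℕ) where
  k : ℕ
  j : Ix m
  A : P m →L[ℝ] E m
  b : E m
  a : ℝ
  tag : ℕ

/-- the affine map -/
def St.L (S : St m) (z : P m) : E m := S.A z + S.b
/-- the position -/
def St.y (S : St m) : E m := S.L (ctr S.k S.j, 0)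
/-- the size -/
def St.lam (S : St m) : ℝ := S.a * sd S.k
/-- the cube -/
def St.D (S : St m) : Set (X m) := cell S.k S.j

/-- what is done over a cube -/
structure Step (m : ℕ) where
  inc : P m → E m
  adm : ℕ → Ix m → Prop
  ch : ℕ → Ix m → St m
  suc : ℕ → Ix m → Prop
  W : X m → ℝ≥0∞

/-- oscillation along every line of slope at most one from `x`, at height about `r` -/
def Osc (cs : ℝ) (F : P m → E m) (x : X m) (r : ℝ) : Prop :=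
  ∀ η : X m, ‖η‖ ≤ 1 → cs ≤ ‖F (x - (r / 4) • η, r / 4) - F (x - (3 * r / 8) • η, 3 * r / 8)‖

/-- the geometric half of a step -/
structure Geom (K : ℝ) (S : St m) (T : Step m) : Prop where
  lip : ∃ C : ℝ≥0, LipschitzWith C T.inc
  supp : ∀ z : P m, 0 ≤ z.2 → T.inc z ≠ 0 → z.1 ∈ S.D ∧ z.2 < sd S.k / 2
  der : ∀ᵐ z : P m, ∃ A', HasFDerivAt (fun z => S.L z + T.inc z) A' z ∧ Good K A'
  late : ∀ k' j', T.adm k' j' → S.k + 3 ≤ k'
  chk : ∀ k' j', (T.ch k' j').k = k' ∧ (T.ch k' j').j = j'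
  aff : ∀ k' j', T.adm k' j' → ∀ z : P m, z.1 ∈ cell k' j' → 0 ≤ z.2 → z.2 ≤ sd k' →
    (T.ch k' j').L z = S.L z + T.inc z
  cov : ∀ᵐ x : X m, x ∈ S.D → ∃ k', T.adm k' (idx k' x)

/-- the rest of a step -/
structure Dyn (V : St m → Prop) (ψ : St m → ℝ) (cs δ : ℝ) (S : St m) (T : Step m) : Prop where
  bd : ∀ z : P m, z.1 ∈ S.D → 0 ≤ z.2 → z.2 ≤ sd S.k → ‖S.L z + T.inc z‖ ≤ 1
  chv : ∀ k' j', T.adm k' j' → cell k' j' ⊆ S.D → V (T.ch k' j')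
  meas : Measurable T.W
  int : ∫⁻ x in S.D, T.W x ≤ ENNReal.ofReal ((1 - δ) * ψ S) * volume S.D
  pot : ∀ x ∈ S.D, ∀ k', T.adm k' (idx k' x) → (∀ k'' < k', ¬ T.adm k'' (idx k'' x)) →
    T.suc k' (idx k' x) ∨ ENNReal.ofReal (ψ (T.ch k' (idx k' x))) ≤ T.W x
  osc : ∀ k' j', T.suc k' j' → ∀ x ∈ cell k' j',
    (∀ (η : X m) (t : ℝ), ‖η‖ ≤ 1 → 0 ≤ t → t ≤ 3 * sd S.k / 8 → x - t • η ∈ S.D) ∧
      Osc cs (fun z => S.L z + T.inc z) x (sd S.k)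
  sec : S.k = 0 → (∀ z, T.inc z = 0) ∧ ∀ k' j', T.adm k' j' → cell k' j' ⊆ S.D →
    ∀ x ∈ cell k' j', sd k' + ‖x - ctr S.k S.j‖ ≤ 1 / 2

/-- a system of steps -/
structure Sys (V : St m → Prop) (ψ : St m → ℝ) (K cs δ : ℝ) (S0 : St m) (st : St m → Step m) :
    Prop where
  hδ : 0 < δ
  v0 : V S0
  k0 : S0.k = 0
  j0 : S0.j = 0
  one : ∀ S, V S → 1 ≤ ψ S
  geom : ∀ S, V S → Geom K S (st S)
  dyn : ∀ S, V S → Dyn V ψ cs δ S (st S)

/-- the last state started over the cube `(k, j)` -/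
def node (S0 : St m) (st : St m → Step m) : ℕ → Ix m → St m
  | 0, _ => S0
  | k + 1, j =>
    if (st (node S0 st k (par j))).adm (k + 1) j then (st (node S0 st k (par j))).ch (k + 1) j
    else node S0 st k (par j)

/-- the increments of generation `k` -/
def lay (S0 : St m) (st : St m → Step m) (k : ℕ) (z : P m) : E m :=
  ∑ j ∈ cubes m k, if (node S0 st k j).k = k then (st (node S0 st k j)).inc z else 0

/-- all increments -/
def gsum (S0 : St m) (st : St m → Step m) (z : P m) : E m := ∑' k, lay S0 st k z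

/-- what is known of the state over `x` at generation `k` -/
structure NodeF (V : St m → Prop) (S0 : St m) (st : St m → Step m) (k : ℕ) (x : X m) : Prop where
  v : V (node S0 st k (idx k x))
  le : (node S0 st k (idx k x)).k ≤ k
  mem : x ∈ (node S0 st k (idx k x)).D
  same : ∀ k', (node S0 st k (idx k x)).k ≤ k' → k' ≤ k →
    node S0 st k' (idx k' x) = node S0 st k (idx k x)
  wait : ∀ k' ≤ k, ¬ (st (node S0 st k (idx k x))).adm k' (idx k' x)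

/-- the local construction over the unit cube -/
structure Core (K cs : ℝ) (f0 g : P m → E m) : Prop where
  loc : ∀ τ : ℝ, 0 < τ → ∃ C : ℝ≥0, LipschitzOnWith C g {z | τ < z.2}
  sec : ∀ z : P m, 0 < z.2 → g z ≠ 0 → z.2 + ‖z.1 - ctr 0 0‖ ≤ 1 / 2
  bd : ∀ z : P m, z.1 ∈ cell 0 (0 : Ix m) → 0 < z.2 → z.2 ≤ 1 → ‖f0 z + g z‖ ≤ 1
  der : ∀ᵐ z : P m, z.1 ∈ cell 0 (0 : Ix m) → 0 < z.2 → z.2 ≤ 1 →
    ∃ A, HasFDerivAt (fun z => f0 z + g z) A z ∧ Good K A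
  osc : ∀ᵐ x : X m, x ∈ cell 0 (0 : Ix m) → ∀ ε : ℝ, 0 < ε → ∃ r, 0 < r ∧ r < ε ∧
    Osc cs (fun z => f0 z + g z) x r

/-! ### The state machine -/

/-- constants -/
structure Cst where
  K0 : ℝ
  T : ℝ
  Ku : ℝ
  c : ℝ
  M : ℝ
  C1 : ℝ
  q : ℝ
  γ : ℝ
  g : ℝ
  δ : ℝ
  θ : ℝ
  G : ℝ
  K1 : ℝ
  H : ℝ
  c0 : ℝ
  K : ℝ
  cs : ℝ
  Λ : ℕ → ℝ

/-- the order of the constants -/
structure Cst.OK (κ : Cst) (m : ℕ) : Prop where
  hm : 1 ≤ m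
  hK0 : κ.K0 = ((m : ℝ) + 1) * (12 + 8 ^ m)
  hT : κ.T = 4 * 8 ^ m + 4
  hKu : κ.Ku = κ.K0 * (1 + κ.T * (κ.T + 2))
  c_pos : 0 < κ.c
  hc : κ.c * (8 * κ.K0 * κ.T * (κ.Ku + 1)) = 1
  hM : κ.M * κ.c = 8
  C1_nonneg : 0 ≤ κ.C1
  whit : Whit m κ.M κ.C1
  hq : κ.q = (1 / 8) ^ m
  hγ : κ.γ = κ.q / 4
  hg : κ.g * (2 * ((m : ℝ) + 1)) = κ.γ * κ.q
  hδ : κ.δ = κ.g * κ.q / 4
  θ_pos : 0 < κ.θ
  hθ : 16 * κ.θ * (κ.C1 + 4) ≤ κ.g * κ.q
  G_ge : 1 ≤ κ.G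
  hG : κ.G ^ (-κ.θ) ≤ 1 / 8
  hK1 : κ.K1 = κ.G * κ.K0 * (1 + κ.G * κ.T * (κ.T + 2))
  hH : 8 * κ.G ≤ κ.H
  hH' : 4 * κ.Ku ≤ κ.H
  Λ0 : κ.Λ 0 = κ.H * κ.K1
  Λs : ∀ i, κ.Λ (i + 1) = κ.Λ i * (1 + κ.Λ i * (2 + 8 ^ i))
  c0_pos : 0 < κ.c0
  hc0 : κ.c0 * (2 * κ.G * κ.K0 ^ 2 * κ.T ^ 2) ≤ 1
  hc0' : κ.c0 * (32 * κ.G) ≤ 3 * κ.c
  hK : κ.Ku ≤ κ.K
  hK' : κ.K1 ≤ κ.K
  hK'' : ∀ i ≤ m + 1, κ.Λ i ≤ κ.K
  hcs : κ.cs * (8 * κ.K0) = κ.c0

/-- distance to the unit sphere, squared form -/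
def dd (y : E m) : ℝ := 1 - ‖y‖ ^ 2

/-- the form of the linear part after `i` tents of a cycle -/
structure Dec (i : ℕ) (a : ℝ) (A B : P m →L[ℝ] E m) (v : ℕ → E m) (β : ℕ → X m) : Prop where
  small : ∀ z, ‖B z‖ ≤ ‖z‖ / 4
  unit : ∀ l < i, ‖v l‖ = 1
  orth : ∀ l < i, ∀ l' < i, l ≠ l' → ⟪v l, v l'⟫ = 0
  face : ∀ l < i, ∃ f, β l = fc l f
  eq : ∀ z, A z = a • (B z + ∑ l ∈ Finset.range i, cv (β l) (8 ^ l) z • v l)

/-- valid states: tag 0 start, 1 isotropic, 2 after a spike, `3 + i` after `i` tents -/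
structure Valid (κ : Cst) (S : St m) : Prop where
  a_pos : 0 < S.a
  size : S.lam ≤ κ.c * dd S.y
  det : 0 < dt S.A
  k_pos : S.tag ≠ 0 → 0 < S.k
  tag_le : S.tag ≤ m + 3
  iso0 : S.tag ≤ 1 → Iso κ.K0 κ.K0 S.a S.A
  iso2 : S.tag = 2 → Iso κ.K1 κ.Ku S.a S.A
  iso3 : 3 ≤ S.tag → Iso (κ.Λ (S.tag - 3)) κ.K0 S.a S.A ∧ ∃ B v β, Dec (S.tag - 3) S.a S.A B v β

/-- an inward spike is possible -/
def Steer (κ : Cst) (S : St m) : Prop :=
  ∃ u : P m, u.2 = 1 ∧ ‖u.1‖ ≤ κ.T ∧ S.a / 4 ≤ ⟪S.y, S.A u⟫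

/-- good isotropic states -/
def Nice (κ : Cst) (S : St m) : Prop :=
  κ.c0 ≤ S.lam ∨ Steer κ S ∨ S.lam * (4 * κ.G) ≤ κ.c * dd S.y

/-- weight -/
def kap (κ : Cst) (S : St m) : ℝ :=
  if S.tag = 0 then 16 else if S.tag = 1 ∧ Nice κ S then 1 else
    if S.tag ≤ 2 then 1 + κ.γ else 1 + κ.γ - ((S.tag : ℝ) - 2) * κ.g

/-- potential -/
def psi (κ : Cst) (S : St m) : ℝ := kap κ S * S.lam ^ (-κ.θ)

/-- the child of a tent step -/
def tch (S : St m) (l : ℕ) (s M : ℝ) (V : E m) (a' : ℝ) (tg : ℕ) (k' : ℕ) (j' : Ix m) : St m :=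
  if h : ∃ f, Inside l M S.k S.j k' j' f then
    { k := k', j := j', A := S.A + (cv (fc l h.choose) s).smulRight V,
      b := S.b - (sd S.k / 4 + fc l h.choose ⬝ᵥ ctr S.k S.j) • V, a := a', tag := tg }
  else { k := k', j := j', A := S.A, b := S.b, a := S.a, tag := S.tag }

/-- a tent step -/
def tstep (S : St m) (l : ℕ) (s M : ℝ) (V : E m) (a' : ℝ) (tg : ℕ) (W : X m → ℝ≥0∞) : Step m where
  inc z := -(tent l s S.k S.j z) • V
  adm := Adm l M S.k S.j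
  ch := tch S l s M V a' tg
  suc _ _ := False
  W := W

/-- the step exists -/
def Has (κ : Cst) (S : St m) : Prop :=
  ∃ T : Step m, Geom κ.K S T ∧ Dyn (Valid κ) (psi κ) κ.cs κ.δ S T

/-- the starting state -/
def start (m : ℕ) (e : ℝ) : St m where
  k := 0
  j := 0
  A := e • ((J m).symm : P m →L[ℝ] E m)
  b := -(e • (J m).symm (ctr 0 0, 1 / 2))
  a := e
  tag := 0

/-! ### Cube and ball -/

/-- sup norm -/
def sup (z : E m) : ℝ := ‖(WithLp.ofLp z : Fin (m + 1) → ℝ)‖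

/-- signed swap of the coordinates `0` and `i` -/
def sw (i : Fin (m + 1)) (b : Bool) (z : E m) : E m :=
  WithLp.toLp 2 fun i' => sg b * z (Equiv.swap 0 i i')

/-- the map on the cube -/
def cubeMap (e : ℝ) (g : P m → E m) (z : E m) : E m :=
  e • z + ∑ p : Fin (m + 1) × Bool, sw p.1 p.2 (g (J m (sw p.1 p.2 z) + (ctr 0 0, 1 / 2)))

/-- regularity on the open cube of side one -/
structure CubeReg (K : ℝ) (F : E m → E m) : Prop where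
  loc : ∀ ρ : ℝ, ρ < 1 / 2 → ∃ C : ℝ≥0, LipschitzOnWith C F {z | sup z < ρ}
  bd : ∃ R : ℝ, ∀ z, sup z < 1 / 2 → ‖F z‖ ≤ R
  der : ∀ᵐ z : E m, sup z < 1 / 2 → ∃ A, HasFDerivAt F A z ∧ GoodE K A

/-- oscillation along almost every radius of the cube -/
def CubeOsc (cs : ℝ) (F : E m → E m) : Prop :=
  ∀ᵐ z : E m, ∀ ρ : ℝ, ρ < 1 → ∃ s₁ ∈ Ioo ρ 1, ∃ s₂ ∈ Ioo ρ 1,
    cs ≤ ‖F (s₁ • (2 * sup z)⁻¹ • z) - F (s₂ • (2 * sup z)⁻¹ • z)‖

/-- radial map of the ball onto the cube -/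
def Phi (z : E m) : E m := (‖z‖ / (2 * sup z)) • z

/-- oscillation along almost every radius of the ball -/
def BallOsc {n : ℕ} (c : ℝ) (f : EuclideanSpace ℝ (Fin n) → EuclideanSpace ℝ (Fin n)) : Prop :=
  ∀ᵐ (ξ : sphere (0 : EuclideanSpace ℝ (Fin n)) 1)
    ∂(volume : Measure (EuclideanSpace ℝ (Fin n))).toSphere, ∀ ρ : ℝ, ρ < 1 →
    ∃ s₁ ∈ Ioo ρ 1, ∃ s₂ ∈ Ioo ρ 1,
      c ≤ ‖f (s₁ • (ξ : EuclideanSpace ℝ (Fin n))) - f (s₂ • (ξ : EuclideanSpace ℝ (Fin n)))‖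

end Pool.Agent.Lib.FQ
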