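import Pool.Agent.Lib.FQ.Blue

/-! Basic facts: dyadic cubes, coordinates, faces, tents. -/

set_option autoImplicit false

open scoped Topology ENNReal NNReal RealInnerProductSpace Classical
open Metric Filter MeasureTheory Set

noncomputable section

namespace Pool.Agent.Lib.FQ

variable {m : ℕ}

/-! ### Sides -/

theorem sd_pos (k : ℕ) : 0 < sd k := by unfold sd; positivity
theorem sd_zero : sd 0 = 1 := by simp [sd]
theorem sd_succ (k : ℕ) : sd (k + 1) = sd k / 2 := by unfold sd; rw [pow_succ]; ring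
theorem sd_add (k n : ℕ) : sd (k + n) = sd k * (1 / 2) ^ n := by unfold sd; rw [pow_add]
theorem sd_three (k : ℕ) : sd (k + 3) = sd k / 8 := by rw [sd_add]; ring
theorem sd_anti {k k' : ℕ} (h : k ≤ k') : sd k' ≤ sd k :=
  pow_le_pow_of_le_one (by norm_num) (by norm_num) h
theorem sd_le_one (k : ℕ) : sd k ≤ 1 := sd_zero ▸ sd_anti (Nat.zero_le k)
theorem sd_mul_pow (k : ℕ) : sd k * 2 ^ k = 1 := by unfold sd; rw [← mul_pow]; norm_num
theorem sd_le_eighth {k k' : ℕ} (h : k + 3 ≤ k') : sd k' ≤ sd k / 8 := sd_three k ▸ sd_anti h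
theorem exists_sd_lt {ε : ℝ} (h : 0 < ε) : ∃ k, sd k < ε :=
  exists_pow_lt_of_lt_one h (by norm_num)

theorem exists_level {t : ℝ} (h0 : 0 < t) (h1 : t ≤ 1) : ∃ k, sd (k + 1) < t ∧ t ≤ sd k := by
  have h := exists_sd_lt h0
  have hN := Nat.find_spec h
  have h2 : Nat.find h ≠ 0 := by
    intro h3; rw [h3, sd_zero] at hN; linarith
  obtain ⟨k, hk⟩ := Nat.exists_eq_succ_of_ne_zero h2
  refine ⟨k, by rw [hk] at hN; exact hN, ?_⟩
  exact not_lt.1 (Nat.find_min h (by omega))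

/-! ### Cubes -/

theorem mem_cell {k : ℕ} {j : Ix m} {x : X m} :
    x ∈ cell k j ↔ ∀ i, (j i : ℝ) * sd k ≤ x i ∧ x i < ((j i : ℝ) + 1) * sd k := by
  have h2 : (0 : ℝ) < 2 ^ k := by positivity
  have h3 := sd_mul_pow k
  have h4 : ∀ a : ℝ, a * sd k * 2 ^ k = a := fun a => by rw [mul_assoc, h3, mul_one]
  simp only [cell, mem_ofPred_eq, funext_iff, idx, Int.floor_eq_iff]
  refine forall_congr' fun i => and_congr ?_ ?_
  · rw [← mul_le_mul_iff_left₀ h2 (b := (j i : ℝ) * sd k), h4]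
  · rw [← mul_lt_mul_iff_left₀ h2 (c := ((j i : ℝ) + 1) * sd k), h4]

theorem mem_cell_ctr {k : ℕ} {j : Ix m} {x : X m} :
    x ∈ cell k j ↔ ∀ i, -(sd k / 2) ≤ x i - ctr k j i ∧ x i - ctr k j i < sd k / 2 := by
  rw [mem_cell]
  refine forall_congr' fun i => ?_
  unfold ctr
  constructor <;> rintro ⟨h1, h2⟩ <;> constructor <;> linarith

theorem mem_cell_idx (k : ℕ) (x : X m) : x ∈ cell k (idx k x) := rfl
theorem idx_of_mem {k : ℕ} {j : Ix m} {x : X m} (h : x ∈ cell k j) : idx k x = j := h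

theorem ctr_mem (k : ℕ) (j : Ix m) : ctr k j ∈ cell k j :=
  mem_cell_ctr.2 fun i => by have := sd_pos k; constructor <;> linarith

theorem idx_ctr (k : ℕ) (j : Ix m) : idx k (ctr k j) = j := ctr_mem k j

theorem norm_sub_ctr_le {k : ℕ} {j : Ix m} {x : X m} (h : x ∈ cell k j) :
    ‖x - ctr k j‖ ≤ sd k / 2 := by
  have := sd_pos k
  refine (pi_norm_le_iff_of_nonneg (by linarith)).2 fun i => ?_
  have h1 := mem_cell_ctr.1 h i
  rw [Pi.sub_apply, Real.norm_eq_abs, abs_le]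
  exact ⟨h1.1, h1.2.le⟩

theorem norm_sub_le_sd {k : ℕ} {j : Ix m} {x x' : X m} (h : x ∈ cell k j) (h' : x' ∈ cell k j) :
    ‖x - x'‖ ≤ sd k := by
  have h1 := norm_sub_ctr_le h
  have h2 := norm_sub_ctr_le h'
  have h3 := norm_sub_le (x - ctr k j) (x' - ctr k j)
  rw [sub_sub_sub_cancel_right] at h3
  linarith

theorem mem_cell_of_norm_lt {k : ℕ} {j : Ix m} {x : X m} (h : ‖x - ctr k j‖ < sd k / 2) :
    x ∈ cell k j := by
  refine mem_cell_ctr.2 fun i => ?_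
  have h1 := (norm_le_pi_norm (x - ctr k j) i).trans_lt h
  rw [Pi.sub_apply, Real.norm_eq_abs, abs_lt] at h1
  exact ⟨h1.1.le, h1.2⟩

theorem par_idx (k : ℕ) (x : X m) : par (idx (k + 1) x) = idx k x := by
  funext i
  simp only [par, idx]
  have h := Int.floor_div_natCast (x i * 2 ^ (k + 1)) 2
  have h2 : x i * 2 ^ (k + 1) / ((2 : ℕ) : ℝ) = x i * 2 ^ k := by push_cast; ring
  rw [h2] at h
  rw [h]; rfl

theorem idx_eq_of_le {k k' : ℕ} (h : k ≤ k') {x x' : X m} (hx : idx k' x = idx k' x') :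
    idx k x = idx k x' := by
  induction k', h using Nat.le_induction with
  | base => exact hx
  | succ n _ ih => exact ih (by rw [← par_idx n x, hx, par_idx])

theorem cell_subset {k k' : ℕ} (h : k ≤ k') {j : Ix m} {x : X m} (hx : x ∈ cell k j) :
    cell k' (idx k' x) ⊆ cell k j := fun _ hx' => (idx_eq_of_le h hx').trans hx

theorem cell_eq_pi (k : ℕ) (j : Ix m) :
    cell k j = univ.pi fun i => Ico ((j i : ℝ) * sd k) (((j i : ℝ) + 1) * sd k) := by
  ext x; simp [mem_cell]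

theorem measurableSet_cell (k : ℕ) (j : Ix m) : MeasurableSet (cell k j) := by
  rw [cell_eq_pi]; exact MeasurableSet.univ_pi fun _ => measurableSet_Ico

theorem volume_cell (k : ℕ) (j : Ix m) : volume (cell k j) = ENNReal.ofReal (sd k ^ m) := by
  rw [cell_eq_pi, Real.volume_pi_Ico]
  have : ∀ i, ((j i : ℝ) + 1) * sd k - (j i : ℝ) * sd k = sd k := fun i => by ring
  simp only [this, Finset.prod_const, Finset.card_univ, Fintype.card_fin]
  rw [ENNReal.ofReal_pow (sd_pos k).le]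

theorem volume_cell_ne_top (k : ℕ) (j : Ix m) : volume (cell k j) ≠ ∞ := by
  rw [volume_cell]; exact ENNReal.ofReal_ne_top

theorem volume_cell_ne_zero (k : ℕ) (j : Ix m) : volume (cell k j) ≠ 0 := by
  rw [volume_cell]; exact (ENNReal.ofReal_pos.2 (pow_pos (sd_pos k) m)).ne'

theorem volume_three (k : ℕ) (j j' : Ix m) :
    volume (cell (k + 3) j') = ENNReal.ofReal ((1 / 8) ^ m) * volume (cell k j) := by
  rw [volume_cell, volume_cell, ← ENNReal.ofReal_mul (by positivity), sd_three, ← mul_pow]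
  congr 2; ring

theorem mem_sub3 {k : ℕ} {j o : Ix m} {x : X m} : x ∈ cell (k + 3) (sub3 j o) ↔
    ∀ i, (o i : ℝ) * (sd k / 8) ≤ x i - ctr k j i ∧
      x i - ctr k j i < ((o i : ℝ) + 1) * (sd k / 8) := by
  rw [mem_cell, sd_three]
  refine forall_congr' fun i => ?_
  simp only [ctr, sub3]
  push_cast
  constructor <;> rintro ⟨h1, h2⟩ <;> constructor <;> linarith

theorem sub3_subset (k : ℕ) (j : Ix m) {o : Ix m} (ho : ∀ i, -4 ≤ o i ∧ o i ≤ 3) :
    cell (k + 3) (sub3 j o) ⊆ cell k j := by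
  intro x hx
  refine mem_cell_ctr.2 fun i => ?_
  have h1 := mem_sub3.1 hx i
  have h2 : (-4 : ℝ) ≤ o i := by exact_mod_cast (ho i).1
  have h3 : (o i : ℝ) ≤ 3 := by exact_mod_cast (ho i).2
  have := sd_pos k
  constructor <;> nlinarith [h1.1, h1.2]

theorem mem_unit {x : X m} : x ∈ cell 0 (0 : Ix m) ↔ ∀ i, 0 ≤ x i ∧ x i < 1 := by
  simp [mem_cell, sd_zero]

theorem ctr_unit (i : Fin m) : ctr 0 (0 : Ix m) i = 1 / 2 := by simp [ctr, sd_zero]

theorem idx_mem_cubes (k : ℕ) {x : X m} (hx : x ∈ cell 0 (0 : Ix m)) : idx k x ∈ cubes m k := by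
  refine Fintype.mem_piFinset.2 fun i => Finset.mem_Ico.2 ⟨?_, ?_⟩
  · exact Int.floor_nonneg.2 (mul_nonneg (mem_unit.1 hx i).1 (by positivity))
  · refine Int.floor_lt.2 ?_
    push_cast
    exact mul_lt_of_lt_one_left (by positivity) (mem_unit.1 hx i).2

theorem cell_subset_unit {k : ℕ} {j : Ix m} (hj : j ∈ cubes m k) :
    cell k j ⊆ cell 0 (0 : Ix m) := by
  intro x hx
  refine mem_unit.2 fun i => ?_
  have h1 := Finset.mem_Ico.1 (Fintype.mem_piFinset.1 hj i)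
  have h2 : (0 : ℝ) ≤ j i := by exact_mod_cast h1.1
  have h3 : (j i : ℝ) + 1 ≤ 2 ^ k := by exact_mod_cast h1.2
  have h4 := mem_cell.1 hx i
  have h5 := sd_pos k
  have h6 := sd_mul_pow k
  constructor <;> nlinarith [h4.1, h4.2]

theorem node_succ (S0 : St m) (st : St m → Step m) (k : ℕ) (x : X m) :
    node S0 st (k + 1) (idx (k + 1) x) =
      if (st (node S0 st k (idx k x))).adm (k + 1) (idx (k + 1) x) then
        (st (node S0 st k (idx k x))).ch (k + 1) (idx (k + 1) x) else node S0 st k (idx k x) := by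
  rw [node, par_idx]

/-! ### Coordinates -/

theorem J_fst (z : E m) (i : Fin m) : (J m z).1 i = z i.succ := rfl
theorem J_snd (z : E m) : (J m z).2 = z 0 := rfl
theorem J_symm_zero (p : P m) : (J m).symm p 0 = p.2 := rfl
theorem J_symm_succ (p : P m) (i : Fin m) : (J m).symm p i.succ = p.1 i := rfl

theorem sup_nonneg (z : E m) : 0 ≤ sup z := norm_nonneg _
theorem abs_le_sup (z : E m) (i : Fin (m + 1)) : |z i| ≤ sup z :=
  norm_le_pi_norm (WithLp.ofLp z : Fin (m + 1) → ℝ) i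
theorem sup_le_iff {z : E m} {r : ℝ} (hr : 0 ≤ r) : sup z ≤ r ↔ ∀ i, |z i| ≤ r :=
  pi_norm_le_iff_of_nonneg hr
theorem sup_lt_iff {z : E m} {r : ℝ} (hr : 0 < r) : sup z < r ↔ ∀ i, |z i| < r :=
  pi_norm_lt_iff hr
theorem sup_smul (c : ℝ) (z : E m) : sup (c • z) = |c| * sup z := by
  unfold sup; rw [WithLp.ofLp_smul, norm_smul, Real.norm_eq_abs]
theorem sup_le_norm (z : E m) : sup z ≤ ‖z‖ :=
  (sup_le_iff (norm_nonneg z)).2 fun i => PiLp.norm_apply_le z i

theorem norm_le_sup (z : E m) : ‖z‖ ≤ ((m : ℝ) + 1) * sup z := by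
  have h0 := sup_nonneg z
  rw [EuclideanSpace.norm_eq]
  refine Real.sqrt_le_iff.2 ⟨by positivity, ?_⟩
  have h1 : ∑ i, ‖z i‖ ^ 2 ≤ ∑ _i : Fin (m + 1), sup z ^ 2 :=
    Finset.sum_le_sum fun i _ => pow_le_pow_left₀ (norm_nonneg _) (abs_le_sup z i) 2
  rw [Finset.sum_const, Finset.card_univ, Fintype.card_fin, nsmul_eq_mul] at h1
  push_cast at h1
  have h2 : (0 : ℝ) ≤ m := Nat.cast_nonneg m
  nlinarith [sq_nonneg (sup z), mul_nonneg h2 (sq_nonneg (sup z)),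
    mul_nonneg (mul_nonneg h2 h2) (sq_nonneg (sup z))]

theorem norm_J (z : E m) : ‖J m z‖ = sup z := by
  refine le_antisymm ?_ ((sup_le_iff (norm_nonneg _)).2 fun i => ?_)
  · rw [Prod.norm_def]
    exact max_le ((pi_norm_le_iff_of_nonneg (sup_nonneg z)).2 fun i => abs_le_sup z _)
      (abs_le_sup z 0)
  · refine Fin.cases ?_ (fun i => ?_) i
    · exact norm_snd_le (J m z)
    · exact (norm_le_pi_norm (J m z).1 i).trans (norm_fst_le (J m z))

theorem start_L (e : ℝ) (z : P m) : (start m e).L z = e • (J m).symm (z - (ctr 0 0, 1 / 2)) := by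
  rw [map_sub, smul_sub, sub_eq_add_neg]; rfl

theorem cv_apply (β : X m) (s : ℝ) (z : P m) : cv β s z = β ⬝ᵥ z.1 + s * z.2 := by
  simp [cv, dotProduct]

/-! ### Faces -/

theorem sg_sq (b : Bool) : sg b * sg b = 1 := by cases b <;> simp [sg]
theorem abs_sg (b : Bool) : |sg b| = 1 := by cases b <;> simp [sg]
theorem exists_sg (t : ℝ) : ∃ b, sg b * t = |t| := by
  rcases le_total 0 t with h | h
  · exact ⟨true, by simp [sg, abs_of_nonneg h]⟩
  · exact ⟨false, by simp [sg, abs_of_nonpos h]⟩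
theorem sg_mul_le (b : Bool) (t : ℝ) : sg b * t ≤ |t| := by
  have := le_abs_self (sg b * t); rwa [abs_mul, abs_sg, one_mul] at this

theorem cl_lt {l : ℕ} (h : l < m) (x : X m) : cl l x = x ⟨l, h⟩ := by
  unfold cl
  rw [Finset.sum_eq_single ⟨l, h⟩]
  · simp
  · intro i _ hi
    exact if_neg fun h' => hi (Fin.ext h')
  · simp

theorem cl_ge {l : ℕ} (h : m ≤ l) (x : X m) : cl l x = 0 :=
  Finset.sum_eq_zero fun i _ => if_neg (by have := i.2; omega)

theorem abs_cl_le (l : ℕ) (x : X m) : |cl l x| ≤ ‖x‖ := by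
  rcases lt_or_ge l m with h | h
  · rw [cl_lt h]; exact norm_le_pi_norm x _
  · rw [cl_ge h, abs_zero]; exact norm_nonneg x

theorem cl_sub (l : ℕ) (x x' : X m) : cl l (x - x') = cl l x - cl l x' := by
  rcases lt_or_ge l m with h | h
  · simp [cl_lt h]
  · simp [cl_ge h]

theorem fc_dot (l : ℕ) (f : Fa m) (x : X m) :
    fc l f ⬝ᵥ x = sg f.1 * cl l x + sg f.2.1 * (x f.2.2 / 2) := by
  simp only [fc, dotProduct, add_mul, Finset.sum_add_distrib, cl, Finset.mul_sum]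
  congr 1
  · exact Finset.sum_congr rfl fun i _ => by split_ifs <;> ring
  · rw [Finset.sum_eq_single f.2.2]
    · simp; ring
    · intro i _ hi; simp [hi]
    · simp

theorem abs_fc_sub (l : ℕ) (f : Fa m) (x : X m) :
    |fc l f ⬝ᵥ x - sg f.1 * cl l x| ≤ ‖x‖ / 2 := by
  rw [fc_dot, add_sub_cancel_left, abs_mul, abs_sg, one_mul, abs_div, abs_two]
  have : |x f.2.2| ≤ ‖x‖ := norm_le_pi_norm x _
  linarith

theorem fc_dot_le (l : ℕ) (f : Fa m) (x : X m) : fc l f ⬝ᵥ x ≤ Nl l x := by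
  have h1 := (abs_le.1 (abs_fc_sub l f x)).2
  have h2 := sg_mul_le f.1 (cl l x)
  unfold Nl; linarith

theorem exists_fc (hm : 1 ≤ m) (l : ℕ) (x : X m) : ∃ f : Fa m, fc l f ⬝ᵥ x = Nl l x := by
  have : Nonempty (Fin m) := ⟨⟨0, hm⟩⟩
  obtain ⟨i, hi⟩ := Finite.exists_max fun i => |x i|
  have h1 : ‖x‖ = |x i| :=
    le_antisymm ((pi_norm_le_iff_of_nonneg (abs_nonneg _)).2 hi) (norm_le_pi_norm x i)
  obtain ⟨b, hb⟩ := exists_sg (cl l x)
  obtain ⟨b', hb'⟩ := exists_sg (x i)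
  refine ⟨(b, b', i), ?_⟩
  rw [fc_dot, Nl, h1, ← hb, ← hb']; ring

theorem le_Nl (l : ℕ) (x : X m) : ‖x‖ / 2 ≤ Nl l x := by
  unfold Nl; linarith [abs_nonneg (cl l x)]
theorem Nl_le (l : ℕ) (x : X m) : Nl l x ≤ 3 / 2 * ‖x‖ := by
  unfold Nl; linarith [abs_cl_le l x]
theorem Nl_nonneg (l : ℕ) (x : X m) : 0 ≤ Nl l x := by
  linarith [le_Nl l x, norm_nonneg x]
theorem Nl_top (x : X m) : Nl m x = ‖x‖ / 2 := by simp [Nl, cl_ge le_rfl]

theorem abs_fc_dot_le (l : ℕ) (f : Fa m) (x : X m) : |fc l f ⬝ᵥ x| ≤ 3 / 2 * ‖x‖ := by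
  have h1 := abs_fc_sub l f x
  have h2 := abs_cl_le l x
  have h3 := abs_add_le (fc l f ⬝ᵥ x - sg f.1 * cl l x) (sg f.1 * cl l x)
  rw [sub_add_cancel, abs_mul, abs_sg] at h3
  linarith

theorem abs_fc_top_le (f : Fa m) (x : X m) : |fc m f ⬝ᵥ x| ≤ ‖x‖ / 2 := by
  simpa [cl_ge le_rfl] using abs_fc_sub m f x

theorem abs_cv_le (l : ℕ) (f : Fa m) {s : ℝ} (hs : 0 ≤ s) (z : P m) :
    |cv (fc l f) s z| ≤ (2 + s) * ‖z‖ := by
  rw [cv_apply]
  have h1 := abs_fc_dot_le l f z.1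
  have h2 : |z.2| ≤ ‖z‖ := norm_snd_le z
  have h3 := norm_fst_le z
  have h4 := abs_add_le (fc l f ⬝ᵥ z.1) (s * z.2)
  rw [abs_mul, abs_of_nonneg hs] at h4
  nlinarith [norm_nonneg z]

theorem Nl_sub_le (l : ℕ) (x x' : X m) : |Nl l x - Nl l x'| ≤ 3 / 2 * ‖x - x'‖ := by
  have h1 := abs_abs_sub_abs_le_abs_sub (cl l x) (cl l x')
  rw [← cl_sub] at h1
  have h2 := abs_cl_le l (x - x')
  have h3 := abs_norm_sub_norm_le x x'
  rw [abs_le] at h1 h3 ⊢
  unfold Nl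
  constructor <;> linarith [h1.1, h1.2, h3.1, h3.2]

theorem fc_ne_zero (l : ℕ) (f : Fa m) : fc l f ≠ 0 := by
  intro h
  have := congrFun h f.2.2
  obtain ⟨a, b, i⟩ := f
  simp only [fc, if_true, Pi.zero_apply] at this
  split_ifs at this <;> cases a <;> cases b <;> simp [sg] at this <;> norm_num at this

theorem fc_top (f : Fa m) : fc m f = Pi.single f.2.2 (sg f.2.1 / 2) := by
  funext i
  have : (i : ℕ) ≠ m := i.2.ne
  by_cases h : i = f.2.2
  · subst h; simp [fc, this]; ring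
  · simp [fc, this, h]

/-- offset of the cube of generation `k + 3` that lies under the face `± e_i / 2` -/
def off (i0 : Fin m) (b : Bool) : Ix m := Pi.single i0 (if b then 2 else -3)

theorem off_mem (i0 : Fin m) (b : Bool) (i : Fin m) : -4 ≤ off i0 b i ∧ off i0 b i ≤ 3 := by
  by_cases h : i = i0
  · subst h; cases b <;> simp [off]
  · simp [off, h]

theorem fc_star {k : ℕ} {j : Ix m} {i0 : Fin m} {b : Bool} {x : X m}
    (hx : x ∈ cell (k + 3) (sub3 j (off i0 b))) {f : Fa m}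
    (hf : Nl m (x - ctr k j) = fc m f ⬝ᵥ (x - ctr k j)) : fc m f = Pi.single i0 (sg b / 2) := by
  rw [fc_dot, cl_ge le_rfl, Nl_top] at hf
  have h0 := mem_sub3.1 hx i0
  have h1 := mem_sub3.1 hx f.2.2
  have h2 : |(x - ctr k j) i0| ≤ ‖x - ctr k j‖ := norm_le_pi_norm (x - ctr k j) i0
  have h3 := sd_pos k
  rw [Pi.sub_apply, abs_le] at h2
  rw [Pi.sub_apply] at hf
  rw [fc_top]
  obtain ⟨a, c, i⟩ := f
  by_cases h : i = i0
  · subst h
    cases b <;> cases c <;> simp [off, sg] at h0 hf ⊢ <;> linarith [h0.1, h0.2, h2.1, h2.2]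
  · exfalso
    cases b <;> cases c <;> simp [off, sg, h] at h0 h1 hf <;>
      linarith [h0.1, h0.2, h1.1, h1.2, h2.1, h2.2]

/-! ### Tents -/

theorem tent_nonneg (l : ℕ) (s : ℝ) (k : ℕ) (j : Ix m) (z : P m) : 0 ≤ tent l s k j z :=
  le_max_left _ _

theorem tent_le (l : ℕ) {s : ℝ} (hs : 0 ≤ s) (k : ℕ) (j : Ix m) {z : P m} (hz : 0 ≤ z.2) :
    tent l s k j z ≤ sd k / 4 := by
  have := sd_pos k
  refine max_le (by linarith) ?_
  nlinarith [Nl_nonneg l (z.1 - ctr k j), mul_nonneg hs hz]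

theorem tent_inside {l : ℕ} {s M : ℝ} (hs : 0 ≤ s) (hM : s ≤ M) {k k' : ℕ} {j j' : Ix m}
    {f : Fa m} (h : Inside l M k j k' j' f) {z : P m} (hz : z.1 ∈ cell k' j')
    (h1 : z.2 ≤ sd k') :
    tent l s k j z = sd k / 4 + fc l f ⬝ᵥ ctr k j - cv (fc l f) s z := by
  obtain ⟨h2, h3⟩ := h _ hz
  have h4 := sd_pos k'
  have h5 : s * z.2 ≤ M * sd k' := by nlinarith
  rw [tent, max_eq_right (by linarith), h2, cv_apply, dotProduct_sub]; ring

theorem tent_outside {l : ℕ} {s : ℝ} (hs : 0 ≤ s) {k k' : ℕ} {j j' : Ix m}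
    (h : Outside l k j k' j') {z : P m} (hz : z.1 ∈ cell k' j') (h0 : 0 ≤ z.2) :
    tent l s k j z = 0 := by
  have := h _ hz
  exact max_eq_left (by nlinarith [mul_nonneg hs h0])

theorem tent_ctr {l : ℕ} {s M : ℝ} {k k' : ℕ} {j j' : Ix m} {f : Fa m}
    (h : Inside l M k j k' j' f) : M * sd k' ≤ tent l s k j (ctr k' j', 0) := by
  have := (h _ (ctr_mem k' j')).2
  exact le_max_of_le_right (by simpa using this)

theorem not_outside_top {k k' : ℕ} {j j' : Ix m} (h : cell k' j' ⊆ cell k j) :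
    ¬ Outside m k j k' j' := by
  intro ho
  have h1 := ho _ (ctr_mem k' j')
  have h2 := norm_sub_ctr_le (h (ctr_mem k' j'))
  rw [Nl_top] at h1
  linarith

theorem not_outside_centre {l k k' : ℕ} {j j' : Ix m} {x : X m} (hx : x ∈ cell k' j')
    (hx' : x ∈ cell (k + 3) (sub3 j 0)) : ¬ Outside l k j k' j' := by
  intro ho
  have h1 := ho _ hx
  have h3 := sd_pos k
  have h2 : ‖x - ctr k j‖ ≤ sd k / 8 := by
    refine (pi_norm_le_iff_of_nonneg (by linarith)).2 fun i => ?_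
    have h4 := mem_sub3.1 hx' i
    simp only [Pi.zero_apply, Int.cast_zero, zero_mul, zero_add, one_mul] at h4
    rw [Pi.sub_apply, Real.norm_eq_abs, abs_le]
    exact ⟨by linarith [h4.1], h4.2.le⟩
  linarith [Nl_le l (x - ctr k j)]

theorem tch_inside {S : St m} {l : ℕ} {s M : ℝ} {V : E m} {a' : ℝ} {tg k' : ℕ} {j' : Ix m}
    (h : ∃ f, Inside l M S.k S.j k' j' f) : ∃ f, Inside l M S.k S.j k' j' f ∧
      tch S l s M V a' tg k' j' = ⟨k', j', S.A + (cv (fc l f) s).smulRight V,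
        S.b - (sd S.k / 4 + fc l f ⬝ᵥ ctr S.k S.j) • V, a', tg⟩ :=
  ⟨h.choose, h.choose_spec, dif_pos h⟩

theorem tch_outside {S : St m} {l : ℕ} {s M : ℝ} {V : E m} {a' : ℝ} {tg k' : ℕ} {j' : Ix m}
    (h : ¬ ∃ f, Inside l M S.k S.j k' j' f) :
    tch S l s M V a' tg k' j' = ⟨k', j', S.A, S.b, S.a, S.tag⟩ := dif_neg h

end Pool.Agent.Lib.FQ
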