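import Pool.Agent.Lib.FQ.Kit

/-! Numerical facts on the constants, displacement, weights, and the glue. -/

set_option autoImplicit false

open scoped Topology ENNReal NNReal RealInnerProductSpace Classical
open Metric Filter MeasureTheory Set
open Pool.Agent.Lib.MP_ec86f1_an

noncomputable section

namespace Pool.Agent.Lib.FQ

variable {m : ℕ} {κ : Cst}

namespace Cst.OK

theorem p8 (m : ℕ) : (1 : ℝ) ≤ 8 ^ m := one_le_pow₀ (by norm_num)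

theorem K0_ge (h : κ.OK m) : 12 ≤ κ.K0 := by
  rw [h.hK0]; nlinarith [p8 m, Nat.cast_nonneg (α := ℝ) m]
theorem K0_ge' (h : κ.OK m) : (m : ℝ) + 1 ≤ κ.K0 := by
  rw [h.hK0]; nlinarith [p8 m, Nat.cast_nonneg (α := ℝ) m]
theorem T_ge (h : κ.OK m) : 8 ≤ κ.T := by rw [h.hT]; linarith [p8 m]
theorem pow_le_T (h : κ.OK m) {i : ℕ} (hi : i ≤ m) : (8 : ℝ) ^ i ≤ κ.T := by
  have : (8 : ℝ) ^ i ≤ 8 ^ m := pow_le_pow_right₀ (by norm_num) hi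
  rw [h.hT]; linarith [p8 m]
theorem K0_le_Ku (h : κ.OK m) : κ.K0 ≤ κ.Ku := by
  rw [h.hKu]; nlinarith [h.K0_ge, h.T_ge, mul_nonneg (by linarith [h.T_ge] : 0 ≤ κ.T)
    (by linarith [h.T_ge] : 0 ≤ κ.T + 2)]
theorem K0_le_K (h : κ.OK m) : κ.K0 ≤ κ.K := h.K0_le_Ku.trans h.hK
theorem cKu (h : κ.OK m) : 6 * (κ.Ku + 1) * κ.c ≤ 1 := by
  have h1 : 0 ≤ κ.c * (κ.Ku + 1) := mul_nonneg h.c_pos.le (by linarith [h.K0_ge, h.K0_le_Ku])
  have h2 : 6 ≤ 8 * κ.K0 * κ.T := by nlinarith [h.K0_ge, h.T_ge]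
  nlinarith [h.hc]
theorem c_le (h : κ.OK m) : κ.c ≤ 1 / 64 := by
  nlinarith [h.cKu, h.c_pos, h.K0_ge, h.K0_le_Ku]
theorem T_le_M (h : κ.OK m) : κ.T ≤ κ.M := by
  have h1 : κ.T * κ.c ≤ 8 := by
    have h2 : 1 ≤ 8 * κ.K0 * (κ.Ku + 1) := by nlinarith [h.K0_ge, h.K0_le_Ku]
    have h3 : 0 ≤ κ.T * κ.c := mul_nonneg (by linarith [h.T_ge]) h.c_pos.le
    nlinarith [h.hc]
  exact le_of_mul_le_mul_right (h1.trans h.hM.ge) h.c_pos
theorem q_pos (h : κ.OK m) : 0 < κ.q := by rw [h.hq]; positivity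
theorem q_le (h : κ.OK m) : κ.q ≤ 1 / 8 := by
  rw [h.hq]; exact pow_le_of_le_one (by norm_num) (by norm_num) (by have := h.hm; omega)
theorem γ_pos (h : κ.OK m) : 0 < κ.γ := by rw [h.hγ]; linarith [h.q_pos]
theorem γ_le (h : κ.OK m) : κ.γ ≤ 1 / 32 := by rw [h.hγ]; linarith [h.q_le]
theorem g_pos (h : κ.OK m) : 0 < κ.g := by
  have h1 : 0 < κ.g * (2 * ((m : ℝ) + 1)) := by rw [h.hg]; exact mul_pos h.γ_pos h.q_pos
  exact (mul_pos_iff_of_pos_right (by positivity)).1 h1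
theorem g_le (h : κ.OK m) : 2 * κ.g ≤ κ.γ * κ.q := by
  nlinarith [h.hg, h.g_pos, Nat.cast_nonneg (α := ℝ) m]
theorem g_le' (h : κ.OK m) : κ.g ≤ 1 / 512 := by
  nlinarith [h.g_le, h.γ_pos, h.γ_le, h.q_pos, h.q_le]
theorem δ_pos (h : κ.OK m) : 0 < κ.δ := by
  rw [h.hδ]; have := mul_pos h.g_pos h.q_pos; linarith
theorem δ_le (h : κ.OK m) : κ.δ ≤ κ.g / 32 := by
  rw [h.hδ]; nlinarith [h.g_pos, h.q_le]
theorem θ_le (h : κ.OK m) : 64 * κ.θ ≤ κ.g * κ.q := by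
  nlinarith [h.hθ, mul_nonneg h.θ_pos.le h.C1_nonneg]
theorem θ_half (h : κ.OK m) : κ.θ ≤ 1 / 2 := by
  nlinarith [h.θ_le, h.g_pos, h.g_le', h.q_pos, h.q_le]
theorem θC (h : κ.OK m) : 4 * κ.θ * κ.C1 ≤ κ.g * κ.q / 4 := by
  nlinarith [h.hθ, h.θ_pos]
theorem K0_le_K1 (h : κ.OK m) : κ.K0 ≤ κ.K1 := by
  have h1 : 0 ≤ κ.G * κ.T * (κ.T + 2) := by
    have := h.G_ge; have := h.T_ge; positivity
  have h2 : κ.K0 ≤ κ.G * κ.K0 := by nlinarith [h.G_ge, h.K0_ge]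
  rw [h.hK1]; nlinarith [h.K0_ge]
theorem H_ge (h : κ.OK m) : 8 ≤ κ.H := by linarith [h.hH, h.G_ge]
theorem Λ_pos (h : κ.OK m) (i : ℕ) : 0 < κ.Λ i := by
  induction i with
  | zero => rw [h.Λ0]; nlinarith [h.H_ge, h.K0_le_K1, h.K0_ge]
  | succ i ih => rw [h.Λs]; positivity
theorem cs_pos (h : κ.OK m) : 0 < κ.cs :=
  (mul_pos_iff_of_pos_right (by linarith [h.K0_ge] : 0 < 8 * κ.K0)).1 (h.hcs ▸ h.c0_pos)

end Cst.OK

/-- `X ^ θ ≤ 1 + 2 θ Y` when `X ≤ Y ^ 2` -/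
theorem rpow_le_one_add {X Y θ : ℝ} (hX : 0 ≤ X) (hY : 0 ≤ Y) (h : X ≤ Y ^ 2) (h0 : 0 ≤ θ)
    (h1 : θ ≤ 1 / 2) : X ^ θ ≤ 1 + 2 * θ * Y := by
  have h2 : X ^ θ ≤ (Y ^ 2) ^ θ := Real.rpow_le_rpow hX h h0
  have h3 : (Y ^ 2) ^ θ = (1 + (Y - 1)) ^ (2 * θ) := by
    rw [add_sub_cancel, Real.rpow_mul hY]; norm_num
  have h4 := rpow_one_add_le_one_add_mul_self (s := Y - 1) (by linarith) (p := 2 * θ)
    (by linarith) (by linarith)
  nlinarith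

theorem Iso.mono {Kl Ku Kl' Ku' a : ℝ} {A : P m →L[ℝ] E m} (h : Iso Kl Ku a A) (ha : 0 ≤ a)
    (h1 : Kl ≤ Kl') (h2 : Ku ≤ Ku') : Iso Kl' Ku' a A := fun z =>
  ⟨(h z).1.trans (by gcongr), (h z).2.trans (by gcongr)⟩

theorem St.lam_child {S S' : St m} {G : ℝ} (h : S'.a = G * S.a) :
    S'.lam = G * S.lam * (sd S'.k / sd S.k) := by
  have := (sd_pos S.k).ne'
  unfold St.lam; rw [h]; field_simp

theorem norm_le_one_of_dd {y : E m} (h : 0 ≤ dd y) : ‖y‖ ≤ 1 := by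
  unfold dd at h; nlinarith [norm_nonneg y]

theorem dd_le_one (y : E m) : dd y ≤ 1 := by unfold dd; nlinarith [norm_nonneg y]

namespace Valid

variable {S : St m}

theorem lam_pos (h : Valid κ S) : 0 < S.lam := mul_pos h.a_pos (sd_pos _)

theorem dd_pos (hκ : κ.OK m) (h : Valid κ S) : 0 < dd S.y :=
  (mul_pos_iff_of_pos_left hκ.c_pos).1 (h.lam_pos.trans_le h.size)

theorem lam_le (hκ : κ.OK m) (h : Valid κ S) : S.lam ≤ κ.c :=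
  h.size.trans (mul_le_of_le_one_right hκ.c_pos.le (dd_le_one _))

theorem upper (hκ : κ.OK m) (h : Valid κ S) (z : P m) : ‖S.A z‖ ≤ κ.Ku * S.a * ‖z‖ := by
  have h1 := h.a_pos
  have h2 := hκ.K0_le_Ku
  rcases Nat.lt_trichotomy S.tag 2 with h3 | h3 | h3
  · exact (h.iso0 (by omega) z).2.trans (by gcongr)
  · exact (h.iso2 h3 z).2
  · exact ((h.iso3 h3).1 z).2.trans (by gcongr)

theorem good (hκ : κ.OK m) (h : Valid κ S) : Good κ.K S.A := by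
  refine ⟨h.det, S.a, h.a_pos, ?_⟩
  rcases Nat.lt_trichotomy S.tag 2 with h3 | h3 | h3
  · exact (h.iso0 (by omega)).mono h.a_pos.le hκ.K0_le_K hκ.K0_le_K
  · exact (h.iso2 h3).mono h.a_pos.le hκ.hK' hκ.hK
  · exact (h.iso3 h3).1.mono h.a_pos.le (hκ.hK'' _ (by have := h.tag_le; omega)) hκ.K0_le_K

theorem norm_box {z : P m} (hz : z.1 ∈ S.D) (h0 : 0 ≤ z.2) (h1 : z.2 ≤ sd S.k) :
    ‖z - (ctr S.k S.j, 0)‖ ≤ sd S.k := by
  have h2 := norm_sub_ctr_le hz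
  have h3 := sd_pos S.k
  rw [Prod.norm_def]
  refine max_le (by simp only [Prod.fst_sub]; linarith) ?_
  simpa [abs_of_nonneg h0] using h1

theorem L_sub (S : St m) (z : P m) : S.L z - S.y = S.A (z - (ctr S.k S.j, 0)) := by
  simp [St.L, St.y]

theorem box (hκ : κ.OK m) (h : Valid κ S) {z : P m} (hz : z.1 ∈ S.D) (h0 : 0 ≤ z.2)
    (h1 : z.2 ≤ sd S.k) : ‖S.L z - S.y‖ ≤ κ.Ku * S.lam := by
  rw [L_sub]
  refine (h.upper hκ _).trans ?_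
  have := mul_le_mul_of_nonneg_left (norm_box hz h0 h1)
    (mul_nonneg (by linarith [hκ.K0_ge, hκ.K0_le_Ku] : 0 ≤ κ.Ku) h.a_pos.le)
  rw [St.lam]; linarith

/-- displacement -/
theorem disp (hκ : κ.OK m) (h : Valid κ S) {y : E m} (hy : ‖y - S.y‖ ≤ (κ.Ku + 1) * S.lam) :
    dd S.y / 2 ≤ dd y := by
  have h1 := h.dd_pos hκ
  have h2 := norm_le_one_of_dd h1.le
  have h3 : 0 ≤ κ.Ku + 1 := by linarith [hκ.K0_ge, hκ.K0_le_Ku]
  have h4 : ‖y - S.y‖ ≤ dd S.y / 6 := by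
    have := mul_le_mul_of_nonneg_left h.size h3
    nlinarith [hκ.cKu]
  have h5 : ‖y‖ ≤ ‖S.y‖ + ‖y - S.y‖ := norm_le_norm_add_norm_sub' y S.y
  have h6 := dd_le_one S.y
  have h7 : ‖y‖ ^ 2 ≤ (‖S.y‖ + ‖y - S.y‖) ^ 2 := pow_le_pow_left₀ (norm_nonneg _) h5 2
  have h8 := norm_nonneg (y - S.y)
  have h9 := norm_nonneg S.y
  have h10 : dd y = 1 - ‖y‖ ^ 2 := rfl
  have h11 : dd S.y = 1 - ‖S.y‖ ^ 2 := rfl
  nlinarith

theorem kap_ge (hκ : κ.OK m) (h : Valid κ S) : 1 ≤ kap κ S := by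
  have h1 : (S.tag : ℝ) ≤ m + 3 := by exact_mod_cast h.tag_le
  unfold kap
  split_ifs
  · norm_num
  · exact le_rfl
  · linarith [hκ.γ_pos]
  · nlinarith [hκ.hg, hκ.g_pos, hκ.γ_pos, hκ.q_le, hκ.q_pos]

theorem psi_ge (hκ : κ.OK m) (h : Valid κ S) : 1 ≤ psi κ S := by
  have h1 : 1 ≤ S.lam ^ (-κ.θ) := Real.one_le_rpow_of_pos_of_le_one_of_nonpos h.lam_pos
    ((h.lam_le hκ).trans (by linarith [hκ.c_le])) (by linarith [hκ.θ_pos])
  exact one_le_mul_of_one_le_of_one_le (h.kap_ge hκ) h1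

end Valid

theorem kap_le (hκ : κ.OK m) {S : St m} (h : S.tag ≠ 0) : kap κ S ≤ 1 + κ.γ := by
  unfold kap
  rw [if_neg h]
  split_ifs with h1 h2
  · linarith [hκ.γ_pos]
  · exact le_rfl
  · have : (2 : ℝ) ≤ S.tag := by exact_mod_cast (by omega : 2 ≤ S.tag)
    nlinarith [hκ.g_pos]

theorem kap_le_two (hκ : κ.OK m) {S : St m} (h : S.tag ≠ 0) : kap κ S ≤ 2 :=
  (kap_le hκ h).trans (by linarith [hκ.γ_le])

theorem kap_nice {S : St m} (h : S.tag = 1) (h' : Nice κ S) : kap κ S = 1 := by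
  unfold kap; rw [if_neg (by omega), if_pos ⟨h, h'⟩]

theorem kap_std {S : St m} {i : ℕ} (h : S.tag = 3 + i) :
    kap κ S = 1 + κ.γ - ((i : ℝ) + 1) * κ.g := by
  unfold kap
  rw [if_neg (by omega), if_neg (by omega), if_neg (by omega), h]; push_cast; ring

/-- the potential of a child whose scale is `G` times that of `S` -/
theorem psi_child {S S' : St m} {G : ℝ} (hG : 0 < G) (ha : 0 < S.a) (h : S'.a = G * S.a) :
    psi κ S' = kap κ S' * ((G ^ (-κ.θ) * S.lam ^ (-κ.θ)) * (sd S'.k / sd S.k) ^ (-κ.θ)) := by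
  have h1 : 0 < S.lam := mul_pos ha (sd_pos _)
  have h2 : 0 < sd S'.k / sd S.k := div_pos (sd_pos _) (sd_pos _)
  rw [psi, St.lam_child h, Real.mul_rpow (by positivity) h2.le, Real.mul_rpow hG.le h1.le]

/-! ### Glue -/

theorem main_of (rSLAB : R_SLAB) (rWHIT : R_WHIT) (rTDER : R_TDER) (rTGEN : R_TGEN)
    (rTPOT : R_TPOT) (rR1 : R_R1) (rNEXT : R_NEXT) (rEXT : R_EXT) (rUP : R_UP) (rRESET : R_RESET)
    (rDICH : R_DICH) (rCONST : R_CONST) (rSTART : R_START) (rINIT : R_INIT) (rTERM : R_TERM)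
    (rSTEER : R_STEER) (rARM : R_ARM) (rSTD : R_STD) (rSTDM : R_STDM) (rNODE : R_NODE)
    (rREP : R_REP) (rLOC : R_LOC) (rDER : R_DER) (rREC : R_REC) (rOSC : R_OSC) (rCUB1 : R_CUB1)
    (rCUB2 : R_CUB2) (rPHI1 : R_PHI1) (rPHI2 : R_PHI2) (rQR : R_QR) (rBALL : R_BALL)
    (rNB : R_NB) : St_MAIN := by
  intro n hn
  obtain ⟨m, rfl⟩ : ∃ m, n = m + 1 := ⟨n - 1, by omega⟩
  have hm : 1 ≤ m := by omega
  have hG := rTGEN rTDER
  obtain ⟨κ, hκ⟩ := rCONST (rWHIT rSLAB) m hm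
  have hall : ∀ S : St m, ∃ T : Step m, Valid κ S →
      Geom κ.K S T ∧ Dyn (Valid κ) (psi κ) κ.cs κ.δ S T := by
    intro S
    by_cases hS : Valid κ S
    · have h : Has κ S := by
        have ht := hS.tag_le
        by_cases h0 : S.tag = 0
        · exact rINIT hG rTPOT m κ hκ S hS h0
        by_cases h1 : S.tag = 1
        · by_cases h2 : κ.c0 ≤ S.lam
          · exact rTERM m κ hκ S hS h1 h2
          by_cases h3 : Steer κ S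
          · exact rSTEER hG rTPOT rR1 m κ hκ S hS h1 (not_le.1 h2) h3
          · exact rARM m κ hκ S hS (Or.inr ⟨h1, not_le.1 h2, h3⟩)
        by_cases h2 : S.tag = 2
        · exact rARM m κ hκ S hS (Or.inl h2)
        by_cases h3 : S.tag = m + 3
        · exact rSTDM hG rTPOT rR1 rNEXT rEXT rUP rRESET rDICH m κ hκ S hS h3
        · exact rSTD hG rTPOT rR1 rNEXT rEXT rUP m κ hκ S hS (by omega) (by omega)
      exact h.imp fun T hT _ => hT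
    · exact ⟨⟨0, fun _ _ => False, fun _ _ => S, fun _ _ => False, 0⟩, fun h => absurd h hS⟩
  choose st hst using hall
  have hs : Sys (Valid κ) (psi κ) κ.K κ.cs κ.δ (start m (κ.c / 2)) st :=
    ⟨hκ.δ_pos, rSTART m κ hκ, rfl, rfl, fun S h => h.psi_ge hκ, fun S h => (hst S h).1,
      fun S h => (hst S h).2⟩
  have hR := rREP rNODE
  have hL := rLOC rNODE m _ _ _ _ _ _ _ hs
  have hD := rDER rNODE hR m _ _ _ _ _ _ _ hs
  have hc : Core κ.K κ.cs (start m (κ.c / 2)).L (gsum (start m (κ.c / 2)) st) :=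
    ⟨hL.1, hL.2, hD.1, hD.2, rOSC rNODE hR (rREC rNODE) m _ _ _ _ _ _ _ hs⟩
  have he : 0 < κ.c / 2 := half_pos hκ.c_pos
  obtain ⟨K', hK'⟩ := rCUB1 m hm _ _ _ _ he hc
  obtain ⟨h1, h2, h3⟩ := rBALL rPHI1 (rPHI2 rPHI1) rQR m _ _ _ hK' (rCUB2 m hm _ _ _ _ he hc)
  exact ⟨_, h1, h2, rNB m _ _ hκ.cs_pos h2 h3, κ.cs, hκ.cs_pos, h3⟩

end Pool.Agent.Lib.FQ
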