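import Pool.Agent.Lib.FQ.Steps2
import Pool.Agent.Lib.FQ.B_SLAB
import Pool.Agent.Lib.FQ.B_WHIT
import Pool.Agent.Lib.FQ.B_TDER
import Pool.Agent.Lib.FQ.B_TGEN
import Pool.Agent.Lib.FQ.B_TPOT
import Pool.Agent.Lib.FQ.B_R1
import Pool.Agent.Lib.FQ.B_NEXT
import Pool.Agent.Lib.FQ.B_DEC
import Pool.Agent.Lib.FQ.B_DICH
import Pool.Agent.Lib.FQ.B_CONST
import Pool.Agent.Lib.FQ.B_START
import Pool.Agent.Lib.FQ.B_NODE
import Pool.Agent.Lib.FQ.B_REP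
import Pool.Agent.Lib.FQ.B_LOC
import Pool.Agent.Lib.FQ.B_DER
import Pool.Agent.Lib.FQ.B_REC
import Pool.Agent.Lib.FQ.B_OSC
import Pool.Agent.Lib.FQ.B_CUB1
import Pool.Agent.Lib.FQ.B_CUB2
import Pool.Agent.Lib.FQ.B_PHI1
import Pool.Agent.Lib.FQ.B_PHI2
import Pool.Agent.Lib.FQ.B_QR
import Pool.Agent.Lib.FQ.B_BALL
import Pool.Agent.Lib.FQ.B_NB
import Pool.Agent.Lib.FQ.B_TG2
import Pool.Agent.Lib.FQ.B_LOC2
import Pool.Agent.Lib.FQ.B_CUB3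

/-! A bounded, locally injective quasiregular map of the ball without radial limits. -/

set_option autoImplicit false

open scoped Topology ENNReal NNReal RealInnerProductSpace Classical
open Metric Filter MeasureTheory Set
open Pool.Agent.Lib.MP_ec86f1_an

noncomputable section

namespace Pool.Agent.Lib.FQ

theorem all2 : St_ALL2 := by
  intro m κ hκ S hS
  have hG := r_TGEN r_TDER
  have ht := hS.tag_le
  by_cases h0 : S.tag = 0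
  · exact init2 hG r_TPOT m κ hκ S hS h0
  by_cases h1 : S.tag = 1
  · by_cases h2 : κ.c0 ≤ S.lam
    · exact term2 m κ hκ S hS h1 h2
    by_cases h3 : Steer κ S
    · exact steer2 r_TG2 hG r_TPOT r_R1 m κ hκ S hS h1 (not_le.1 h2) h3
    · exact arm2 m κ hκ S hS (Or.inr ⟨h1, not_le.1 h2, h3⟩)
  by_cases h2 : S.tag = 2
  · exact arm2 m κ hκ S hS (Or.inl h2)
  by_cases h3 : S.tag = m + 3
  · exact stdm2 r_TG2 hG r_TPOT r_R1 r_NEXT r_EXT r_UP r_RESET r_DICH m κ hκ S hS h3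
  · exact std2 r_TG2 hG r_TPOT r_R1 r_NEXT r_EXT r_UP m κ hκ S hS (by omega) (by omega)

theorem sup_Phi {m : ℕ} (z : E m) : sup (Phi z) ≤ ‖z‖ / 2 := by
  have h := sup_nonneg z
  rw [Phi, sup_smul, abs_of_nonneg (by positivity)]
  rcases h.eq_or_lt with h | h
  · rw [← h, mul_zero]; positivity
  · exact le_of_eq (by field_simp)

theorem main2 (n : ℕ) (hn : 3 ≤ n) :
    ∃ f : EuclideanSpace ℝ (Fin n) → EuclideanSpace ℝ (Fin n),
      IsQuasiregularOn volume n (ball 0 1) f ∧ Bornology.IsBounded (f '' ball 0 1) ∧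
        (∀ x ∈ ball (0 : EuclideanSpace ℝ (Fin n)) 1, ∃ U ∈ 𝓝 x, InjOn f U) ∧
          HasNaturalBoundary f ∧ ∃ c : ℝ, 0 < c ∧ BallOsc c f := by
  obtain ⟨m, rfl⟩ : ∃ m, n = m + 1 := ⟨n - 1, by omega⟩
  have hm : 1 ≤ m := by omega
  obtain ⟨κ, hκ⟩ := r_CONST (r_WHIT r_SLAB) m hm
  have hall : ∀ S : St m, ∃ T : Step m, Valid κ S →
      Geom2 S T ∧ Geom κ.K S T ∧ Dyn (Valid κ) (psi κ) κ.cs κ.δ S T := by
    intro S
    by_cases hS : Valid κ S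
    · exact (all2 m κ hκ S hS).imp fun T hT _ => hT
    · exact ⟨⟨0, fun _ _ => False, fun _ _ => S, fun _ _ => False, 0⟩, fun h => absurd h hS⟩
  choose st hst using hall
  have hs : Sys (Valid κ) (psi κ) κ.K κ.cs κ.δ (start m (κ.c / 2)) st :=
    ⟨hκ.δ_pos, r_START m κ hκ, rfl, rfl, fun S h => h.psi_ge hκ, fun S h => (hst S h).2.1,
      fun S h => (hst S h).2.2⟩
  have hR := r_REP r_NODE
  have hL := r_LOC r_NODE m _ _ _ _ _ _ _ hs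
  have hD := r_DER r_NODE hR m _ _ _ _ _ _ _ hs
  have hc : Core κ.K κ.cs (start m (κ.c / 2)).L (gsum (start m (κ.c / 2)) st) :=
    ⟨hL.1, hL.2, hD.1, hD.2, r_OSC r_NODE hR (r_REC r_NODE) m _ _ _ _ _ _ _ hs⟩
  have hc2 := r_LOC2 r_NODE m _ _ _ _ _ _ _ hs fun S h => (hst S h).1
  have he : 0 < κ.c / 2 := half_pos hκ.c_pos
  obtain ⟨K', hK'⟩ := r_CUB1 m hm _ _ _ _ he hc
  obtain ⟨h1, h2, h3⟩ := r_BALL r_PHI1 (r_PHI2 r_PHI1) r_QR m _ _ _ hK'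
    (r_CUB2 m hm _ _ _ _ he hc)
  refine ⟨_, h1, h2, fun x hx => ?_, r_NB m _ _ hκ.cs_pos h2 h3, κ.cs, hκ.cs_pos, h3⟩
  obtain ⟨⟨C, hC⟩, ⟨C', -, hC'⟩, -⟩ := r_PHI1 m
  obtain ⟨U, hU, hinj⟩ := r_CUB3 m hm _ _ he hc2 (Phi x)
    ((sup_Phi x).trans_lt (by linarith [mem_ball_zero_iff.1 hx]))
  refine ⟨Phi ⁻¹' U, hC.continuous.continuousAt.preimage_mem_nhds hU, fun z hz z' hz' h => ?_⟩
  have h4 := hC' z z'
  rw [hinj hz hz' h, sub_self, norm_zero, mul_zero] at h4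
  exact sub_eq_zero.1 (norm_le_zero_iff.1 h4)

end Pool.Agent.Lib.FQ
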