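import Pool.Agent.Lib.FQ.Blue2
import Pool.Agent.Lib.FQ.B_INIT
import Pool.Agent.Lib.FQ.B_TERM
import Pool.Agent.Lib.FQ.B_ARM
import Pool.Agent.Lib.FQ.B_STEER
import Pool.Agent.Lib.FQ.B_STDM

/-! The six kinds of steps again, with the clause used for local injectivity. -/

set_option autoImplicit false

open scoped Topology ENNReal NNReal RealInnerProductSpace Classical
open Metric Filter MeasureTheory Set

noncomputable section

namespace Pool.Agent.Lib.FQ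

open INIT72 in
theorem init2 (hG : St_TGEN) (hP : St_TPOT) (m : ℕ) (κ : Cst) (hκ : κ.OK m) (S : St m)
    (hS : Valid κ S) (h0 : S.tag = 0) : Has2 κ S := by
  have hl := hS.lam_pos
  have hρ : 0 ≤ S.lam ^ (-κ.θ) := Real.rpow_nonneg hl.le _
  have hM : 1 ≤ κ.M := by linarith [hκ.T_ge, hκ.T_le_M]
  obtain ⟨W, w1, w2, w3⟩ := hP m κ.M κ.C1 κ.θ hκ.whit hκ.C1_nonneg hκ.θ_pos hκ.θ_half m le_rfl
    S.k S.j 0 (fun i => by simp) 2 2 _ zero_le_two le_rfl le_rfl hρ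
  have near : ∀ z : P m, z.1 ∈ S.D → 0 ≤ z.2 → z.2 ≤ sd S.k → dd S.y / 2 ≤ dd (S.L z) :=
    fun z a b c => hS.disp hκ ((hS.box hκ a b c).trans (by nlinarith))
  refine ⟨tstep S m 1 κ.M 0 S.a 1 W, geom2_of_zero (hS.good hκ) fun _ => smul_zero _,
    hG m hκ.hm κ.K S m 1 κ.M κ.C1 0 S.a 1 W le_rfl le_rfl hM
    hκ.whit (hS.good hκ) fun f => ?_, ?_, ?_, w1, w2.trans ?_, ?_, fun _ _ h => h.elim, ?_⟩
  · have : S.A + (cv (fc m f) 1).smulRight 0 = S.A :=
      ContinuousLinearMap.ext fun z => by simp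
    rw [this]; exact hS.good hκ
  · intro z a b c
    have := near z a b c
    simp only [tstep, smul_zero, add_zero]
    exact norm_le_one_of_dd (by linarith [hS.dd_pos hκ])
  · intro k' j' ha hs
    have e := child ha hs
    simp only [tstep]
    rw [e]
    have h1 := near (ctr k' j', 0) (hs (ctr_mem _ _)) le_rfl (sd_pos _).le
    have h2 := sd_le_eighth ha.1
    refine ⟨hS.a_pos, ?_, hS.det, fun _ => ?_, by simp, fun _ => hS.iso0 (by omega),
      fun h => by simp at h, fun h => by simp at h⟩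
    · have h3 : S.a * sd k' ≤ S.lam / 8 := by
        have := mul_le_mul_of_nonneg_left h2 hS.a_pos.le
        rw [St.lam]; linarith
      have h4 := mul_le_mul_of_nonneg_left h1 hκ.c_pos.le
      exact (show S.a * sd k' ≤ κ.c * dd (S.L (ctr k' j', 0)) by linarith [hS.size])
    · exact lt_of_lt_of_le (by omega) ha.1
  · refine mul_le_mul_left (ENNReal.ofReal_le_ofReal ?_) _
    have h1 : kap κ S = 16 := if_pos h0
    have h2 : 4 * κ.θ * κ.C1 ≤ 1 := by
      nlinarith [hκ.θC, hκ.g_pos, hκ.g_le', hκ.q_pos, hκ.q_le]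
    have h3 : κ.δ ≤ 1 / 2 := by linarith [hκ.δ_le, hκ.g_le']
    rw [psi, h1]
    nlinarith
  · intro x hx k' ha hf
    have e := child ha (cell_subset (by have := ha.1; omega) hx)
    refine Or.inr ?_
    simp only [tstep]
    rw [e, psi_child (S := S) (S' := ⟨k', idx k' x, S.A, S.b, S.a, 1⟩) one_pos hS.a_pos
      (one_mul _).symm, Real.one_rpow, one_mul]
    have hk : kap κ (⟨k', idx k' x, S.A, S.b, S.a, 1⟩ : St m) ≤ 2 := kap_le_two hκ one_ne_zero
    refine w3 x hx k' ha hf _ ?_ hk fun _ => hk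
    unfold kap
    split_ifs <;> linarith [hκ.γ_pos]
  · intro hk
    refine ⟨fun z => smul_zero _, fun k' j' ha hs x hx => ?_⟩
    obtain ⟨f, hf⟩ := ins ha hs
    have h1 := (hf x hx).2
    have h2 := sd_pos k'
    have h3 := sd_le_eighth ha.1
    rw [Nl_top] at h1
    rw [hk, sd_zero] at h1 h3
    rw [hk]
    nlinarith [hκ.T_ge, hκ.T_le_M]

theorem term2 (m : ℕ) (κ : Cst) (hκ : κ.OK m) (S : St m) (hS : Valid κ S) (ht : S.tag = 1)
    (hc : κ.c0 ≤ S.lam) : Has2 κ S :=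
  ⟨TERM48.stp κ S, geom2_of_zero (hS.good hκ) fun _ => rfl, TERM48.geom hκ hS,
    TERM48.dyn hκ hS ht hc⟩

open ARM91 in
theorem arm2 (m : ℕ) (κ : Cst) (hκ : κ.OK m) (S : St m) (hS : Valid κ S)
    (ht : S.tag = 2 ∨ (S.tag = 1 ∧ S.lam < κ.c0 ∧ ¬ Steer κ S)) : Has2 κ S := by
  have ht' : S.tag = 1 ∨ S.tag = 2 := by omega
  refine ⟨astep κ S, geom2_of_zero (hS.good hκ) fun _ => rfl, geom hκ hS,
    fun z hz h0 h1 => ?_, fun k' j' h hs => valid hκ hS ht' h hs,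
    measurable_const, (setLIntegral_const _ _).le, fun x _ k' h hf => Or.inr ?_,
    fun _ _ h => h.elim, fun h => absurd h (hS.k_pos (by omega)).ne'⟩
  · change ‖S.L z + 0‖ ≤ 1
    rw [add_zero]
    exact norm_le_one_of_dd (by linarith [near hκ hS hz h0 h1, hS.dd_pos hκ])
  · exact ENNReal.ofReal_le_ofReal (pot hκ hS ht h.1 hf)

open STEER49 in
theorem steer2 (h2 : St_TG2) (hG : St_TGEN) (hP : St_TPOT) (hR : St_R1) (m : ℕ) (κ : Cst)
    (hκ : κ.OK m) (S : St m) (hS : Valid κ S) (ht : S.tag = 1) (hlam : S.lam < κ.c0)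
    (hst : Steer κ S) : Has2 κ S := by
  have hkap : kap κ S = 1 := kap_nice ht (Or.inr (Or.inl hst))
  obtain ⟨u, hu2, hu1, hy⟩ := hst
  have ha := hS.a_pos
  have hG1 := hκ.G_ge
  have hT := hκ.T_ge
  have hu := norm_u hκ hu2 hu1
  have hface := face hR hκ hS ht hu2 hu1
  have hρ1 : 0 < S.lam ^ (-κ.θ) := Real.rpow_pos_of_pos hS.lam_pos _
  have hρ2 : 0 < κ.G ^ (-κ.θ) := Real.rpow_pos_of_pos (by linarith) _
  obtain ⟨W, hW1, hW2, hW3⟩ := hP m κ.M κ.C1 κ.θ hκ.whit hκ.C1_nonneg hκ.θ_pos hκ.θ_half m le_rfl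
    S.k S.j 0 (fun _ => by simp) 2 2 (κ.G ^ (-κ.θ) * S.lam ^ (-κ.θ)) (by norm_num) le_rfl le_rfl
    (by positivity)
  have hgeo := hG m hκ.hm κ.K S m κ.T κ.M κ.C1 (κ.G • S.A u) (κ.G * S.a) 2 W le_rfl (by linarith)
    hκ.T_le_M hκ.whit (hS.good hκ) fun f => ⟨(hface f).1, κ.G * S.a, by positivity,
      (hface f).2.mono (by positivity) hκ.hK' hκ.hK⟩
  have hin : ∀ k' j', Adm m κ.M S.k S.j k' j' → cell k' j' ⊆ S.D →
      ∃ f, Inside m κ.M S.k S.j k' j' f := fun k' j' h h' => h.2.resolve_right (not_outside_top h')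
  have hg2 := h2 m hκ.hm S m κ.T κ.M (κ.G • u) (κ.G * S.a) 2 W (by linarith)
    (hS.good hκ).injective fun f => by
      rw [map_smul, cv_apply, hu2, smul_eq_mul]
      have := (abs_le.1 (abs_fc_top_le f u.1)).1
      exact mul_nonneg (by linarith) (by linarith)
  rw [map_smul] at hg2
  refine ⟨_, hg2, hgeo, ?_, ?_, hW1, ?_, ?_, fun _ _ h => h.elim, fun h => ?_⟩
  · intro z hz h0 h1
    refine norm_le_one_of_dd (le_trans ?_ (key hκ hS ht hlam hu hy hz h0 h1))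
    have := tent_nonneg m κ.T S.k S.j z
    positivity
  · intro k' j' h h'
    have haff := hgeo.aff k' j' h (ctr k' j', 0) (ctr_mem _ _) le_rfl (sd_pos _).le
    obtain ⟨f, hf, he⟩ := tch_inside (s := κ.T) (V := κ.G • S.A u) (a' := κ.G * S.a) (tg := 2)
      (hin k' j' h h')
    change Valid κ (tch _ _ _ _ _ _ _ _ _)
    change (tch _ _ _ _ _ _ _ _ _).L _ = _ at haff
    rw [he] at haff ⊢
    refine ⟨by positivity, ?_, (hface f).1, fun _ => by have := h.1; simp only; omega,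
      by simp only; omega, fun h => by simp at h, fun _ => (hface f).2, fun h => by simp at h⟩
    have h1 := key hκ hS ht hlam hu hy (z := (ctr k' j', 0)) (h' (ctr_mem _ _)) le_rfl (sd_pos _).le
    have h2 := tent_ctr (s := κ.T) hf
    have h3 : κ.M * sd k' * (κ.G * S.a) ≤ tent m κ.T S.k S.j (ctr k' j', 0) * (κ.G * S.a) := by
      gcongr
    unfold St.y St.lam
    simp only at haff ⊢
    rw [haff]
    have h4 : κ.G * S.a * sd k' = κ.c * (κ.M * sd k' * (κ.G * S.a) / 8) := by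
      linear_combination (-(κ.G * S.a * sd k') / 8) * hκ.hM
    rw [h4]
    refine mul_le_mul_of_nonneg_left (le_trans (by linarith) h1) hκ.c_pos.le
  · refine hW2.trans (mul_le_mul' (ENNReal.ofReal_le_ofReal ?_) le_rfl)
    rw [psi, hkap]
    have h1 := hκ.θC
    have h2 : κ.g * κ.q ≤ 1 := by nlinarith [hκ.g_pos, hκ.g_le', hκ.q_pos, hκ.q_le]
    have h3 := hκ.δ_le
    have h4 := hκ.g_le'
    have h5 : κ.G ^ (-κ.θ) * (2 + 4 * κ.θ * κ.C1) ≤ 1 / 8 * 3 := by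
      have := mul_nonneg hκ.θ_pos.le hκ.C1_nonneg
      exact mul_le_mul hκ.hG (by linarith) (by linarith) (by norm_num)
    nlinarith
  · intro x hx k' h h'
    right
    obtain ⟨f, hf, he⟩ := tch_inside (s := κ.T) (V := κ.G • S.A u) (a' := κ.G * S.a) (tg := 2)
      (hin k' _ h (cell_subset (by have := h.1; omega) hx))
    change ENNReal.ofReal (psi κ (tch _ _ _ _ _ _ _ _ _)) ≤ W x
    rw [he, psi_child (S := S) (G := κ.G) (by linarith) ha rfl]
    have h1 := kap_le_two hκ (S := ⟨k', idx k' x, S.A + (cv (fc m f) κ.T).smulRight (κ.G • S.A u),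
      S.b - (sd S.k / 4 + fc m f ⬝ᵥ ctr S.k S.j) • κ.G • S.A u, κ.G * S.a, 2⟩) (by simp)
    refine hW3 x hx k' h h' _ ?_ h1 fun _ => h1
    simp only [kap]
    norm_num
    linarith [hκ.γ_pos]
  · exact absurd h (hS.k_pos (by omega)).ne'

open STDM35 in
theorem stdm2 (hT2 : St_TG2) (hGEN : St_TGEN) (hPOT : St_TPOT) (hR1 : St_R1) (hNEXT : St_NEXT)
    (hEXT : St_EXT) (hUP : St_UP) (hRES : St_RESET) (hDICH : St_DICH) (m : ℕ) (κ : Cst)
    (hκ : κ.OK m) (S : St m) (hS : Valid κ S) (htag : S.tag = m + 3) : Has2 κ S := by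
  have hm := hκ.hm
  have ha := hS.a_pos
  obtain ⟨hiso, B, v, β, hdec⟩ := hS.iso3 (by omega)
  have e3 : S.tag - 3 = m := by omega
  rw [e3] at hiso hdec
  obtain ⟨u, w, hw, hAu, horth, hcv⟩ :=
    hNEXT m m le_rfl S.a (κ.Λ m) S.A B v β ha hdec fun z => (hiso z).1
  have h8 : (1 : ℝ) ≤ 8 ^ m := Cst.OK.p8 m
  have h80 : (0 : ℝ) ≤ 8 ^ m := by linarith
  have hdet : ∀ f : Fa m, 0 < dt (S.A + (cv (fc m f) (8 ^ m)).smulRight (S.a • w)) := by
    intro f
    have := (hR1 m S.A u (cv (fc m f) (8 ^ m)) S.a (κ.Λ m) (2 + 8 ^ m) hS.det (hcv f) ha.le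
      (hκ.Λ_pos m).le (by linarith) (abs_cv_le m f h80) fun z => (hiso z).1).1
    rwa [hAu] at this
  have hI : ∀ f : Fa m, Iso κ.K0 κ.K0 S.a (S.A + (cv (fc m f) (8 ^ m)).smulRight (S.a • w)) := by
    intro f z
    have h1 := hEXT m m S.a S.A B v β w f hdec hw horth
    have h2 := hUP m (m + 1) le_rfl S.a _ _ _ _ ha.le h1 z
    have h3 := hRES m hm S.a _ _ _ _ ha.le h1 z
    refine ⟨h3.trans ?_, by rw [hκ.hK0]; exact h2⟩
    exact mul_le_mul_of_nonneg_right hκ.K0_ge (norm_nonneg _)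
  obtain ⟨b, u', hu1, hu2, hu3⟩ := hDICH m ⟨0, hm⟩ S.a S.A B v β w ha.le hdec hw horth S.y
  have hρ : 0 ≤ S.lam ^ (-κ.θ) := Real.rpow_nonneg hS.lam_pos.le _
  obtain ⟨W, hWm, hWi, hWp⟩ := hPOT m κ.M κ.C1 κ.θ hκ.whit hκ.C1_nonneg hκ.θ_pos hκ.θ_half m le_rfl
    S.k S.j (off ⟨0, hm⟩ b) (off_mem _ b) (1 + κ.γ) 1 (S.lam ^ (-κ.θ)) zero_le_one
    (by linarith [hκ.γ_pos]) (by linarith [hκ.γ_le]) hρ
  have hG : Geom κ.K S (tstep S m (8 ^ m) κ.M (S.a • w) S.a 1 W) :=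
    hGEN m hm κ.K S m (8 ^ m) κ.M κ.C1 (S.a • w) S.a 1 W le_rfl h8
      ((hκ.pow_le_T le_rfl).trans hκ.T_le_M) hκ.whit (hS.good hκ) fun f =>
        ⟨hdet f, S.a, ha, (hI f).mono ha.le hκ.K0_le_K hκ.K0_le_K⟩
  have hch : ∀ k' j', Adm m κ.M S.k S.j k' j' → cell k' j' ⊆ S.D → ∃ f : Fa m,
      Inside m κ.M S.k S.j k' j' f ∧
      (tch S m (8 ^ m) κ.M (S.a • w) S.a 1 k' j').A =
        S.A + (cv (fc m f) (8 ^ m)).smulRight (S.a • w) ∧
      (tch S m (8 ^ m) κ.M (S.a • w) S.a 1 k' j').a = S.a ∧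
      (tch S m (8 ^ m) κ.M (S.a • w) S.a 1 k' j').tag = 1 ∧
      (tch S m (8 ^ m) κ.M (S.a • w) S.a 1 k' j').k = k' ∧
      ‖(tch S m (8 ^ m) κ.M (S.a • w) S.a 1 k' j').y - S.y‖ ≤ (κ.Ku + 1) * S.lam ∧
      Valid κ (tch S m (8 ^ m) κ.M (S.a • w) S.a 1 k' j') := by
    intro k' j' hadm hsub
    have hin : ∃ f, Inside m κ.M S.k S.j k' j' f :=
      hadm.2.resolve_right (not_outside_top hsub)
    obtain ⟨f, hf, he⟩ :=
      tch_inside (s := (8 : ℝ) ^ m) (V := S.a • w) (a' := S.a) (tg := 1) hin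
    have hk := sd_le_eighth hadm.1
    have hk0 := sd_pos k'
    have hy : (tch S m (8 ^ m) κ.M (S.a • w) S.a 1 k' j').y =
        S.L (ctr k' j', 0) + -(tent m (8 ^ m) S.k S.j (ctr k' j', 0)) • (S.a • w) := by
      have h1 := hG.aff k' j' hadm (ctr k' j', 0) (ctr_mem k' j') le_rfl hk0.le
      have h2 := hG.chk k' j'
      have h3 : (tch S m (8 ^ m) κ.M (S.a • w) S.a 1 k' j').k = k' := h2.1
      have h4 : (tch S m (8 ^ m) κ.M (S.a • w) S.a 1 k' j').j = j' := h2.2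
      rw [St.y, h3, h4]
      exact h1
    have hd : ‖(tch S m (8 ^ m) κ.M (S.a • w) S.a 1 k' j').y - S.y‖ ≤ (κ.Ku + 1) * S.lam := by
      rw [hy]
      exact move hκ hS hw h80 (z := (ctr k' j', 0)) (hsub (ctr_mem k' j')) le_rfl (sd_pos _).le
    have hA : (tch S m (8 ^ m) κ.M (S.a • w) S.a 1 k' j').A =
        S.A + (cv (fc m f) (8 ^ m)).smulRight (S.a • w) := by rw [he]
    have ha' : (tch S m (8 ^ m) κ.M (S.a • w) S.a 1 k' j').a = S.a := by rw [he]
    have ht : (tch S m (8 ^ m) κ.M (S.a • w) S.a 1 k' j').tag = 1 := by rw [he]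
    have hk' : (tch S m (8 ^ m) κ.M (S.a • w) S.a 1 k' j').k = k' := by rw [he]
    refine ⟨f, hf, hA, ha', ht, hk', hd, ?_⟩
    refine ⟨by rw [ha']; exact ha, ?_, by rw [hA]; exact hdet f, fun _ => ?_,
      by rw [ht]; omega, fun _ => by rw [hA, ha']; exact hI f, fun h => ?_, fun h => ?_⟩
    · have h1 := hS.disp hκ hd
      have h2 := hS.size
      have h3 := hκ.c_pos
      have h4 := hS.dd_pos hκ
      have h5 : S.a * sd k' ≤ S.lam / 8 := by unfold St.lam; nlinarith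
      have h6 := mul_le_mul_of_nonneg_left h1 h3.le
      have h7 := mul_pos h3 h4
      rw [St.lam, ha', hk']
      linarith
    · rw [hk']; have := hadm.1; omega
    · rw [ht] at h; omega
    · rw [ht] at h; omega
  have hg2 := hT2 m hm S m (8 ^ m) κ.M u S.a 1 W h8 (hS.good hκ).injective hcv
  rw [hAu] at hg2
  refine ⟨_, hg2, hG, ?_, ?_, hWm, ?_, ?_, ?_, ?_⟩
  · intro z hz h0 h1
    have h2 := hS.disp hκ (move hκ hS hw (l := m) h80 hz h0 h1)
    exact norm_le_one_of_dd ((half_pos (hS.dd_pos hκ)).le.trans h2)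
  · intro k' j' hadm hsub
    obtain ⟨f, -, -, -, -, -, -, hv⟩ := hch k' j' hadm hsub
    exact hv
  · refine hWi.trans (mul_le_mul_left (ENNReal.ofReal_le_ofReal ?_) _)
    have h1 : kap κ S = 1 + κ.γ - ((m : ℝ) + 1) * κ.g := kap_std (by omega)
    have h2 : ((m : ℝ) + 1) * κ.g = κ.γ * κ.q / 2 := by linarith [hκ.hg]
    have h3 : 1 + κ.γ - (1 + κ.γ - 1) * (1 / 8) ^ m + 4 * κ.θ * κ.C1 ≤ (1 - κ.δ) * kap κ S := by
      have h4 := kap_le_two hκ (S := S) (by omega)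
      have h5 := mul_le_mul_of_nonneg_left h4 hκ.δ_pos.le
      have h6 := hκ.θC
      have h7 := hκ.hδ
      have h9 : κ.g * κ.q ≤ κ.g / 8 := by nlinarith [hκ.g_pos, hκ.q_le]
      have h10 := hκ.g_le
      have h11 := hκ.g_pos
      rw [← hκ.hq]
      nlinarith
    have h4 := mul_le_mul_of_nonneg_left h3 hρ
    rw [psi]
    linarith
  · intro x hx k' hadm hfirst
    right
    obtain ⟨f, hf, hA, ha', ht, hk', hd, hv⟩ :=
      hch k' (idx k' x) hadm (cell_subset (by have := hadm.1; omega) hx)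
    have h1 := hWp x hx k' hadm hfirst (kap κ (tch S m (8 ^ m) κ.M (S.a • w) S.a 1 k' (idx k' x)))
      (by linarith [hv.kap_ge hκ]) (kap_le hκ (by rw [ht]; omega)) fun hx' => by
        refine (kap_nice ht (nice hκ hS hv ha' ht hd hu1 (by rw [hκ.hT]; exact hu2) ?_)).le
        rw [hA, fc_star hx' (hf x (mem_cell_idx k' x)).1]
        exact hu3
    have h2 := psi_child (κ := κ) (S := S)
      (S' := tch S m (8 ^ m) κ.M (S.a • w) S.a 1 k' (idx k' x)) one_pos ha (by rw [ha', one_mul])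
    rw [Real.one_rpow, one_mul, hk'] at h2
    rw [← h2] at h1
    exact h1
  · intro k' j' h
    exact h.elim
  · intro h
    have := hS.k_pos (by omega)
    omega

open STDM35 in
theorem std2 (hT2 : St_TG2) (hGEN : St_TGEN) (hPOT : St_TPOT) (hR1 : St_R1) (hNEXT : St_NEXT)
    (hEXT : St_EXT) (hUP : St_UP) (m : ℕ) (κ : Cst) (hκ : κ.OK m) (S : St m) (hS : Valid κ S)
    (h3 : 3 ≤ S.tag) (hlt : S.tag < m + 3) : Has2 κ S := by
  have hm := hκ.hm
  have ha := hS.a_pos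
  obtain ⟨i, hi⟩ : ∃ i, S.tag = 3 + i := ⟨S.tag - 3, by omega⟩
  have him : i ≤ m := by omega
  obtain ⟨hiso, B, v, β, hdec⟩ := hS.iso3 h3
  have e3 : S.tag - 3 = i := by omega
  rw [e3] at hiso hdec
  obtain ⟨u, w, hw, hAu, horth, hcv⟩ :=
    hNEXT m i him S.a (κ.Λ i) S.A B v β ha hdec fun z => (hiso z).1
  have h8 : (1 : ℝ) ≤ 8 ^ i := Cst.OK.p8 i
  have h80 : (0 : ℝ) ≤ 8 ^ i := by linarith
  have hΛ := hκ.Λ_pos i
  have hu : ‖u‖ ≤ κ.Λ i := by
    have h1 := (hiso u).1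
    rw [hAu, norm_smul, hw, Real.norm_of_nonneg ha.le, mul_one, mul_comm (κ.Λ i)] at h1
    exact le_of_mul_le_mul_left h1 ha
  have hface : ∀ f : Fa m, 0 < dt (S.A + (cv (fc i f) (8 ^ i)).smulRight (S.a • w)) ∧
      Iso (κ.Λ (i + 1)) κ.K0 S.a (S.A + (cv (fc i f) (8 ^ i)).smulRight (S.a • w)) := by
    intro f
    have h1 := hR1 m S.A u (cv (fc i f) (8 ^ i)) S.a (κ.Λ i) (2 + 8 ^ i) hS.det (hcv f) ha.le
      hΛ.le (by linarith) (abs_cv_le i f h80) fun z => (hiso z).1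
    rw [hAu] at h1
    refine ⟨h1.1, fun z => ⟨(h1.2 z).trans ?_, ?_⟩⟩
    · rw [hκ.Λs]; gcongr
    · rw [hκ.hK0]
      exact hUP m (i + 1) (by omega) S.a _ _ _ _ ha.le (hEXT m i S.a S.A B v β w f hdec hw horth) z
  have hρ : 0 ≤ S.lam ^ (-κ.θ) := Real.rpow_nonneg hS.lam_pos.le _
  have hk1 := hS.kap_ge hκ
  have hk2 := kap_le_two hκ (S := S) (by omega)
  have hg := hκ.g_pos
  have hg' := hκ.g_le'
  obtain ⟨W, hWm, hWi, hWp⟩ := hPOT m κ.M κ.C1 κ.θ hκ.whit hκ.C1_nonneg hκ.θ_pos hκ.θ_half i him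
    S.k S.j 0 (fun _ => by simp) (kap κ S) (kap κ S - κ.g) (S.lam ^ (-κ.θ)) (by linarith)
    (by linarith) hk2 hρ
  have hG : Geom κ.K S (tstep S i (8 ^ i) κ.M (S.a • w) S.a (3 + (i + 1)) W) :=
    hGEN m hm κ.K S i (8 ^ i) κ.M κ.C1 (S.a • w) S.a (3 + (i + 1)) W him h8
      ((hκ.pow_le_T him).trans hκ.T_le_M) hκ.whit (hS.good hκ) fun f =>
        ⟨(hface f).1, S.a, ha, (hface f).2.mono ha.le (hκ.hK'' _ (by omega)) hκ.K0_le_K⟩
  have hg2 := hT2 m hm S i (8 ^ i) κ.M u S.a (3 + (i + 1)) W h8 (hS.good hκ).injective hcv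
  rw [hAu] at hg2
  refine ⟨_, hg2, hG, ?_, ?_, hWm, ?_, ?_, fun _ _ h => h.elim,
    fun h => absurd h (hS.k_pos (by omega)).ne'⟩
  · intro z hz h0 h1
    have h2 := hS.disp hκ (move hκ hS hw (l := i) h80 hz h0 h1)
    exact norm_le_one_of_dd ((half_pos (hS.dd_pos hκ)).le.trans h2)
  · intro k' j' hadm hsub
    have haff := hG.aff k' j' hadm (ctr k' j', 0) (ctr_mem k' j') le_rfl (sd_pos _).le
    have h1 := hS.disp hκ (move hκ hS hw (l := i) h80 (z := (ctr k' j', 0)) (hsub (ctr_mem k' j'))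
      le_rfl (sd_pos _).le)
    have hsize : S.a * sd k' ≤ κ.c * dd ((tch S i (8 ^ i) κ.M (S.a • w) S.a (3 + (i + 1)) k' j').L
        (ctr k' j', 0)) := by
      have h5 : S.a * sd k' ≤ S.lam / 8 := by
        have := mul_le_mul_of_nonneg_left (sd_le_eighth hadm.1) ha.le
        rw [St.lam]; linarith
      have h6 := mul_le_mul_of_nonneg_left h1 hκ.c_pos.le
      have h7 := hS.size
      have h9 := hS.lam_pos
      change (tch _ _ _ _ _ _ _ _ _).L _ = _ at haff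
      rw [haff]
      exact le_trans (by linarith) h6
    have hk0 : 0 < k' := by have := hadm.1; omega
    change Valid κ (tch _ _ _ _ _ _ _ _ _)
    by_cases hin : ∃ f, Inside i κ.M S.k S.j k' j' f
    · obtain ⟨f, -, he⟩ := tch_inside (s := (8 : ℝ) ^ i) (V := S.a • w) (a' := S.a)
        (tg := 3 + (i + 1)) hin
      rw [he] at hsize ⊢
      refine ⟨ha, hsize, (hface f).1, fun _ => hk0, by simp only; omega,
        fun h => by simp only at h; omega, fun h => by simp only at h; omega, fun _ => ?_⟩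
      simp only [Nat.add_sub_cancel_left]
      exact ⟨(hface f).2, _, _, _, hEXT m i S.a S.A B v β w f hdec hw horth⟩
    · rw [tch_outside hin] at hsize ⊢
      exact ⟨ha, hsize, hS.det, fun _ => hk0, hS.tag_le, hS.iso0, hS.iso2, hS.iso3⟩
  · refine hWi.trans (mul_le_mul' (ENNReal.ofReal_le_ofReal ?_) le_rfl)
    have h4 : kap κ S - (kap κ S - (kap κ S - κ.g)) * (1 / 8) ^ m + 4 * κ.θ * κ.C1 ≤
        (1 - κ.δ) * kap κ S := by
      have h5 := mul_le_mul_of_nonneg_left hk2 hκ.δ_pos.le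
      have h6 := hκ.θC
      have h7 := hκ.hδ
      have h9 := mul_pos hg hκ.q_pos
      rw [← hκ.hq]
      linarith
    have h5 := mul_le_mul_of_nonneg_left h4 hρ
    rw [psi]
    linarith
  · intro x hx k' hadm hfirst
    right
    change ENNReal.ofReal (psi κ (tch _ _ _ _ _ _ _ _ _)) ≤ W x
    have hkS := kap_std (κ := κ) hi
    have hps : ∀ (S' : St m) (i' : ℕ), S'.a = S.a → S'.tag = 3 + i' → psi κ S' =
        (1 + κ.γ - ((i' : ℝ) + 1) * κ.g) * (S.lam ^ (-κ.θ) * (sd S'.k / sd S.k) ^ (-κ.θ)) := by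
      intro S' i' h1 h2
      rw [psi_child (S := S) (S' := S') (G := 1) one_pos ha (by rw [h1, one_mul]), Real.one_rpow,
        one_mul, kap_std h2]
    by_cases hin : ∃ f, Inside i κ.M S.k S.j k' (idx k' x) f
    · obtain ⟨f, -, he⟩ := tch_inside (s := (8 : ℝ) ^ i) (V := S.a • w) (a' := S.a)
        (tg := 3 + (i + 1)) hin
      rw [he]
      refine le_trans (le_of_eq (congrArg _ (hps _ (i + 1) rfl rfl))) ?_
      refine hWp x hx k' hadm hfirst _ ?_ ?_ fun _ => ?_ <;> push_cast <;> linarith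
    · rw [tch_outside hin]
      refine le_trans (le_of_eq (congrArg _ (hps _ i rfl hi))) ?_
      refine hWp x hx k' hadm hfirst _ (by linarith) hkS.ge fun hx' => ?_
      exact absurd (hadm.2.resolve_left hin) (not_outside_centre (mem_cell_idx k' x) hx')

end Pool.Agent.Lib.FQ
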